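import Mathlib

/-!
# A kernel near the diagonal
-/

set_option autoImplicit false

open MeasureTheory Measure Filter Topology

namespace Pool.Agent.K3h93.EF

variable {μ : Measure ℝ} [IsProbabilityMeasure μ]

/-- `c` lies between the two numbers -/
def Btw (c : ℝ) (p : ℝ × ℝ) : Prop := (p.1 ≤ c ∧ c ≤ p.2) ∨ (p.2 ≤ c ∧ c ≤ p.1)

lemma Btw_meas (c : ℝ) : MeasurableSet {p : ℝ × ℝ | Btw c p} := by
  have h1 : MeasurableSet {p : ℝ × ℝ | p.1 ≤ c} := measurableSet_le measurable_fst measurable_const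
  have h2 : MeasurableSet {p : ℝ × ℝ | c ≤ p.2} := measurableSet_le measurable_const measurable_snd
  have h3 : MeasurableSet {p : ℝ × ℝ | p.2 ≤ c} := measurableSet_le measurable_snd measurable_const
  have h4 : MeasurableSet {p : ℝ × ℝ | c ≤ p.1} := measurableSet_le measurable_const measurable_fst
  exact (h1.inter h2).union (h3.inter h4)

lemma Btw_abs {c : ℝ} {p : ℝ × ℝ} (h : Btw c p) : |p.1 - c| ≤ |p.1 - p.2| := by
  rcases h with ⟨h1, h2⟩ | ⟨h1, h2⟩
  · rw [abs_of_nonpos (by linarith), abs_of_nonpos (by linarith)]; linarith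
  · rw [abs_of_nonneg (by linarith), abs_of_nonneg (by linarith)]; linarith

lemma near_meas (δ : ℝ) : MeasurableSet {p : ℝ × ℝ | |p.1 - p.2| ≤ δ} :=
  measurableSet_le ((measurable_fst.sub measurable_snd).abs) measurable_const

/-- near the diagonal -/
noncomputable def rho (μ : Measure ℝ) (δ : ℝ) : ℝ := (μ.prod μ).real {p : ℝ × ℝ | |p.1 - p.2| ≤ δ}

lemma rho_tendsto (hat : ∀ x, μ {x} = 0) :
    Tendsto (fun n : ℕ => rho μ (1 / ((n : ℝ) + 1))) atTop (𝓝 0) := by
  have h1 : Tendsto (fun n : ℕ => (μ.prod μ) {p : ℝ × ℝ | |p.1 - p.2| ≤ 1 / ((n : ℝ) + 1)}) atTop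
      (𝓝 ((μ.prod μ) (⋂ n : ℕ, {p : ℝ × ℝ | |p.1 - p.2| ≤ 1 / ((n : ℝ) + 1)}))) := by
    refine tendsto_measure_iInter_atTop (fun n => (near_meas _).nullMeasurableSet) ?_
      ⟨0, measure_ne_top _ _⟩
    intro m n hmn p hp
    have h2 : (m : ℝ) ≤ n := by exact_mod_cast hmn
    have hp' : |p.1 - p.2| ≤ 1 / ((n : ℝ) + 1) := hp
    show |p.1 - p.2| ≤ 1 / ((m : ℝ) + 1)
    exact hp'.trans (one_div_le_one_div_of_le (by positivity) (by linarith))
  have h2 : (⋂ n : ℕ, {p : ℝ × ℝ | |p.1 - p.2| ≤ 1 / ((n : ℝ) + 1)}) =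
      {p : ℝ × ℝ | p.1 = p.2} := by
    ext p
    simp only [Set.mem_iInter, Set.mem_ofPred_eq]
    constructor
    · intro h
      have h3 : Tendsto (fun n : ℕ => 1 / ((n : ℝ) + 1)) atTop (𝓝 0) :=
        tendsto_one_div_add_atTop_nhds_zero_nat
      have h4 := ge_of_tendsto h3 (Eventually.of_forall h)
      exact sub_eq_zero.1 (abs_nonpos_iff.1 h4)
    · intro h n
      rw [h, sub_self, abs_zero]
      positivity
  have h3 : (μ.prod μ) {p : ℝ × ℝ | p.1 = p.2} = 0 := by
    have hm : MeasurableSet {p : ℝ × ℝ | p.1 = p.2} :=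
      measurableSet_eq_fun measurable_fst measurable_snd
    rw [measure_prod_null hm]
    refine Eventually.of_forall fun t => ?_
    have : Prod.mk t ⁻¹' {p : ℝ × ℝ | p.1 = p.2} = {t} := by
      ext y
      simp only [Set.mem_preimage, Set.mem_ofPred_eq, Set.mem_singleton_iff]
      exact eq_comm
    show μ (Prod.mk t ⁻¹' {p : ℝ × ℝ | p.1 = p.2}) = 0
    rw [this]
    exact hat t
  rw [h2, h3] at h1
  have h4 := (ENNReal.tendsto_toReal ENNReal.zero_ne_top).comp h1
  simpa [rho, Measure.real, Function.comp_def] using h4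

lemma exists_rho (hat : ∀ x, μ {x} = 0) {ε : ℝ} (hε : 0 < ε) : ∃ δ : ℝ, 0 < δ ∧ rho μ δ < ε := by
  have h1 := (rho_tendsto hat).eventually (gt_mem_nhds hε)
  obtain ⟨n, hn⟩ := h1.exists
  exact ⟨1 / ((n : ℝ) + 1), by positivity, hn⟩

lemma ball_le {ε : ℝ} (hε : 0 < ε) {δ : ℝ} (hδ : rho μ δ < ε ^ 2) (c : ℝ) :
    μ.real {t | |t - c| ≤ δ / 2} ≤ ε := by
  set A : Set ℝ := {t | |t - c| ≤ δ / 2} with hA
  have h1 : (μ.prod μ).real (A ×ˢ A) ≤ rho μ δ := by
    refine measureReal_mono ?_
    rintro ⟨t, t'⟩ ⟨h2, h3⟩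
    have h2' : |t - c| ≤ δ / 2 := h2
    have h3' : |t' - c| ≤ δ / 2 := h3
    show |t - t'| ≤ δ
    have := abs_sub_le t c t'
    rw [abs_sub_comm c t'] at this
    linarith
  have h2 : (μ.prod μ).real (A ×ˢ A) = μ.real A ^ 2 := by
    unfold Measure.real
    rw [prod_prod, ENNReal.toReal_mul, pow_two]
  rw [h2] at h1
  exact le_of_lt (lt_of_pow_lt_pow_left₀ 2 hε.le (h1.trans_lt hδ))

/-- the cell of a number -/
noncomputable def cell (θ : ℝ) (t : ℝ) : ℤ := ⌊t / θ⌋

lemma cell_meas (θ : ℝ) : Measurable (cell θ) := Int.measurable_floor.comp (measurable_id.div_const θ)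

/-- the mass of the cell -/
noncomputable def cm (μ : Measure ℝ) (θ : ℝ) (t : ℝ) : ℝ := μ.real {t' | cell θ t' = cell θ t}

omit [IsProbabilityMeasure μ] in
lemma cm_meas (θ : ℝ) : Measurable (cm μ θ) := by
  have h1 : Measurable fun j : ℤ => μ.real {t' | cell θ t' = j} := measurable_from_top
  exact h1.comp (cell_meas θ)

lemma cell_near {θ : ℝ} (hθ : 0 < θ) {t t' : ℝ} (h : cell θ t = cell θ t') : |t - t'| ≤ θ := by
  unfold cell at h
  have a1 := Int.floor_le (t / θ)
  have a2 := Int.lt_floor_add_one (t / θ)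
  have b1 := Int.floor_le (t' / θ)
  have b2 := Int.lt_floor_add_one (t' / θ)
  rw [h] at a1 a2
  have h1 : t / θ - t' / θ ≤ 1 := by linarith
  have h2 : -1 ≤ t / θ - t' / θ := by linarith
  rw [← sub_div] at h1 h2
  rw [div_le_iff₀ hθ] at h1
  rw [le_div_iff₀ hθ] at h2
  rw [abs_le]
  constructor <;> linarith

lemma cm_zero (θ : ℝ) : μ {t | cm μ θ t ≤ 0} = 0 := by
  have h1 : {t | cm μ θ t ≤ 0} ⊆ ⋃ j : {j : ℤ // μ {t' | cell θ t' = j} = 0},
      {t' | cell θ t' = j.1} := by
    intro t ht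
    have h2 : μ {t' | cell θ t' = cell θ t} = 0 := by
      have h3 : cm μ θ t = 0 := le_antisymm ht measureReal_nonneg
      unfold cm at h3
      exact (measureReal_eq_zero_iff).1 h3
    exact Set.mem_iUnion.2 ⟨⟨cell θ t, h2⟩, rfl⟩
  refine measure_mono_null h1 ?_
  rw [measure_iUnion_null_iff]
  exact fun j => j.2

lemma exists_beta (θ : ℝ) {ε : ℝ} (hε : 0 < ε) : ∃ β : ℝ, 0 < β ∧ μ.real {t | cm μ θ t < β} < ε := by
  have h1 : Tendsto (fun n : ℕ => μ {t | cm μ θ t < 1 / ((n : ℝ) + 1)}) atTop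
      (𝓝 (μ (⋂ n : ℕ, {t | cm μ θ t < 1 / ((n : ℝ) + 1)}))) := by
    refine tendsto_measure_iInter_atTop
      (fun n => (measurableSet_lt (cm_meas θ) measurable_const).nullMeasurableSet) ?_
      ⟨0, measure_ne_top _ _⟩
    intro m n hmn t ht
    have h2 : (m : ℝ) ≤ n := by exact_mod_cast hmn
    have ht' : cm μ θ t < 1 / ((n : ℝ) + 1) := ht
    show cm μ θ t < 1 / ((m : ℝ) + 1)
    exact ht'.trans_le (one_div_le_one_div_of_le (by positivity) (by linarith))
  have h2 : (⋂ n : ℕ, {t | cm μ θ t < 1 / ((n : ℝ) + 1)}) ⊆ {t | cm μ θ t ≤ 0} := by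
    intro t ht
    rw [Set.mem_iInter] at ht
    have h3 : Tendsto (fun n : ℕ => 1 / ((n : ℝ) + 1)) atTop (𝓝 0) :=
      tendsto_one_div_add_atTop_nhds_zero_nat
    exact ge_of_tendsto h3 (Eventually.of_forall fun n => (ht n).le)
  rw [measure_mono_null h2 (cm_zero θ)] at h1
  have h4 := (ENNReal.tendsto_toReal ENNReal.zero_ne_top).comp h1
  have h5 : ∀ᶠ n : ℕ in atTop, μ.real {t | cm μ θ t < 1 / ((n : ℝ) + 1)} < ε := by
    refine (h4.eventually (gt_mem_nhds (by simpa using hε))).mono fun n hn => ?_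
    exact hn
  obtain ⟨n, hn⟩ := h5.exists
  exact ⟨1 / ((n : ℝ) + 1), by positivity, hn⟩

/-- The kernel. -/
lemma exists_kernel (hat : ∀ x, μ {x} = 0) {ε : ℝ} (hε : 0 < ε) :
    ∃ (κ : ℝ × ℝ → ℝ) (C θ : ℝ), 0 < C ∧ 0 < θ ∧ Measurable κ ∧ (∀ p, 0 ≤ κ p) ∧
      (∀ p, κ p ≤ C) ∧ (∀ p, κ p ≠ 0 → θ ≤ |p.1 - p.2|) ∧
      (∀ t, ∫ t', κ (t, t') ∂μ ≤ 1) ∧ (1 - ε ≤ ∫ p, κ p ∂(μ.prod μ)) ∧
      (∀ c, ∫ p, Set.indicator {p : ℝ × ℝ | Btw c p} κ p ∂(μ.prod μ) ≤ ε) := by
  classical
  obtain ⟨δ, hδ0, hδ⟩ := exists_rho hat (ε := ε ^ 2) (by positivity)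
  set θ0 : ℝ := δ / 2 with hθ0
  have hθ00 : 0 < θ0 := by linarith
  obtain ⟨β, hβ0, hβ⟩ := exists_beta (μ := μ) θ0 (ε := ε / 2) (by linarith)
  obtain ⟨θ, hθp, hθ⟩ := exists_rho hat (ε := β * (ε / 2)) (by positivity)
  set S : Set (ℝ × ℝ) := {p | cell θ0 p.2 = cell θ0 p.1} ∩ ({p | θ ≤ |p.1 - p.2|} ∩
    {p | β ≤ cm μ θ0 p.1}) with hS
  have hSm : MeasurableSet S := by
    refine MeasurableSet.inter ?_ (MeasurableSet.inter ?_ ?_)
    · exact measurableSet_eq_fun ((cell_meas θ0).comp measurable_snd)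
        ((cell_meas θ0).comp measurable_fst)
    · exact measurableSet_le measurable_const (measurable_fst.sub measurable_snd).abs
    · exact measurableSet_le measurable_const ((cm_meas θ0).comp measurable_fst)
  set κ : ℝ × ℝ → ℝ := S.indicator fun p => 1 / cm μ θ0 p.1 with hκ
  have hκm : Measurable κ :=
    (measurable_const.div ((cm_meas θ0).comp measurable_fst)).indicator hSm
  have hcm0 : ∀ t, 0 ≤ cm μ θ0 t := fun t => measureReal_nonneg
  have hκ0 : ∀ p, 0 ≤ κ p := fun p =>
    Set.indicator_nonneg (fun p _ => one_div_nonneg.2 (hcm0 _)) p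
  have hκC : ∀ p, κ p ≤ 1 / β := by
    intro p
    by_cases hp : p ∈ S
    · rw [hκ, Set.indicator_of_mem hp]
      exact one_div_le_one_div_of_le hβ0 hp.2.2
    · rw [hκ, Set.indicator_of_notMem hp]
      positivity
  have hκi : Integrable κ (μ.prod μ) :=
    Integrable.of_bound hκm.aestronglyMeasurable (1 / β)
      (Eventually.of_forall fun p => by
        rw [Real.norm_eq_abs, abs_of_nonneg (hκ0 p)]; exact hκC p)
  have hκt : ∀ t, Measurable fun t' => κ (t, t') := fun t =>
    hκm.comp (measurable_const.prodMk measurable_id)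
  have hκti : ∀ t, Integrable (fun t' => κ (t, t')) μ := fun t =>
    Integrable.of_bound (hκt t).aestronglyMeasurable (1 / β)
      (Eventually.of_forall fun p => by
        rw [Real.norm_eq_abs, abs_of_nonneg (hκ0 _)]; exact hκC _)
  -- the integral in the second variable
  have hcell : ∀ t, MeasurableSet {t' | cell θ0 t' = cell θ0 t} := fun t =>
    (cell_meas θ0) (measurableSet_singleton (cell θ0 t))
  have hin : ∀ t, ∫ t', κ (t, t') ∂μ ≤ 1 := by
    intro t
    by_cases ht : β ≤ cm μ θ0 t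
    · have hpos : 0 < cm μ θ0 t := hβ0.trans_le ht
      have h1 : ∫ t', κ (t, t') ∂μ ≤
          ∫ t', Set.indicator {t' | cell θ0 t' = cell θ0 t} (fun _ => 1 / cm μ θ0 t) t' ∂μ := by
        refine integral_mono (hκti t) ((integrable_const _).indicator (hcell t)) fun t' => ?_
        by_cases h2 : (t, t') ∈ S
        · have h3 : t' ∈ {t' | cell θ0 t' = cell θ0 t} := h2.1
          simp only
          rw [Set.indicator_of_mem h3, hκ, Set.indicator_of_mem h2]
        · simp only
          rw [hκ, Set.indicator_of_notMem h2]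
          exact Set.indicator_nonneg (fun _ _ => one_div_nonneg.2 (hcm0 _)) _
      refine h1.trans (le_of_eq ?_)
      rw [integral_indicator_const _ (hcell t), smul_eq_mul]
      show cm μ θ0 t * (1 / cm μ θ0 t) = 1
      field_simp
    · have h1 : ∀ t', κ (t, t') = 0 := fun t' => by
        rw [hκ, Set.indicator_of_notMem]
        exact fun h2 => ht h2.2.2
      simp only [h1, integral_zero]
      exact zero_le_one
  refine ⟨κ, 1 / β, θ, by positivity, hθp, hκm, hκ0, hκC, ?_, hin, ?_, ?_⟩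
  · intro p hp
    by_contra h
    apply hp
    rw [hκ, Set.indicator_of_notMem]
    exact fun h2 => h h2.2.1
  · -- the total mass
    have hnear : ∀ t, MeasurableSet {t' : ℝ | |t - t'| ≤ θ} := fun t =>
      measurableSet_le (measurable_const.sub measurable_id).abs measurable_const
    have hA : MeasurableSet {t | cm μ θ0 t < β} := measurableSet_lt (cm_meas θ0) measurable_const
    have h1 : ∀ t, 1 - ∫ t', κ (t, t') ∂μ ≤
        Set.indicator {t | cm μ θ0 t < β} (fun _ => (1 : ℝ)) t +
          1 / β * μ.real {t' : ℝ | |t - t'| ≤ θ} := by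
      intro t
      by_cases ht : cm μ θ0 t < β
      · have ht' : t ∈ {t | cm μ θ0 t < β} := ht
        rw [Set.indicator_of_mem ht']
        have h2 : 0 ≤ ∫ t', κ (t, t') ∂μ := integral_nonneg fun _ => hκ0 _
        have h3 : 0 ≤ 1 / β * μ.real {t' : ℝ | |t - t'| ≤ θ} := by positivity
        linarith
      · have ht' : t ∉ {t | cm μ θ0 t < β} := ht
        rw [Set.indicator_of_notMem ht', zero_add]
        push Not at ht
        have hpos : 0 < cm μ θ0 t := hβ0.trans_le ht
        have h2 : ∫ t', Set.indicator {t' | cell θ0 t' = cell θ0 t}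
            (fun _ => 1 / cm μ θ0 t) t' ∂μ = 1 := by
          rw [integral_indicator_const _ (hcell t), smul_eq_mul]
          show cm μ θ0 t * (1 / cm μ θ0 t) = 1
          field_simp
        have h3 : ∫ t', Set.indicator {t' : ℝ | |t - t'| ≤ θ} (fun _ => 1 / β) t' ∂μ =
            1 / β * μ.real {t' : ℝ | |t - t'| ≤ θ} := by
          rw [integral_indicator_const _ (hnear t), smul_eq_mul, mul_comm]
        have h8 : ∫ t', Set.indicator {t' | cell θ0 t' = cell θ0 t}
            (fun _ => 1 / cm μ θ0 t) t' ∂μ ≤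
            ∫ t', Set.indicator {t' : ℝ | |t - t'| ≤ θ} (fun _ => 1 / β) t' ∂μ +
              ∫ t', κ (t, t') ∂μ := by
          rw [← integral_add ((integrable_const _).indicator (hnear t)) (hκti t)]
          refine integral_mono ((integrable_const _).indicator (hcell t))
            (((integrable_const _).indicator (hnear t)).add (hκti t)) fun t' => ?_
          simp only
          by_cases h4 : t' ∈ {t' | cell θ0 t' = cell θ0 t}
          · rw [Set.indicator_of_mem h4]
            by_cases h5 : t' ∈ {t' : ℝ | |t - t'| ≤ θ}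
            · rw [Set.indicator_of_mem h5]
              have := one_div_le_one_div_of_le hβ0 ht
              have := hκ0 (t, t')
              linarith
            · rw [Set.indicator_of_notMem h5, zero_add]
              have h6 : (t, t') ∈ S := by
                refine ⟨h4, ?_, ht⟩
                have h7 : ¬ |t - t'| ≤ θ := h5
                exact (not_le.1 h7).le
              rw [hκ, Set.indicator_of_mem h6]
          · rw [Set.indicator_of_notMem h4]
            exact add_nonneg (Set.indicator_nonneg (fun _ _ => by positivity) _) (hκ0 _)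
        rw [h2, h3] at h8
        linarith
    have hnm : Measurable fun t => μ.real {t' : ℝ | |t - t'| ≤ θ} :=
      (measurable_measure_prodMk_left (near_meas θ)).ennreal_toReal
    have hni : Integrable (fun t => μ.real {t' : ℝ | |t - t'| ≤ θ}) μ :=
      Integrable.of_bound hnm.aestronglyMeasurable 1
        (Eventually.of_forall fun t => by
          rw [Real.norm_eq_abs, abs_of_nonneg measureReal_nonneg]
          exact measureReal_le_one)
    have h2 : ∫ t, μ.real {t' : ℝ | |t - t'| ≤ θ} ∂μ = rho μ θ := by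
      unfold rho
      have h3 := integral_prod (μ := μ) (ν := μ)
        (Set.indicator {p : ℝ × ℝ | |p.1 - p.2| ≤ θ} (fun _ => (1 : ℝ)))
        ((integrable_const _).indicator (near_meas θ))
      rw [integral_indicator_const _ (near_meas θ), smul_eq_mul, mul_one] at h3
      rw [h3]
      refine integral_congr_ae (Eventually.of_forall fun t => ?_)
      simp only
      have h4 : ∀ t', Set.indicator {p : ℝ × ℝ | |p.1 - p.2| ≤ θ} (fun _ => (1 : ℝ)) (t, t') =
          Set.indicator {t' : ℝ | |t - t'| ≤ θ} (fun _ => (1 : ℝ)) t' := fun t' => rfl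
      have h5 : MeasurableSet {t' : ℝ | |t - t'| ≤ θ} :=
        measurableSet_le (measurable_const.sub measurable_id).abs measurable_const
      simp only [h4]
      rw [integral_indicator_const _ h5, smul_eq_mul, mul_one]
    have hki : Integrable (fun t => ∫ t', κ (t, t') ∂μ) μ := hκi.integral_prod_left
    have h3 : ∫ t, (1 - ∫ t', κ (t, t') ∂μ) ∂μ ≤
        ∫ t, (Set.indicator {t | cm μ θ0 t < β} (fun _ => (1 : ℝ)) t +
          1 / β * μ.real {t' : ℝ | |t - t'| ≤ θ}) ∂μ :=
      integral_mono ((integrable_const _).sub hki)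
        (((integrable_const _).indicator hA).add (hni.const_mul _)) h1
    rw [integral_sub (integrable_const _) hki, integral_const, probReal_univ, one_smul,
      integral_add ((integrable_const _).indicator hA) (hni.const_mul _),
      integral_indicator_const _ hA, smul_eq_mul, mul_one, integral_const_mul, h2,
      ← integral_prod _ hκi] at h3
    have h4 : 1 / β * rho μ θ ≤ ε / 2 := by
      rw [one_div, inv_mul_le_iff₀ hβ0]
      exact hθ.le
    linarith
  · intro c
    have hB := Btw_meas c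
    have hAm : MeasurableSet {t : ℝ | |t - c| ≤ δ / 2} :=
      measurableSet_le (measurable_id.sub measurable_const).abs measurable_const
    have hAp : MeasurableSet {p : ℝ × ℝ | |p.1 - c| ≤ δ / 2} :=
      measurableSet_le (measurable_fst.sub measurable_const).abs measurable_const
    have h1 : ∫ p, Set.indicator {p : ℝ × ℝ | Btw c p} κ p ∂(μ.prod μ) ≤
        ∫ p, Set.indicator {p : ℝ × ℝ | |p.1 - c| ≤ δ / 2} κ p ∂(μ.prod μ) := by
      refine integral_mono (hκi.indicator hB) (hκi.indicator hAp) fun p => ?_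
      by_cases h2 : p ∈ {p : ℝ × ℝ | Btw c p}
      · rw [Set.indicator_of_mem h2]
        by_cases h3 : p ∈ S
        · have h4 : p ∈ {p : ℝ × ℝ | |p.1 - c| ≤ δ / 2} :=
            (Btw_abs h2).trans (cell_near hθ00 h3.1.symm)
          rw [Set.indicator_of_mem h4]
        · have h5 : κ p = 0 := by rw [hκ, Set.indicator_of_notMem h3]
          rw [h5]
          exact Set.indicator_nonneg (fun _ _ => hκ0 _) _
      · rw [Set.indicator_of_notMem h2]
        exact Set.indicator_nonneg (fun _ _ => hκ0 _) _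
    refine h1.trans ?_
    rw [integral_prod _ (hκi.indicator hAp)]
    have h2 : ∫ t, ∫ t', Set.indicator {p : ℝ × ℝ | |p.1 - c| ≤ δ / 2} κ (t, t') ∂μ ∂μ ≤
        ∫ t, Set.indicator {t : ℝ | |t - c| ≤ δ / 2} (fun _ => (1 : ℝ)) t ∂μ := by
      refine integral_mono (hκi.indicator hAp).integral_prod_left
        ((integrable_const _).indicator hAm) fun t => ?_
      simp only
      by_cases h3 : t ∈ {t : ℝ | |t - c| ≤ δ / 2}
      · rw [Set.indicator_of_mem h3]
        refine le_trans (le_of_eq ?_) (hin t)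
        refine integral_congr_ae (Eventually.of_forall fun t' => ?_)
        have h4 : (t, t') ∈ {p : ℝ × ℝ | |p.1 - c| ≤ δ / 2} := h3
        simp only
        rw [Set.indicator_of_mem h4]
      · rw [Set.indicator_of_notMem h3]
        have h5 : ∀ t', Set.indicator {p : ℝ × ℝ | |p.1 - c| ≤ δ / 2} κ (t, t') = 0 := fun t' => by
          have h4 : (t, t') ∉ {p : ℝ × ℝ | |p.1 - c| ≤ δ / 2} := h3
          rw [Set.indicator_of_notMem h4]
        simp only [h5, integral_zero]
        exact le_rfl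
    refine h2.trans ?_
    rw [integral_indicator_const _ hAm, smul_eq_mul, mul_one]
    exact ball_le hε hδ c

end Pool.Agent.K3h93.EF
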