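import Pool.Agent.K3h93.EF.Sys
import Pool.Agent.K3h93.EF.Ker
import Pool.Agent.K3h93.EA.Fin

/-!
# From differences of energies to the spins at one bond
-/

set_option autoImplicit false
set_option linter.unusedSectionVars false

open MeasureTheory Measure Filter Topology

namespace Pool.Agent.K3h93.EF

open Pool.Agent.K3h93.EA

variable {μ : Measure ℝ} [IsProbabilityMeasure μ]

/-- one coupling is changed -/
noncomputable def upd (e : E) (J : E → ℝ) (t : ℝ) : E → ℝ := Function.update J e t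

lemma upd_self (e : E) (J : E → ℝ) (t : ℝ) : upd e J t e = t := Function.update_self _ _ _

lemma upd_ne {e e' : E} (h : e' ≠ e) (J : E → ℝ) (t : ℝ) : upd e J t e' = J e' :=
  Function.update_of_ne h _ _

lemma upd_upd (e : E) (J : E → ℝ) (t t' : ℝ) : upd e (upd e J t) t' = upd e J t' :=
  Function.update_idem _ _ _

lemma upd_meas (e : E) : Measurable fun q : (E → ℝ) × ℝ => upd e q.1 q.2 := by
  refine measurable_pi_lambda _ fun e' => ?_
  by_cases h : e' = e
  · subst h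
    simp only [upd_self]
    fun_prop
  · simp only [upd_ne h]
    fun_prop

lemma patch_upd (e : E) (J y : E → ℝ) : patch ({e} : Set E) J y = upd e J (y e) := by
  funext e'
  by_cases h : e' = e
  · subst h
    rw [patch_mem (Set.mem_singleton _), upd_self]
  · rw [patch_not (fun h' => h (Set.mem_singleton_iff.1 h')), upd_ne h]

lemma upd_law (e : E) : MeasurePreserving (fun q : (E → ℝ) × ℝ => upd e q.1 q.2)
    ((infinitePi fun _ : E => μ).prod μ) (infinitePi fun _ : E => μ) := by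
  refine ⟨upd_meas e, ?_⟩
  set P := infinitePi fun _ : E => μ with hP
  have h1 : MeasurePreserving (Prod.map id (Function.eval e) : (E → ℝ) × (E → ℝ) → (E → ℝ) × ℝ)
      (P.prod P) (P.prod μ) :=
    (MeasurePreserving.id P).prod (measurePreserving_eval_infinitePi (fun _ : E => μ) e)
  have h2 : MeasurePreserving (fun p : (E → ℝ) × (E → ℝ) => (sw ({e} : Set E) p).1)
      (P.prod P) P := measurePreserving_fst.comp (sw_law μ ({e} : Set E))
  have h3 : (fun p : (E → ℝ) × (E → ℝ) => (sw ({e} : Set E) p).1) =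
      (fun q : (E → ℝ) × ℝ => upd e q.1 q.2) ∘ (Prod.map id (Function.eval e)) := by
    funext p
    exact patch_upd e p.1 p.2
  rw [← h1.map_eq, map_map (upd_meas e) h1.measurable, ← h3]
  exact h2.map_eq

/-- the law of `(J, (t, t'))` -/
noncomputable def TT (μ : Measure ℝ) : Measure ((E → ℝ) × (ℝ × ℝ)) :=
  (infinitePi fun _ : E => μ).prod (μ.prod μ)

instance : IsProbabilityMeasure (TT μ) := by unfold TT; infer_instance

lemma TT_bdd {f : (E → ℝ) × (ℝ × ℝ) → ℝ} (hf : Measurable f) {C : ℝ} (hC : ∀ x, |f x| ≤ C) :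
    Integrable f (TT μ) :=
  Integrable.of_bound hf.aestronglyMeasurable C
    (Eventually.of_forall fun x => by rw [Real.norm_eq_abs]; exact hC x)

lemma up3_law (e : E) : MeasurePreserving
    (fun p : (E → ℝ) × (ℝ × ℝ) => (upd e p.1 p.2.1, p.2.2)) (TT μ)
    ((infinitePi fun _ : E => μ).prod μ) := by
  have h1 : MeasurePreserving (MeasurableEquiv.prodAssoc (α := E → ℝ) (β := ℝ) (γ := ℝ))
      (((infinitePi fun _ : E => μ).prod μ).prod μ) (TT μ) :=
    measurePreserving_prodAssoc _ _ _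
  exact ((upd_law e).prod (MeasurePreserving.id μ)).comp h1.symm

lemma up1_law (e : E) : MeasurePreserving (fun p : (E → ℝ) × (ℝ × ℝ) => upd e p.1 p.2.1) (TT μ)
    (infinitePi fun _ : E => μ) := measurePreserving_fst.comp (up3_law e)

lemma sw2_law : MeasurePreserving (fun p : (E → ℝ) × (ℝ × ℝ) => (p.1, (p.2.2, p.2.1)))
    (TT μ) (TT μ) :=
  (MeasurePreserving.id _).prod measurePreserving_swap

lemma up2_law (e : E) : MeasurePreserving (fun p : (E → ℝ) × (ℝ × ℝ) => upd e p.1 p.2.2) (TT μ)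
    (infinitePi fun _ : E => μ) := (up1_law e).comp sw2_law

/-- the local function -/
noncomputable def gt (μ : Measure ℝ) (e : E) (φ : (E → ℝ) → ℝ) (χ : ℝ × ℝ → ℝ) (J : E → ℝ) : ℝ :=
  ∫ t, (φ J * χ (J e, t) - φ (upd e J t) * χ (t, J e)) ∂μ

variable {e : E} {φ : (E → ℝ) → ℝ} {χ : ℝ × ℝ → ℝ} {D : ℝ}

lemma gt_meas1 (hφ : Measurable φ) (hχ : Measurable χ) (e : E) :
    Measurable fun q : (E → ℝ) × ℝ => φ q.1 * χ (q.1 e, q.2) - φ (upd e q.1 q.2) * χ (q.2, q.1 e) := by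
  have h1 : Measurable fun q : (E → ℝ) × ℝ => (q.1 e, q.2) := by fun_prop
  have h2 : Measurable fun q : (E → ℝ) × ℝ => (q.2, q.1 e) := by fun_prop
  exact ((hφ.comp measurable_fst).mul (hχ.comp h1)).sub
    ((hφ.comp (upd_meas e)).mul (hχ.comp h2))

lemma gt_meas (hφ : Measurable φ) (hχ : Measurable χ) (e : E) : Measurable (gt μ e φ χ) := by
  unfold gt
  exact ((gt_meas1 hφ hχ e).stronglyMeasurable.integral_prod_right).measurable

lemma gt_le (hφ1 : ∀ J, |φ J| ≤ 1) (hD : ∀ p, |χ p| ≤ D) (J : E → ℝ) :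
    |gt μ e φ χ J| ≤ 2 * D := by
  unfold gt
  have h1 : ∀ t, |φ J * χ (J e, t) - φ (upd e J t) * χ (t, J e)| ≤ 2 * D := by
    intro t
    refine (abs_sub _ _).trans ?_
    rw [abs_mul, abs_mul]
    have := hφ1 J
    have := hφ1 (upd e J t)
    have := hD (J e, t)
    have := hD (t, J e)
    nlinarith [abs_nonneg (φ J), abs_nonneg (φ (upd e J t)), abs_nonneg (χ (J e, t)),
      abs_nonneg (χ (t, J e))]
  have := norm_integral_le_of_norm_le_const (μ := μ)
    (f := fun t => φ J * χ (J e, t) - φ (upd e J t) * χ (t, J e)) (C := 2 * D)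
    (Eventually.of_forall fun x => by rw [Real.norm_eq_abs]; exact h1 _)
  rwa [probReal_univ, mul_one, Real.norm_eq_abs] at this

lemma gt_dep {b : Set E} (hφ : Dep b φ) (he : e ∈ b) : Dep b (gt μ e φ χ) := by
  intro J J' hJ
  unfold gt
  have h1 : φ J = φ J' := hφ _ _ hJ
  have h2 : ∀ t, φ (upd e J t) = φ (upd e J' t) := fun t => by
    refine hφ _ _ fun e' he' => ?_
    by_cases h : e' = e
    · subst h; rw [upd_self, upd_self]
    · rw [upd_ne h, upd_ne h]; exact hJ e' he'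
  simp only [h1, h2, hJ e he]

/-- representation of differences by a local function -/
lemma gt_repr (hφ : Measurable φ) (hφ1 : ∀ J, |φ J| ≤ 1) (hχ : Measurable χ)
    (hD : ∀ p, |χ p| ≤ D) {Ψ : (E → ℝ) → ℝ} (hΨm : Measurable Ψ)
    (hΨ : Integrable Ψ (infinitePi fun _ : E => μ)) (e : E) :
    ∫ p, φ (upd e p.1 p.2.1) * χ p.2 * (Ψ (upd e p.1 p.2.1) - Ψ (upd e p.1 p.2.2)) ∂(TT μ) =
      ∫ J, gt μ e φ χ J * Ψ J ∂(infinitePi fun _ : E => μ) := by
  set P := infinitePi fun _ : E => μ with hP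
  have m1 : Measurable fun p : (E → ℝ) × (ℝ × ℝ) => φ (upd e p.1 p.2.1) * χ p.2 :=
    (hφ.comp (up1_law (μ := μ) e).measurable).mul (hχ.comp measurable_snd)
  have b1 : ∀ p : (E → ℝ) × (ℝ × ℝ), |φ (upd e p.1 p.2.1) * χ p.2| ≤ D := fun p => by
    rw [abs_mul]
    have := hφ1 (upd e p.1 p.2.1)
    have := hD p.2
    nlinarith [abs_nonneg (φ (upd e p.1 p.2.1)), abs_nonneg (χ p.2)]
  have i1 : Integrable (fun p : (E → ℝ) × (ℝ × ℝ) => Ψ (upd e p.1 p.2.1)) (TT μ) :=
    (up1_law e).integrable_comp_of_integrable hΨ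
  have i2 : Integrable (fun p : (E → ℝ) × (ℝ × ℝ) => Ψ (upd e p.1 p.2.2)) (TT μ) :=
    (up2_law e).integrable_comp_of_integrable hΨ
  have j1 := bi m1 b1 i1
  have j2 := bi m1 b1 i2
  have e1 : ∫ p, φ (upd e p.1 p.2.1) * χ p.2 * Ψ (upd e p.1 p.2.2) ∂(TT μ) =
      ∫ p, φ (upd e p.1 p.2.2) * χ (p.2.2, p.2.1) * Ψ (upd e p.1 p.2.1) ∂(TT μ) := by
    have m2 : Measurable fun p : (E → ℝ) × (ℝ × ℝ) =>
        φ (upd e p.1 p.2.1) * χ p.2 * Ψ (upd e p.1 p.2.2) :=
      m1.mul (hΨm.comp (up2_law (μ := μ) e).measurable)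
    exact (mp_int (sw2_law (μ := μ)) m2).symm
  have j3 : Integrable (fun p : (E → ℝ) × (ℝ × ℝ) =>
      φ (upd e p.1 p.2.2) * χ (p.2.2, p.2.1) * Ψ (upd e p.1 p.2.1)) (TT μ) :=
    (sw2_law (μ := μ)).integrable_comp_of_integrable j2
  have e2 : ∫ p, φ (upd e p.1 p.2.1) * χ p.2 * (Ψ (upd e p.1 p.2.1) - Ψ (upd e p.1 p.2.2))
      ∂(TT μ) = ∫ p, (φ (upd e p.1 p.2.1) * χ p.2 - φ (upd e p.1 p.2.2) * χ (p.2.2, p.2.1)) *
        Ψ (upd e p.1 p.2.1) ∂(TT μ) := by
    simp only [mul_sub, sub_mul]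
    rw [integral_sub j1 j2, e1, ← integral_sub j1 j3]
  rw [e2]
  have m3 : Measurable fun q : (E → ℝ) × ℝ =>
      (φ q.1 * χ (q.1 e, q.2) - φ (upd e q.1 q.2) * χ (q.2, q.1 e)) * Ψ q.1 :=
    (gt_meas1 hφ hχ e).mul (hΨm.comp measurable_fst)
  have b3 : ∀ q : (E → ℝ) × ℝ,
      |φ q.1 * χ (q.1 e, q.2) - φ (upd e q.1 q.2) * χ (q.2, q.1 e)| ≤ 2 * D := by
    intro q
    refine (abs_sub _ _).trans ?_
    rw [abs_mul, abs_mul]
    have := hφ1 q.1
    have := hφ1 (upd e q.1 q.2)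
    have := hD (q.1 e, q.2)
    have := hD (q.2, q.1 e)
    nlinarith [abs_nonneg (φ q.1), abs_nonneg (φ (upd e q.1 q.2)), abs_nonneg (χ (q.1 e, q.2)),
      abs_nonneg (χ (q.2, q.1 e))]
  have i3 : Integrable (fun q : (E → ℝ) × ℝ =>
      (φ q.1 * χ (q.1 e, q.2) - φ (upd e q.1 q.2) * χ (q.2, q.1 e)) * Ψ q.1) (P.prod μ) :=
    bi (gt_meas1 hφ hχ e) b3 (hΨ.comp_fst _)
  have e3 := mp_int (up3_law (μ := μ) e) m3
  have e4 : ∀ p : (E → ℝ) × (ℝ × ℝ),
      (φ (upd e p.1 p.2.1) * χ p.2 - φ (upd e p.1 p.2.2) * χ (p.2.2, p.2.1)) *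
        Ψ (upd e p.1 p.2.1) =
      (φ (upd e p.1 p.2.1) * χ (upd e p.1 p.2.1 e, p.2.2) -
        φ (upd e (upd e p.1 p.2.1) p.2.2) * χ (p.2.2, upd e p.1 p.2.1 e)) *
        Ψ (upd e p.1 p.2.1) := by
    intro p
    rw [upd_self, upd_upd]
  simp only [e4]
  rw [e3, integral_prod _ i3]
  refine integral_congr_ae (Eventually.of_forall fun J => ?_)
  simp only
  rw [integral_mul_const]
  rfl

section bridge

/-- the kernel has mass nearly one -/
lemma ker_mass {κ : ℝ × ℝ → ℝ} {C ε : ℝ} (hκm : Measurable κ) (hκ0 : ∀ p, 0 ≤ κ p)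
    (hκC : ∀ p, κ p ≤ C) (hin : ∀ t, ∫ t', κ (t, t') ∂μ ≤ 1) (hε : 1 - ε ≤ ∫ p, κ p ∂(μ.prod μ))
    {u : ℝ → ℝ} (hu : Measurable u) (hu1 : ∀ t, |u t| ≤ 1) :
    |∫ p : ℝ × ℝ, u p.1 ∂(μ.prod μ) - ∫ p : ℝ × ℝ, u p.1 * κ p ∂(μ.prod μ)| ≤ ε := by
  have hκi : Integrable κ (μ.prod μ) :=
    Integrable.of_bound hκm.aestronglyMeasurable C
      (Eventually.of_forall fun p => by
        rw [Real.norm_eq_abs, abs_of_nonneg (hκ0 p)]; exact hκC p)
  have iu : Integrable (fun p : ℝ × ℝ => u p.1) (μ.prod μ) :=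
    Integrable.of_bound (hu.comp measurable_fst).aestronglyMeasurable 1
      (Eventually.of_forall fun p => by rw [Real.norm_eq_abs]; exact hu1 _)
  have iuκ : Integrable (fun p : ℝ × ℝ => u p.1 * κ p) (μ.prod μ) :=
    bi (hu.comp measurable_fst) (fun p => hu1 p.1) hκi
  have iS : Integrable (fun p : ℝ × ℝ => u p.1 - u p.1 * κ p) (μ.prod μ) := iu.sub iuκ
  rw [← integral_sub iu iuκ, integral_prod _ iS]
  have h1 : ∀ t, |∫ t', (u t - u t * κ (t, t')) ∂μ| ≤ 1 - ∫ t', κ (t, t') ∂μ := by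
    intro t
    have iκ : Integrable (fun t' => κ (t, t')) μ :=
      Integrable.of_bound (hκm.comp (measurable_const.prodMk measurable_id)).aestronglyMeasurable C
        (Eventually.of_forall fun p => by
          rw [Real.norm_eq_abs, abs_of_nonneg (hκ0 _)]; exact hκC _)
    rw [integral_sub (integrable_const _) (iκ.const_mul _), integral_const, probReal_univ,
      one_smul, integral_const_mul]
    have e1 : u t - u t * ∫ t', κ (t, t') ∂μ = u t * (1 - ∫ t', κ (t, t') ∂μ) := by ring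
    rw [e1, abs_mul, abs_of_nonneg (sub_nonneg.2 (hin t))]
    have := hu1 t
    nlinarith [hin t, abs_nonneg (u t)]
  refine abs_integral_le_integral_abs.trans ?_
  have h2 : ∫ t, |∫ t', (u t - u t * κ (t, t')) ∂μ| ∂μ ≤ ∫ t, (1 - ∫ t', κ (t, t') ∂μ) ∂μ := by
    refine integral_mono (iS.integral_prod_left).abs
      ((integrable_const _).sub hκi.integral_prod_left) h1
  refine h2.trans ?_
  rw [integral_sub (integrable_const _) hκi.integral_prod_left, integral_const, probReal_univ,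
    one_smul, ← integral_prod _ hκi]
  linarith

/-- the threshold -/
lemma threshold {Φ : (E → ℝ) → ℝ} {B : (E → ℝ) → ℝ → Prop}
    (hsub : ∀ J c t, B J c → Φ J + (t - J e) * c ≤ Φ (upd e J t)) (J : E → ℝ) :
    ∃ c : ℝ, ∀ t t', B (upd e J t) (-1) → B (upd e J t') 1 → t ≤ c ∧ c ≤ t' := by
  have hmon : ∀ t t', B (upd e J t) (-1) → B (upd e J t') 1 → t ≤ t' := by
    intro t t' h1 h2
    have a1 := hsub _ _ t' h1
    have a2 := hsub _ _ t h2
    rw [upd_upd, upd_self] at a1 a2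
    linarith
  by_cases h1 : ∃ t, B (upd e J t) (-1)
  · by_cases h2 : ∃ t, B (upd e J t) 1
    · obtain ⟨t1, ht1⟩ := h1
      obtain ⟨t2, ht2⟩ := h2
      refine ⟨sSup {t | B (upd e J t) (-1)}, fun t t' h3 h4 => ⟨?_, ?_⟩⟩
      · exact le_csSup ⟨t2, fun s hs => hmon s t2 hs ht2⟩ h3
      · exact csSup_le ⟨t1, ht1⟩ fun s hs => hmon s t' hs h4
    · exact ⟨0, fun t t' _ h4 => absurd ⟨t', h4⟩ h2⟩
  · exact ⟨0, fun t t' h3 _ => absurd ⟨t, h3⟩ h1⟩

/-- the difference quotient -/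
lemma quot {Φ : (E → ℝ) → ℝ} {B : (E → ℝ) → ℝ → Prop}
    (hB1 : ∀ J c, B J c → c = 1 ∨ c = -1)
    (hsub : ∀ J c t, B J c → Φ J + (t - J e) * c ≤ Φ (upd e J t)) (J : E → ℝ) {c : ℝ}
    (hc : ∀ t t', B (upd e J t) (-1) → B (upd e J t') 1 → t ≤ c ∧ c ≤ t') {t t' a a' : ℝ}
    (ht : t ≠ t') (h : B (upd e J t) a) (h' : B (upd e J t') a') {k : ℝ} (hk : 0 ≤ k) :
    |k * a - k / (t - t') * (Φ (upd e J t) - Φ (upd e J t'))| ≤
      2 * Set.indicator {p : ℝ × ℝ | Btw c p} (fun _ => k) (t, t') := by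
  have a1 := hsub _ _ t' h
  have a2 := hsub _ _ t h'
  rw [upd_upd, upd_self] at a1 a2
  set D := Φ (upd e J t) - Φ (upd e J t') with hD
  have hd : t - t' ≠ 0 := sub_ne_zero.2 ht
  have b1 : D ≤ (t - t') * a := by rw [hD]; linarith
  have b2 : (t - t') * a' ≤ D := by rw [hD]; linarith
  have e1 : k * a - k / (t - t') * D = k * (a - D / (t - t')) := by
    field_simp
  rw [e1, abs_mul, abs_of_nonneg hk]
  set Q := D / (t - t') with hQ
  have hDQ : D = (t - t') * Q := by rw [hQ]; field_simp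
  rw [hDQ] at b1 b2
  have hind : 0 ≤ Set.indicator {p : ℝ × ℝ | Btw c p} (fun _ => k) (t, t') :=
    Set.indicator_nonneg (fun _ _ => hk) _
  rcases hB1 _ _ h with rfl | rfl <;> rcases hB1 _ _ h' with rfl | rfl
  · have h3 : Q = 1 := by
      have h4 : (t - t') * Q = (t - t') * 1 := le_antisymm b1 b2
      exact mul_left_cancel₀ hd h4
    rw [h3]; simpa using hind
  · have h5 := hc _ _ h' h
    have hlt : 0 < t - t' := lt_of_le_of_ne (by linarith [h5.1, h5.2]) (Ne.symm hd)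
    have c1 := le_of_mul_le_mul_left b1 hlt
    have c2 := le_of_mul_le_mul_left b2 hlt
    have hm : (t, t') ∈ {p : ℝ × ℝ | Btw c p} := Or.inr h5
    rw [Set.indicator_of_mem hm]
    have : |1 - Q| ≤ 2 := by rw [abs_le]; constructor <;> linarith
    nlinarith
  · have h5 := hc _ _ h h'
    have hlt : 0 < t' - t := lt_of_le_of_ne (by linarith [h5.1, h5.2])
      (fun h6 => hd (by linarith))
    have c1 : -1 ≤ Q := by nlinarith
    have c2 : Q ≤ 1 := by nlinarith
    have hm : (t, t') ∈ {p : ℝ × ℝ | Btw c p} := Or.inl h5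
    rw [Set.indicator_of_mem hm]
    have : |-1 - Q| ≤ 2 := by rw [abs_le]; constructor <;> linarith
    nlinarith
  · have h3 : Q = -1 := by
      have h4 : (t - t') * Q = (t - t') * (-1) := le_antisymm b1 b2
      exact mul_left_cancel₀ hd h4
    rw [h3]; simpa using hind

/-- **Bridge.** -/
lemma bridge {Φ : (E → ℝ) → ℝ} (hΦm : Measurable Φ) {B : (E → ℝ) → ℝ → Prop}
    (hB1 : ∀ J c, B J c → c = 1 ∨ c = -1) (hex : ∀ J, ∃ c, B J c)
    (hsub : ∀ J c t, B J c → Φ J + (t - J e) * c ≤ Φ (upd e J t))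
    {f : (E → ℝ) → ℝ} (hf : Measurable f) (hf1 : ∀ J, |f J| ≤ 1)
    (hfB : ∀ᵐ J ∂(infinitePi fun _ : E => μ), B J (f J))
    (hφ : Measurable φ) (hφ1 : ∀ J, |φ J| ≤ 1)
    {κ : ℝ × ℝ → ℝ} {C θ ε : ℝ} (hθ : 0 < θ) (hκm : Measurable κ)
    (hκ0 : ∀ p, 0 ≤ κ p) (hκC : ∀ p, κ p ≤ C) (hκθ : ∀ p, κ p ≠ 0 → θ ≤ |p.1 - p.2|)
    (hin : ∀ t, ∫ t', κ (t, t') ∂μ ≤ 1) (hε : 1 - ε ≤ ∫ p, κ p ∂(μ.prod μ))
    (hbt : ∀ c, ∫ p, Set.indicator {p : ℝ × ℝ | Btw c p} κ p ∂(μ.prod μ) ≤ ε) :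
    |∫ J, φ J * f J ∂(infinitePi fun _ : E => μ) -
      ∫ p, φ (upd e p.1 p.2.1) * (κ p.2 / (p.2.1 - p.2.2)) *
        (Φ (upd e p.1 p.2.1) - Φ (upd e p.1 p.2.2)) ∂(TT μ)| ≤ 3 * ε := by
  set P := infinitePi fun _ : E => μ with hP
  have hC0 : 0 ≤ C := (hκ0 (0, 0)).trans (hκC _)
  have hκi : Integrable κ (μ.prod μ) :=
    Integrable.of_bound hκm.aestronglyMeasurable C
      (Eventually.of_forall fun p => by
        rw [Real.norm_eq_abs, abs_of_nonneg (hκ0 p)]; exact hκC p)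
  have mu1 := (up1_law (μ := μ) e).measurable
  have mu2 := (up2_law (μ := μ) e).measurable
  -- the Lipschitz bound
  have hlip : ∀ J t t', |Φ (upd e J t) - Φ (upd e J t')| ≤ |t - t'| := by
    have h1 : ∀ J t t', Φ (upd e J t) - Φ (upd e J t') ≤ |t - t'| := by
      intro J t t'
      obtain ⟨c, hc⟩ := hex (upd e J t)
      have a1 := hsub _ _ t' hc
      rw [upd_upd, upd_self] at a1
      rcases hB1 _ _ hc with rfl | rfl
      · have := le_abs_self (t - t'); linarith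
      · have := neg_abs_le (t - t'); linarith
    intro J t t'
    rw [abs_le]
    have h2 := h1 J t t'
    have h3 := h1 J t' t
    rw [abs_sub_comm] at h3
    constructor <;> linarith
  have hq : ∀ (J : E → ℝ) (p : ℝ × ℝ), |κ p / (p.1 - p.2) *
      (Φ (upd e J p.1) - Φ (upd e J p.2))| ≤ κ p := by
    intro J p
    by_cases h0 : κ p = 0
    · rw [h0]; simp
    · have h1 : 0 < |p.1 - p.2| := hθ.trans_le (hκθ p h0)
      rw [abs_mul, abs_div, abs_of_nonneg (hκ0 p), div_mul_eq_mul_div, div_le_iff₀ h1]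
      exact mul_le_mul_of_nonneg_left (hlip J _ _) (hκ0 p)
  -- measurability
  have mφ : Measurable fun p : (E → ℝ) × (ℝ × ℝ) => φ (upd e p.1 p.2.1) := hφ.comp mu1
  have mf : Measurable fun p : (E → ℝ) × (ℝ × ℝ) => f (upd e p.1 p.2.1) := hf.comp mu1
  have mκ : Measurable fun p : (E → ℝ) × (ℝ × ℝ) => κ p.2 := hκm.comp measurable_snd
  have mq : Measurable fun p : (E → ℝ) × (ℝ × ℝ) => κ p.2 / (p.2.1 - p.2.2) *
      (Φ (upd e p.1 p.2.1) - Φ (upd e p.1 p.2.2)) :=
    (mκ.div (by fun_prop)).mul ((hΦm.comp mu1).sub (hΦm.comp mu2))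
  have i1 : Integrable (fun p : (E → ℝ) × (ℝ × ℝ) => φ (upd e p.1 p.2.1) * f (upd e p.1 p.2.1))
      (TT μ) := TT_bdd (mφ.mul mf) (C := 1) fun p => by
        rw [abs_mul]
        have := hφ1 (upd e p.1 p.2.1)
        have := hf1 (upd e p.1 p.2.1)
        nlinarith [abs_nonneg (φ (upd e p.1 p.2.1)), abs_nonneg (f (upd e p.1 p.2.1))]
  have i2 : Integrable (fun p : (E → ℝ) × (ℝ × ℝ) =>
      φ (upd e p.1 p.2.1) * f (upd e p.1 p.2.1) * κ p.2) (TT μ) :=
    TT_bdd ((mφ.mul mf).mul mκ) (C := C) fun p => by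
        rw [abs_mul, abs_mul, abs_of_nonneg (hκ0 p.2)]
        have h1 := hφ1 (upd e p.1 p.2.1)
        have h2 := hf1 (upd e p.1 p.2.1)
        have h3 : |φ (upd e p.1 p.2.1)| * |f (upd e p.1 p.2.1)| ≤ 1 := by
          nlinarith [abs_nonneg (φ (upd e p.1 p.2.1)), abs_nonneg (f (upd e p.1 p.2.1))]
        have h4 := hκC p.2
        have h5 := hκ0 p.2
        nlinarith
  have i3 : Integrable (fun p : (E → ℝ) × (ℝ × ℝ) =>
      φ (upd e p.1 p.2.1) * (κ p.2 / (p.2.1 - p.2.2) *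
        (Φ (upd e p.1 p.2.1) - Φ (upd e p.1 p.2.2)))) (TT μ) :=
    TT_bdd (mφ.mul mq) (C := C) fun p => by
      rw [abs_mul]
      have h1 := hφ1 (upd e p.1 p.2.1)
      have h2 := (hq p.1 p.2).trans (hκC p.2)
      have h3 := abs_nonneg (κ p.2 / (p.2.1 - p.2.2) *
        (Φ (upd e p.1 p.2.1) - Φ (upd e p.1 p.2.2)))
      nlinarith [abs_nonneg (φ (upd e p.1 p.2.1))]
  -- step 1
  have s1 : ∫ J, φ J * f J ∂P = ∫ p, φ (upd e p.1 p.2.1) * f (upd e p.1 p.2.1) ∂(TT μ) :=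
    (mp_int (up1_law (μ := μ) e) (hφ.mul hf)).symm
  -- step 2
  have s2 : |∫ p, φ (upd e p.1 p.2.1) * f (upd e p.1 p.2.1) ∂(TT μ) -
      ∫ p, φ (upd e p.1 p.2.1) * f (upd e p.1 p.2.1) * κ p.2 ∂(TT μ)| ≤ ε := by
    unfold TT at i1 i2 ⊢
    rw [integral_prod _ i1, integral_prod _ i2,
      ← integral_sub i1.integral_prod_left i2.integral_prod_left]
    refine abs_integral_le_integral_abs.trans ?_
    have h1 : ∀ J : E → ℝ, |(∫ p : ℝ × ℝ, φ (upd e J p.1) * f (upd e J p.1) ∂(μ.prod μ)) -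
        ∫ p : ℝ × ℝ, φ (upd e J p.1) * f (upd e J p.1) * κ p ∂(μ.prod μ)| ≤ ε := by
      intro J
      have mJ : Measurable fun t => upd e J t :=
        (upd_meas e).comp (measurable_const.prodMk measurable_id)
      exact ker_mass hκm hκ0 hκC hin hε (u := fun t => φ (upd e J t) * f (upd e J t))
        ((hφ.comp mJ).mul (hf.comp mJ)) fun t => by
          rw [abs_mul]
          have := hφ1 (upd e J t)
          have := hf1 (upd e J t)
          nlinarith [abs_nonneg (φ (upd e J t)), abs_nonneg (f (upd e J t))]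
    have h2 := integral_mono
      ((i1.integral_prod_left.sub i2.integral_prod_left).abs) (integrable_const ε) h1
    rw [integral_const, probReal_univ, one_smul] at h2
    exact h2
  -- step 3
  have s3 : |∫ p, φ (upd e p.1 p.2.1) * f (upd e p.1 p.2.1) * κ p.2 ∂(TT μ) -
      ∫ p, φ (upd e p.1 p.2.1) * (κ p.2 / (p.2.1 - p.2.2) *
        (Φ (upd e p.1 p.2.1) - Φ (upd e p.1 p.2.2))) ∂(TT μ)| ≤ 2 * ε := by
    rw [← integral_sub i2 i3]
    refine abs_integral_le_integral_abs.trans ?_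
    have i4 := (i2.sub i3).abs
    have a1 : ∀ᵐ p ∂(TT μ), B (upd e p.1 p.2.1) (f (upd e p.1 p.2.1)) :=
      (up1_law e).quasiMeasurePreserving.ae hfB
    have a2 : ∀ᵐ p ∂(TT μ), B (upd e p.1 p.2.2) (f (upd e p.1 p.2.2)) :=
      (up2_law e).quasiMeasurePreserving.ae hfB
    have a3 := a1.and a2
    unfold TT at i4 a3 ⊢
    have a4 := Measure.ae_ae_of_ae_prod a3
    have i5 := i4.integral_prod_left
    rw [show (∫ p, |φ (upd e p.1 p.2.1) * f (upd e p.1 p.2.1) * κ p.2 -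
        φ (upd e p.1 p.2.1) * (κ p.2 / (p.2.1 - p.2.2) *
          (Φ (upd e p.1 p.2.1) - Φ (upd e p.1 p.2.2)))|
            ∂((infinitePi fun _ : E => μ).prod (μ.prod μ))) = _ from integral_prod _ i4]
    have h1 : ∀ᵐ J ∂P, (∫ p : ℝ × ℝ, |φ (upd e J p.1) * f (upd e J p.1) * κ p -
        φ (upd e J p.1) * (κ p / (p.1 - p.2) *
          (Φ (upd e J p.1) - Φ (upd e J p.2)))| ∂(μ.prod μ)) ≤ 2 * ε := by
      filter_upwards [a4] with J hJ
      obtain ⟨c, hc⟩ := threshold (e := e) hsub J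
      have mJ : Measurable fun t => upd e J t :=
        (upd_meas e).comp (measurable_const.prodMk measurable_id)
      have mJ1 : Measurable fun p : ℝ × ℝ => upd e J p.1 := mJ.comp measurable_fst
      have mJ2 : Measurable fun p : ℝ × ℝ => upd e J p.2 := mJ.comp measurable_snd
      have m4 : Measurable fun p : ℝ × ℝ => φ (upd e J p.1) * f (upd e J p.1) * κ p -
          φ (upd e J p.1) * (κ p / (p.1 - p.2) * (Φ (upd e J p.1) - Φ (upd e J p.2))) :=
        (((hφ.comp mJ1).mul (hf.comp mJ1)).mul hκm).sub ((hφ.comp mJ1).mul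
          ((hκm.div (by fun_prop)).mul ((hΦm.comp mJ1).sub (hΦm.comp mJ2))))
      have b4 : ∀ p : ℝ × ℝ, |φ (upd e J p.1) * f (upd e J p.1) * κ p -
          φ (upd e J p.1) * (κ p / (p.1 - p.2) * (Φ (upd e J p.1) - Φ (upd e J p.2)))| ≤
          C + C := by
        intro p
        refine (abs_sub _ _).trans ?_
        have h1 := hφ1 (upd e J p.1)
        have h2 := hf1 (upd e J p.1)
        have h3 : |φ (upd e J p.1)| * |f (upd e J p.1)| ≤ 1 := by
          nlinarith [abs_nonneg (φ (upd e J p.1)), abs_nonneg (f (upd e J p.1))]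
        have h4 := hκC p
        have h5 := hκ0 p
        have h6 := (hq J p).trans (hκC p)
        have h7 := abs_nonneg (κ p / (p.1 - p.2) * (Φ (upd e J p.1) - Φ (upd e J p.2)))
        rw [abs_mul, abs_mul, abs_mul, abs_of_nonneg h5]
        have h8 : |φ (upd e J p.1)| * |f (upd e J p.1)| * κ p ≤ C := by nlinarith
        have h9 : |φ (upd e J p.1)| * |κ p / (p.1 - p.2) *
          (Φ (upd e J p.1) - Φ (upd e J p.2))| ≤ C := by
          nlinarith [abs_nonneg (φ (upd e J p.1))]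
        linarith
      have i6 : Integrable (fun p : ℝ × ℝ => φ (upd e J p.1) * f (upd e J p.1) * κ p -
          φ (upd e J p.1) * (κ p / (p.1 - p.2) * (Φ (upd e J p.1) - Φ (upd e J p.2))))
          (μ.prod μ) := Integrable.of_bound m4.aestronglyMeasurable (C + C)
            (Eventually.of_forall fun p => by rw [Real.norm_eq_abs]; exact b4 p)
      have h2 : ∫ p : ℝ × ℝ, |φ (upd e J p.1) * f (upd e J p.1) * κ p -
          φ (upd e J p.1) * (κ p / (p.1 - p.2) *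
            (Φ (upd e J p.1) - Φ (upd e J p.2)))| ∂(μ.prod μ) ≤
          ∫ p, 2 * Set.indicator {p : ℝ × ℝ | Btw c p} κ p ∂(μ.prod μ) := by
        refine integral_mono_ae i6.abs ((hκi.indicator (Btw_meas c)).const_mul 2) ?_
        filter_upwards [hJ] with p hp
        by_cases h0 : κ p = 0
        · rw [h0]
          simp only [mul_zero, zero_div, zero_mul, sub_self, abs_zero]
          exact mul_nonneg (by norm_num) (Set.indicator_nonneg (fun _ _ => hκ0 _) _)
        · have ht : p.1 ≠ p.2 := by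
            intro h3
            have h4 := hκθ p h0
            rw [h3, sub_self, abs_zero] at h4
            linarith
          have h3 := quot hB1 hsub J hc ht hp.1 hp.2 (hκ0 p)
          have e1 : φ (upd e J p.1) * f (upd e J p.1) * κ p -
              φ (upd e J p.1) * (κ p / (p.1 - p.2) * (Φ (upd e J p.1) - Φ (upd e J p.2))) =
              φ (upd e J p.1) * (κ p * f (upd e J p.1) -
                κ p / (p.1 - p.2) * (Φ (upd e J p.1) - Φ (upd e J p.2))) := by ring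
          rw [e1, abs_mul]
          have h4 := hφ1 (upd e J p.1)
          have h5 := abs_nonneg (κ p * f (upd e J p.1) -
                κ p / (p.1 - p.2) * (Φ (upd e J p.1) - Φ (upd e J p.2)))
          have h6 : Set.indicator {p : ℝ × ℝ | Btw c p} κ p =
              Set.indicator {p : ℝ × ℝ | Btw c p} (fun _ => κ p) (p.1, p.2) := by
            by_cases hm : p ∈ {p : ℝ × ℝ | Btw c p}
            · have hm' : (p.1, p.2) ∈ {p : ℝ × ℝ | Btw c p} := hm
              rw [Set.indicator_of_mem hm, Set.indicator_of_mem hm']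
            · have hm' : (p.1, p.2) ∉ {p : ℝ × ℝ | Btw c p} := hm
              rw [Set.indicator_of_notMem hm, Set.indicator_of_notMem hm']
          rw [h6]
          nlinarith [abs_nonneg (φ (upd e J p.1))]
      refine h2.trans ?_
      rw [integral_const_mul]
      have := hbt c
      linarith
    have h3 := integral_mono_ae i5 (integrable_const (2 * ε)) h1
    rw [integral_const, probReal_univ, one_smul] at h3
    exact h3
  have e5 : ∫ p, φ (upd e p.1 p.2.1) * (κ p.2 / (p.2.1 - p.2.2)) *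
        (Φ (upd e p.1 p.2.1) - Φ (upd e p.1 p.2.2)) ∂(TT μ) =
      ∫ p, φ (upd e p.1 p.2.1) * (κ p.2 / (p.2.1 - p.2.2) *
        (Φ (upd e p.1 p.2.1) - Φ (upd e p.1 p.2.2))) ∂(TT μ) := by
    simp only [mul_assoc]
  rw [s1, e5]
  have := abs_sub_le (∫ p, φ (upd e p.1 p.2.1) * f (upd e p.1 p.2.1) ∂(TT μ))
    (∫ p, φ (upd e p.1 p.2.1) * f (upd e p.1 p.2.1) * κ p.2 ∂(TT μ))
    (∫ p, φ (upd e p.1 p.2.1) * (κ p.2 / (p.2.1 - p.2.2) *
        (Φ (upd e p.1 p.2.1) - Φ (upd e p.1 p.2.2))) ∂(TT μ))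
  linarith

end bridge

end Pool.Agent.K3h93.EF
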