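import Pool.Agent.K3h93.EA.Dec

/-!
# Conditional expectations by resampling, and decoupling from a product of perturbations
-/

set_option autoImplicit false
set_option linter.unusedSectionVars false

open MeasureTheory Measure Filter Topology

namespace Pool.Agent.K3h93.EF

open Pool.Agent.K3h93.EA

variable {ι : Type*} (μ : Measure ℝ) [IsProbabilityMeasure μ]

/-- the conditional expectation given the coordinates in `I` -/
noncomputable def CE (I : Set ι) (f : (ι → ℝ) → ℝ) (J : ι → ℝ) : ℝ :=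
  ∫ y, f (patch Iᶜ J y) ∂(infinitePi fun _ : ι => μ)

lemma CE_dep (I : Set ι) (f : (ι → ℝ) → ℝ) : Dep I (CE μ I f) := by
  intro J J' h
  unfold CE
  congr 1
  funext y
  congr 1
  funext e
  by_cases he : e ∈ Iᶜ
  · rw [patch_mem he, patch_mem he]
  · rw [patch_not he, patch_not he]
    exact h e (by simpa using he)

variable {f u : (ι → ℝ) → ℝ} {C D : ℝ}

lemma CE_meas (hf : Measurable f) (I : Set ι) : Measurable (CE μ I f) := by
  unfold CE
  have h1 : Measurable fun p : (ι → ℝ) × (ι → ℝ) => f (patch Iᶜ p.1 p.2) :=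
    hf.comp (measurable_patch _)
  exact (h1.stronglyMeasurable.integral_prod_right).measurable

lemma CE_le (hC : ∀ x, |f x| ≤ C) (I : Set ι) (J : ι → ℝ) : |CE μ I f J| ≤ C := by
  unfold CE
  have := norm_integral_le_of_norm_le_const (μ := infinitePi fun _ : ι => μ)
    (f := fun y => f (patch Iᶜ J y)) (C := C)
    (Eventually.of_forall fun x => by rw [Real.norm_eq_abs]; exact hC _)
  rwa [probReal_univ, mul_one, Real.norm_eq_abs] at this

lemma pp_bdd {f : (ι → ℝ) × (ι → ℝ) → ℝ} (hf : Measurable f) {C : ℝ} (hC : ∀ x, |f x| ≤ C) :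
    Integrable f ((infinitePi fun _ : ι => μ).prod (infinitePi fun _ : ι => μ)) :=
  Integrable.of_bound hf.aestronglyMeasurable C
    (Eventually.of_forall fun x => by rw [Real.norm_eq_abs]; exact hC x)

lemma CE_mul (hf : Measurable f) (hC : ∀ x, |f x| ≤ C) (hu : Measurable u)
    (hD : ∀ x, |u x| ≤ D) {I : Set ι} (hd : Dep I u) :
    ∫ J, CE μ I f J * u J ∂(infinitePi fun _ : ι => μ) =
      ∫ J, f J * u J ∂(infinitePi fun _ : ι => μ) := by
  have hC0 : 0 ≤ C := (abs_nonneg _).trans (hC fun _ => 0)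
  have h1 : Measurable fun p : (ι → ℝ) × (ι → ℝ) => f (patch Iᶜ p.1 p.2) * u p.1 :=
    (hf.comp (measurable_patch _)).mul (hu.comp measurable_fst)
  have i1 : Integrable (fun p : (ι → ℝ) × (ι → ℝ) => f (patch Iᶜ p.1 p.2) * u p.1)
      ((infinitePi fun _ : ι => μ).prod (infinitePi fun _ : ι => μ)) :=
    pp_bdd μ h1 (C := C * D) fun x => by
      rw [abs_mul]; exact mul_le_mul (hC _) (hD _) (abs_nonneg _) hC0
  rw [← int_fst μ (fun J => f J * u J), ← sw_int μ Iᶜ (fun p => f p.1 * u p.1)]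
  have e1 : ∀ p : (ι → ℝ) × (ι → ℝ), f (sw Iᶜ p).1 * u (sw Iᶜ p).1 =
      f (patch Iᶜ p.1 p.2) * u p.1 := by
    intro p
    show f (patch Iᶜ p.1 p.2) * u (patch Iᶜ p.1 p.2) = _
    rw [hd.patch_out disjoint_compl_right]
  simp only [e1]
  rw [integral_prod _ i1]
  refine integral_congr_ae (Eventually.of_forall fun J => ?_)
  unfold CE
  exact (integral_mul_const _ _).symm

/-- the energy -/
noncomputable def En (I : Set ι) (f : (ι → ℝ) → ℝ) : ℝ :=
  ∫ J, CE μ I f J ^ 2 ∂(infinitePi fun _ : ι => μ)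

lemma En_nonneg (I : Set ι) : 0 ≤ En μ I f := integral_nonneg fun _ => sq_nonneg _

lemma En_le (hf : Measurable f) (hC : ∀ x, |f x| ≤ C) (I : Set ι) : En μ I f ≤ C ^ 2 := by
  unfold En
  have hC0 : 0 ≤ C := (abs_nonneg _).trans (hC fun _ => 0)
  have hb : ∀ J, CE μ I f J ^ 2 ≤ C ^ 2 := fun J => by
    rw [← sq_abs]; exact pow_le_pow_left₀ (abs_nonneg _) (CE_le μ hC I J) 2
  have i1 : Integrable (fun J => CE μ I f J ^ 2) (infinitePi fun _ : ι => μ) :=
    int_bdd μ ((CE_meas μ hf I).pow_const 2) (C := C ^ 2) fun J => by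
      rw [abs_of_nonneg (sq_nonneg _)]; exact hb J
  have := integral_mono i1 (integrable_const (C ^ 2)) hb
  rwa [integral_const, probReal_univ, one_smul] at this

lemma CE_incr (hf : Measurable f) (hC : ∀ x, |f x| ≤ C) {I I' : Set ι} (h : I ⊆ I') :
    ∫ J, (CE μ I' f J - CE μ I f J) ^ 2 ∂(infinitePi fun _ : ι => μ) =
      En μ I' f - En μ I f := by
  have hC0 : 0 ≤ C := (abs_nonneg _).trans (hC fun _ => 0)
  have m1 := CE_meas μ hf I
  have m2 := CE_meas μ hf I'
  have e1 := CE_mul μ hf hC m1 (CE_le μ hC I) (CE_dep μ I f)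
  have e2 := CE_mul μ hf hC m1 (CE_le μ hC I) (((CE_dep μ I f)).mono h)
  have hb : ∀ (I I' : Set ι) J, |CE μ I' f J * CE μ I f J| ≤ C * C := fun I I' J => by
    rw [abs_mul]
    exact mul_le_mul (CE_le μ hC I' J) (CE_le μ hC I J) (abs_nonneg _) hC0
  have i1 : Integrable (fun J => CE μ I' f J * CE μ I f J) (infinitePi fun _ : ι => μ) :=
    int_bdd μ (m2.mul m1) (hb I I')
  have i2 : Integrable (fun J => CE μ I f J ^ 2) (infinitePi fun _ : ι => μ) :=
    int_bdd μ (m1.pow_const 2) (C := C * C) fun J => by rw [pow_two]; exact hb I I J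
  have i3 : Integrable (fun J => CE μ I' f J ^ 2) (infinitePi fun _ : ι => μ) :=
    int_bdd μ (m2.pow_const 2) (C := C * C) fun J => by rw [pow_two]; exact hb I' I' J
  have e3 : ∀ J, (CE μ I' f J - CE μ I f J) ^ 2 =
      (CE μ I' f J ^ 2 + CE μ I f J ^ 2) - 2 * (CE μ I' f J * CE μ I f J) := fun J => by ring
  simp only [e3]
  have i32 : Integrable (fun J => CE μ I' f J ^ 2 + CE μ I f J ^ 2)
      (infinitePi fun _ : ι => μ) := i3.add i2
  rw [integral_sub i32 (i1.const_mul 2), integral_add i3 i2, integral_const_mul]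
  unfold En
  have e4 : ∫ J, CE μ I' f J * CE μ I f J ∂(infinitePi fun _ : ι => μ) =
      ∫ J, CE μ I f J ^ 2 ∂(infinitePi fun _ : ι => μ) := by
    rw [e2, ← e1]
    refine integral_congr_ae (Eventually.of_forall fun J => ?_)
    simp only
    ring
  rw [e4]
  ring

lemma En_mono (hf : Measurable f) (hC : ∀ x, |f x| ≤ C) {I I' : Set ι} (h : I ⊆ I') :
    En μ I f ≤ En μ I' f := by
  have h1 := CE_incr μ hf hC h
  have h2 : 0 ≤ ∫ J, (CE μ I' f J - CE μ I f J) ^ 2 ∂(infinitePi fun _ : ι => μ) :=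
    integral_nonneg fun _ => sq_nonneg _
  linarith

/-- local approximation of a conditional expectation -/
lemma CE_loc (hf : Measurable f) (hC : ∀ x, |f x| ≤ C) {I I' : Set ι} (h : I ⊆ I') {s : ℝ}
    (hs : 0 < s) :
    ∫ p, |CE μ I' f p.1 - CE μ I' f (patch Iᶜ p.1 p.2)|
      ∂((infinitePi fun _ : ι => μ).prod (infinitePi fun _ : ι => μ)) ≤
      s + 1 / s * (En μ I' f - En μ I f) := by
  set P := infinitePi fun _ : ι => μ with hP
  have m1 := CE_meas μ hf I
  have m2 := CE_meas μ hf I'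
  have hbd : ∀ J, |CE μ I' f J - CE μ I f J| ≤ C + C := fun J =>
    (abs_sub _ _).trans (add_le_add (CE_le μ hC _ _) (CE_le μ hC _ _))
  have iA : Integrable (fun p : (ι → ℝ) × (ι → ℝ) => |CE μ I' f p.1 - CE μ I f p.1|)
      (P.prod P) := pp_bdd μ ((m2.comp measurable_fst).sub (m1.comp measurable_fst)).abs
        (C := C + C) fun p => by rw [abs_abs]; exact hbd _
  have iB : Integrable (fun p : (ι → ℝ) × (ι → ℝ) =>
      |CE μ I' f (patch Iᶜ p.1 p.2) - CE μ I f (patch Iᶜ p.1 p.2)|)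
      (P.prod P) := pp_bdd μ ((m2.comp (measurable_patch _)).sub
        (m1.comp (measurable_patch _))).abs
        (C := C + C) fun p => by rw [abs_abs]; exact hbd _
  have iD : Integrable (fun p : (ι → ℝ) × (ι → ℝ) =>
      |CE μ I' f p.1 - CE μ I' f (patch Iᶜ p.1 p.2)|)
      (P.prod P) := pp_bdd μ ((m2.comp measurable_fst).sub
        (m2.comp (measurable_patch _))).abs
        (C := C + C) fun p => by
          rw [abs_abs]
          exact (abs_sub _ _).trans (add_le_add (CE_le μ hC _ _) (CE_le μ hC _ _))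
  have h1 : ∫ p, |CE μ I' f p.1 - CE μ I' f (patch Iᶜ p.1 p.2)| ∂(P.prod P) ≤
      ∫ p, (|CE μ I' f p.1 - CE μ I f p.1| +
        |CE μ I' f (patch Iᶜ p.1 p.2) - CE μ I f (patch Iᶜ p.1 p.2)|) ∂(P.prod P) := by
    refine integral_mono iD (iA.add iB) fun p => ?_
    simp only
    have e1 : CE μ I f (patch Iᶜ p.1 p.2) = CE μ I f p.1 :=
      (CE_dep μ I f).patch_out disjoint_compl_right _ _
    rw [e1]
    have e2 : CE μ I' f p.1 - CE μ I' f (patch Iᶜ p.1 p.2) =
      (CE μ I' f p.1 - CE μ I f p.1) - (CE μ I' f (patch Iᶜ p.1 p.2) - CE μ I f p.1) := by ring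
    rw [e2]
    exact abs_sub _ _
  have h2 : ∫ p, |CE μ I' f (patch Iᶜ p.1 p.2) - CE μ I f (patch Iᶜ p.1 p.2)| ∂(P.prod P) =
      ∫ p, |CE μ I' f p.1 - CE μ I f p.1| ∂(P.prod P) :=
    sw_int μ Iᶜ (fun p => |CE μ I' f p.1 - CE μ I f p.1|)
  rw [integral_add iA iB, h2, int_fst μ (fun J => |CE μ I' f J - CE μ I f J|)] at h1
  refine h1.trans ?_
  have i4 : Integrable (fun J => |CE μ I' f J - CE μ I f J|) P :=
    int_bdd μ (m2.sub m1).abs (C := C + C) fun p => by rw [abs_abs]; exact hbd _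
  have i5 : Integrable (fun J => (CE μ I' f J - CE μ I f J) ^ 2) P :=
    int_bdd μ ((m2.sub m1).pow_const 2) (C := (C + C) ^ 2) fun p => by
      rw [abs_of_nonneg (sq_nonneg _), ← sq_abs]
      exact pow_le_pow_left₀ (abs_nonneg _) (hbd p) 2
  have h3 : ∫ J, |CE μ I' f J - CE μ I f J| ∂P ≤
      ∫ J, (s / 2 + 1 / (2 * s) * (CE μ I' f J - CE μ I f J) ^ 2) ∂P := by
    refine integral_mono i4 ((integrable_const _).add (i5.const_mul _)) fun J => ?_
    simp only
    set d := CE μ I' f J - CE μ I f J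
    rw [← sq_abs d]
    have h5 : 0 ≤ (s - |d|) ^ 2 := sq_nonneg _
    have h6 : s / 2 + 1 / (2 * s) * |d| ^ 2 - |d| = (s - |d|) ^ 2 / (2 * s) := by
      field_simp
      ring
    have h7 : 0 ≤ (s - |d|) ^ 2 / (2 * s) := by positivity
    linarith
  rw [integral_add (integrable_const _) (i5.const_mul _), integral_const, probReal_univ, one_smul,
    integral_const_mul, CE_incr μ hf hC h] at h3
  have h4 : 1 / s * (En μ I' f - En μ I f) = 2 * (1 / (2 * s) * (En μ I' f - En μ I f)) := by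
    field_simp
  linarith

section dec

variable {κ : Type*} {b : κ → Set ι} {G : κ → (ι → ℝ) → ℝ} {h : ℝ}

lemma MM_snd (F : (ι → ℝ) × (ι → ℝ) → ℝ) :
    ∫ p, F p.2 ∂(MM μ (dirac () : Measure Unit) ι) =
      ∫ r, F r ∂((infinitePi fun _ : ι => μ).prod (infinitePi fun _ : ι => μ)) := by
  unfold MM
  have := integral_prod_mul (μ := (dirac () : Measure Unit).prod (infinitePi fun _ : ι => μ))
    (ν := (infinitePi fun _ : ι => μ).prod (infinitePi fun _ : ι => μ)) (fun _ => (1 : ℝ)) F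
  simpa using this

/-- decoupling, for functions of the couplings only -/
lemma decouple1 (hb : Pairwise fun j k => Disjoint (b j) (b k)) (hd : ∀ k, Dep (b k) (G k))
    (hm : ∀ k, Measurable (G k)) (hG1 : ∀ k J, |G k J| ≤ 1)
    (hz : ∀ k, ∫ x, G k x ∂(infinitePi fun _ : ι => μ) = 0) (h0 : 0 ≤ h) [DecidableEq κ]
    (hf : Measurable f) {R : ℝ} (hR : ∀ J, |f J| ≤ R) {I : Set ι} {K K1 K2 : Finset κ}
    (hK : K = K1 ∪ K2) (hdd : Disjoint K1 K2) (h1 : ∀ k ∈ K1, b k ⊆ I)
    (h2 : ∀ k ∈ K2, Disjoint (b k) I) {t : ℝ} (ht : 0 < t) :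
    |∫ J, Zf h G K J * f J ∂(infinitePi fun _ : ι => μ) -
      ∫ J, f J ∂(infinitePi fun _ : ι => μ)| ≤
      t / 2 * (1 + h ^ 2) ^ K.card +
        R / t * ∫ p, |f p.1 - f (patch Iᶜ p.1 p.2)|
          ∂((infinitePi fun _ : ι => μ).prod (infinitePi fun _ : ι => μ)) +
        ((1 + h) ^ K1.card - 1) * R := by
  have hP : Pert μ b (fun k (_ : Unit) => G k) :=
    ⟨hb, fun k _ => hd k, fun k => (hm k).comp measurable_snd, fun k _ => hG1 k, fun k _ => hz k⟩
  have h3 := decouple μ (dirac () : Measure Unit) hP h0 (Θ := fun _ J _ => f J)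
    (hf.comp (f := fun q : Unit × ((ι → ℝ) × (ι → ℝ)) => q.2.1) (by fun_prop))
    (fun _ J _ => hR J) (I := I) hK hdd h1 h2 ht
  have e1 := MM_snd μ (fun r : (ι → ℝ) × (ι → ℝ) => Zf h G K r.1 * f r.1)
  have e2 := MM_snd μ (fun r : (ι → ℝ) × (ι → ℝ) => f r.1)
  have e3 := MM_snd μ (fun r : (ι → ℝ) × (ι → ℝ) => |f r.1 - f (patch Iᶜ r.1 r.2)|)
  simp only at e1 e2 e3
  unfold ZZ at h3
  rw [e1, e2, e3, int_fst μ (fun J => Zf h G K J * f J), int_fst μ f] at h3
  exact h3

end dec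

end Pool.Agent.K3h93.EF
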