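import Mathlib

/-!
# Representation of a bounded functional on integrable functions
-/

set_option autoImplicit false

open MeasureTheory Measure Filter Topology

namespace Pool.Agent.K3h93.EF

variable {α : Type*} [MeasurableSpace α] {P : Measure α} [IsProbabilityMeasure P]

lemma l1_le_l2 (f : Lp ℝ 2 P) : ∫ x, |f x| ∂P ≤ ‖f‖ := by
  have h1 : MemLp f 2 P := Lp.memLp f
  have h2 : eLpNorm f 1 P ≤ eLpNorm f 2 P :=
    eLpNorm_le_eLpNorm_of_exponent_le (by norm_num) h1.1
  have h3 : ∫ x, |f x| ∂P = (eLpNorm f 1 P).toReal := by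
    rw [eLpNorm_one_eq_lintegral_enorm, ← integral_norm_eq_lintegral_enorm h1.1]
    rfl
  rw [h3, Lp.norm_def]
  exact ENNReal.toReal_mono h1.2.ne h2

lemma riesz (T : (α → ℝ) → ℝ)
    (hadd : ∀ φ ψ : α → ℝ, Integrable φ P → Integrable ψ P → T (fun x => φ x + ψ x) = T φ + T ψ)
    (hsmul : ∀ (c : ℝ) (φ : α → ℝ), Integrable φ P → T (fun x => c * φ x) = c * T φ)
    (hb : ∀ φ : α → ℝ, Integrable φ P → |T φ| ≤ ∫ x, |φ x| ∂P) :
    ∃ m : α → ℝ, Measurable m ∧ (∀ x, |m x| ≤ 1) ∧
      ∀ φ : α → ℝ, Integrable φ P → T φ = ∫ x, φ x * m x ∂P := by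
  have hsub : ∀ φ ψ : α → ℝ, Integrable φ P → Integrable ψ P →
      |T φ - T ψ| ≤ ∫ x, |φ x - ψ x| ∂P := by
    intro φ ψ hφ hψ
    have h1 := hadd φ (fun x => (-1) * ψ x) hφ (hψ.const_mul _)
    rw [hsmul _ _ hψ] at h1
    have h2 : T φ - T ψ = T (fun x => φ x + (-1) * ψ x) := by rw [h1]; ring
    rw [h2]
    refine (hb _ (hφ.add (hψ.const_mul _))).trans (le_of_eq ?_)
    refine integral_congr_ae (Eventually.of_forall fun x => ?_)
    show |φ x + (-1) * ψ x| = |φ x - ψ x|
    congr 1
    ring
  have hcongr : ∀ φ ψ : α → ℝ, Integrable φ P → φ =ᵐ[P] ψ → T φ = T ψ := by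
    intro φ ψ hφ h
    have h1 := hsub φ ψ hφ (hφ.congr h)
    have h2 : ∫ x, |φ x - ψ x| ∂P = 0 := by
      rw [← integral_zero α ℝ (μ := P)]
      refine integral_congr_ae ?_
      filter_upwards [h] with x hx
      rw [hx, sub_self, abs_zero]
    rw [h2] at h1
    exact sub_eq_zero.1 (abs_nonpos_iff.1 h1)
  have hint : ∀ f : Lp ℝ 2 P, Integrable f P := fun f => (Lp.memLp f).integrable (by norm_num)
  set ℓ : Lp ℝ 2 P →ₗ[ℝ] ℝ :=
    { toFun := fun f => T f
      map_add' := fun f g => by
        rw [← hadd _ _ (hint f) (hint g)]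
        exact hcongr _ _ (hint _) (Lp.coeFn_add f g)
      map_smul' := fun c f => by
        rw [RingHom.id_apply, smul_eq_mul, ← hsmul _ _ (hint f)]
        exact hcongr _ _ (hint _) (Lp.coeFn_smul c f) } with hℓ
  set ℓc : Lp ℝ 2 P →L[ℝ] ℝ := ℓ.mkContinuous 1 (fun f => by
    rw [one_mul, Real.norm_eq_abs]
    exact (hb _ (hint f)).trans (l1_le_l2 f)) with hℓc
  set m0 : Lp ℝ 2 P := (InnerProductSpace.toDual ℝ (Lp ℝ 2 P)).symm ℓc with hm0
  have hm0s : ∀ f : Lp ℝ 2 P, T f = ∫ x, f x * m0 x ∂P := by
    intro f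
    have h1 : inner ℝ m0 f = ℓc f := InnerProductSpace.toDual_symm_apply
    have h2 : ℓc f = T f := rfl
    rw [← h2, ← h1, MeasureTheory.L2.inner_def]
    refine integral_congr_ae (Eventually.of_forall fun x => ?_)
    simp [inner]
  set m1 : α → ℝ := (Lp.aestronglyMeasurable m0).mk m0 with hm1
  have hm1m : Measurable m1 := (Lp.aestronglyMeasurable m0).stronglyMeasurable_mk.measurable
  have hm1e : m0 =ᵐ[P] m1 := (Lp.aestronglyMeasurable m0).ae_eq_mk
  have hm1i : Integrable m1 P := (hint m0).congr hm1e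
  -- bounded functions
  have hbd : ∀ (ψ : α → ℝ) (C : ℝ), Measurable ψ → (∀ x, |ψ x| ≤ C) →
      T ψ = ∫ x, ψ x * m1 x ∂P := by
    intro ψ C hψ hC
    have h1 : MemLp ψ 2 P := MemLp.of_bound hψ.aestronglyMeasurable C
      (Eventually.of_forall fun x => by rw [Real.norm_eq_abs]; exact hC x)
    have h2 := hm0s (h1.toLp ψ)
    have h3 := h1.coeFn_toLp
    rw [hcongr _ _ (hint _) h3] at h2
    rw [h2]
    refine integral_congr_ae ?_
    filter_upwards [h3, hm1e] with x hx hx'
    rw [hx, hx']
  -- the bound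
  have hone : ∀ s : ℝ, (s = 1 ∨ s = -1) → ∀ᵐ x ∂P, s * m1 x ≤ 1 := by
    intro s hs
    have hs2 : s * s = 1 := by rcases hs with rfl | rfl <;> norm_num
    have hsa : |s| = 1 := by rcases hs with rfl | rfl <;> norm_num
    set A : Set α := {x | 1 < s * m1 x} with hA
    have hAm : MeasurableSet A := measurableSet_lt measurable_const (measurable_const.mul hm1m)
    have h1 := hbd (A.indicator fun _ => s) 1 (measurable_const.indicator hAm) fun x => by
      by_cases hx : x ∈ A
      · rw [Set.indicator_of_mem hx, hsa]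
      · rw [Set.indicator_of_notMem hx, abs_zero]; exact zero_le_one
    have h2 := hb (A.indicator fun _ => s) ((integrable_const s).indicator hAm)
    have h3 : ∀ x, |A.indicator (fun _ => s) x| = A.indicator (fun _ => (1 : ℝ)) x := fun x => by
      by_cases hx : x ∈ A
      · rw [Set.indicator_of_mem hx, Set.indicator_of_mem hx, hsa]
      · rw [Set.indicator_of_notMem hx, Set.indicator_of_notMem hx, abs_zero]
    simp only [h3] at h2
    rw [h1] at h2
    have h4 := (le_abs_self _).trans h2
    have i1 : Integrable (fun x => A.indicator (fun _ => s) x * m1 x) P := by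
      refine hm1i.bdd_mul (measurable_const.indicator hAm).aestronglyMeasurable (c := 1)
        (Eventually.of_forall fun x => ?_)
      rw [Real.norm_eq_abs, h3]
      exact Set.indicator_le_self' (fun _ _ => zero_le_one) x
    have i2 : Integrable (A.indicator (fun _ => (1 : ℝ))) P := (integrable_const _).indicator hAm
    have h5 : ∫ x, (A.indicator (fun _ => s) x * m1 x - A.indicator (fun _ => (1 : ℝ)) x) ∂P ≤ 0 := by
      rw [integral_sub i1 i2]
      linarith
    have h6 : ∀ x, 0 ≤ A.indicator (fun _ => s) x * m1 x - A.indicator (fun _ => (1 : ℝ)) x := by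
      intro x
      by_cases hx : x ∈ A
      · rw [Set.indicator_of_mem hx, Set.indicator_of_mem hx]
        have : 1 < s * m1 x := hx
        linarith
      · rw [Set.indicator_of_notMem hx, Set.indicator_of_notMem hx]
        simp
    have h7 := le_antisymm h5 (integral_nonneg h6)
    rw [integral_eq_zero_iff_of_nonneg h6 (i1.sub i2)] at h7
    filter_upwards [h7] with x hx
    by_contra hcon
    have hxA : x ∈ A := not_le.1 hcon
    simp only [Pi.zero_apply] at hx
    rw [Set.indicator_of_mem hxA, Set.indicator_of_mem hxA] at hx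
    have : 1 < s * m1 x := hxA
    linarith
  set m : α → ℝ := fun x => max (-1) (min 1 (m1 x)) with hm
  have hmm : Measurable m := measurable_const.max (measurable_const.min hm1m)
  have hmb : ∀ x, |m x| ≤ 1 := fun x => by
    rw [abs_le]
    exact ⟨le_max_left _ _, max_le (by norm_num) (min_le_left _ _)⟩
  have hme : m1 =ᵐ[P] m := by
    filter_upwards [hone 1 (Or.inl rfl), hone (-1) (Or.inr rfl)] with x h1 h2
    simp only [hm]
    rw [min_eq_right (by linarith), max_eq_right (by linarith)]
  refine ⟨m, hmm, hmb, fun φ hφ => ?_⟩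
  have key : ∀ ε : ℝ, 0 < ε → |T φ - ∫ x, φ x * m x ∂P| ≤ 2 * ε := by
    intro ε hε
    obtain ⟨g, hg, hgi⟩ : ∃ g : α → ℝ, (∃ C : ℝ, Measurable g ∧ ∀ x, |g x| ≤ C) ∧
        ∫ x, |φ x - g x| ∂P ≤ ε := by
      -- truncation
      set φ1 := hφ.1.mk φ with hφ1
      have hφ1m : Measurable φ1 := hφ.1.stronglyMeasurable_mk.measurable
      have hφ1e : φ =ᵐ[P] φ1 := hφ.1.ae_eq_mk
      have hφ1i : Integrable φ1 P := hφ.congr hφ1e
      have h1 : Tendsto (fun n : ℕ => ∫ x, |φ1 x - max (-(n : ℝ)) (min n (φ1 x))| ∂P) atTop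
          (𝓝 (∫ _x : α, (0 : ℝ) ∂P)) := by
        refine tendsto_integral_of_dominated_convergence (fun x => |φ1 x|) ?_ hφ1i.abs ?_ ?_
        · intro n
          exact (hφ1m.sub (measurable_const.max
            (measurable_const.min hφ1m))).abs.aestronglyMeasurable
        · intro n
          refine Eventually.of_forall fun x => ?_
          have hn : (0 : ℝ) ≤ n := Nat.cast_nonneg n
          rw [Real.norm_eq_abs, abs_abs]
          rcases le_total (φ1 x) (-(n : ℝ)) with h | h
          · rw [min_eq_right (by linarith), max_eq_left h, abs_of_nonpos (by linarith),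
              abs_of_nonpos (by linarith)]
            linarith
          · rcases le_total (φ1 x) n with h' | h'
            · rw [min_eq_right h', max_eq_right h, sub_self, abs_zero]
              exact abs_nonneg _
            · rw [min_eq_left h', max_eq_right (by linarith), abs_of_nonneg (by linarith),
                abs_of_nonneg (by linarith)]
              linarith
        · refine Eventually.of_forall fun x => ?_
          refine tendsto_const_nhds.congr' ?_
          obtain ⟨n0, hn0⟩ := exists_nat_ge |φ1 x|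
          filter_upwards [eventually_ge_atTop n0] with n hn
          have h2 : (n0 : ℝ) ≤ n := by exact_mod_cast hn
          have h3 := abs_le.1 (hn0.trans h2)
          rw [min_eq_right h3.2, max_eq_right h3.1, sub_self, abs_zero]
      rw [integral_zero] at h1
      obtain ⟨n, hn⟩ := (h1.eventually (gt_mem_nhds hε)).exists
      refine ⟨fun x => max (-(n : ℝ)) (min n (φ1 x)), ⟨n, measurable_const.max
        (measurable_const.min hφ1m), fun x => ?_⟩, ?_⟩
      · rw [abs_le]
        exact ⟨le_max_left _ _, max_le (by have : (0 : ℝ) ≤ n := Nat.cast_nonneg n; linarith)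
          (min_le_left _ _)⟩
      · refine le_trans (le_of_eq ?_) hn.le
        refine integral_congr_ae ?_
        filter_upwards [hφ1e] with x hx
        rw [hx]
    obtain ⟨C, hgm, hgC⟩ := hg
    have hgI : Integrable g P := Integrable.of_bound hgm.aestronglyMeasurable C
      (Eventually.of_forall fun x => by rw [Real.norm_eq_abs]; exact hgC x)
    have h1 := hsub φ g hφ hgI
    have h2 : T g = ∫ x, g x * m x ∂P := by
      rw [hbd g C hgm hgC]
      refine integral_congr_ae ?_
      filter_upwards [hme] with x hx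
      rw [hx]
    have hmn : ∀ᵐ x ∂P, ‖m x‖ ≤ 1 := Eventually.of_forall fun x => by
      rw [Real.norm_eq_abs]; exact hmb x
    have j1 : Integrable (fun x => φ x * m x) P :=
      hφ.mul_bdd (c := 1) hmm.aestronglyMeasurable hmn
    have j2 : Integrable (fun x => g x * m x) P :=
      hgI.mul_bdd (c := 1) hmm.aestronglyMeasurable hmn
    have h3 : |∫ x, g x * m x ∂P - ∫ x, φ x * m x ∂P| ≤ ε := by
      rw [← integral_sub j2 j1]
      refine abs_integral_le_integral_abs.trans (le_trans ?_ hgi)
      refine integral_mono (j2.sub j1).abs (hφ.sub hgI).abs fun x => ?_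
      simp only
      rw [← sub_mul, abs_mul, abs_sub_comm]
      have := hmb x
      nlinarith [abs_nonneg (φ x - g x)]
    rw [h2] at h1
    have h4 := abs_sub_le (T φ) (∫ x, g x * m x ∂P) (∫ x, φ x * m x ∂P)
    linarith
  by_contra hne
  have hpos : 0 < |T φ - ∫ x, φ x * m x ∂P| := abs_pos.2 (sub_ne_zero.2 hne)
  have := key (|T φ - ∫ x, φ x * m x ∂P| / 4) (by linarith)
  linarith

end Pool.Agent.K3h93.EF
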