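import Pool.Agent.K3h93.EF.Seq
import Pool.Agent.K3h93.EF.Riesz

/-!
# The universal limit
-/

set_option autoImplicit false
set_option linter.unusedSectionVars false

open MeasureTheory Measure Filter Topology

namespace Pool.Agent.K3h93.EF

open Pool.Agent.K3h93.EA

variable {μ : Measure ℝ} [IsProbabilityMeasure μ]

lemma PP_bdd (hμ : Integrable (fun x : ℝ => x) μ) (hat : ∀ x, μ {x} = 0) (e : E)
    {φ : (E → ℝ) → ℝ} (hφ : Measurable φ) {C : ℝ} (hC : ∀ J, |φ J| ≤ C) : PP μ e φ := by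
  have hC0 : 0 ≤ C := (abs_nonneg _).trans (hC fun _ => 0)
  refine PP_approx (int_bdd μ hφ hC) fun ε hε => ?_
  have h1 := (approx μ hφ hC (I := fun M => ((bM M : Finset E) : Set E)) bM_exhaust).eventually
    (gt_mem_nhds hε)
  obtain ⟨M, hM, hM1, hMe⟩ := (h1.and ((eventually_ge_atTop 1).and (bM_exhaust e))).exists
  set φ' := CE μ ((bM M : Finset E) : Set E) φ with hφ'
  have hm : Measurable φ' := CE_meas μ hφ _
  have hb : ∀ J, |φ' J| ≤ C := CE_le μ hC _
  refine ⟨φ', ?_, int_bdd μ hm hb, ?_⟩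
  · have hLo : Lo (bM M) (fun J => φ' J / (C + 1)) := by
      refine ⟨hm.div_const _, fun J => ?_, fun J J' hJ => ?_⟩
      · rw [abs_div, abs_of_pos (by linarith : (0 : ℝ) < C + 1), div_le_one (by linarith)]
        linarith [hb J]
      · rw [show φ' J = φ' J' from CE_dep μ _ φ J J' hJ]
    have h2 := PP_smul (PP_of_PU (PU_bM hM1 hμ hat (Finset.mem_coe.1 hMe)) hLo) (C + 1)
    have h3 : (fun J => (C + 1) * (φ' J / (C + 1))) = φ' := by
      funext J
      have : C + 1 ≠ 0 := by linarith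
      field_simp
    rwa [h3] at h2
  · refine le_trans ?_ hM.le
    set P := infinitePi fun _ : E => μ with hP
    have mp : Measurable fun p : (E → ℝ) × (E → ℝ) =>
        φ (patch ((bM M : Finset E) : Set E)ᶜ p.1 p.2) := hφ.comp (measurable_patch _)
    have i1 : Integrable (fun p : (E → ℝ) × (E → ℝ) =>
        |φ p.1 - φ (patch ((bM M : Finset E) : Set E)ᶜ p.1 p.2)|) (P.prod P) :=
      pp_bdd μ ((hφ.comp measurable_fst).sub mp).abs (C := C + C) fun p => by
        rw [abs_abs]; exact (abs_sub _ _).trans (add_le_add (hC _) (hC _))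
    rw [integral_prod _ i1]
    refine integral_mono (int_bdd μ (hφ.sub hm).abs (C := C + C) fun J => by
      rw [abs_abs]; exact (abs_sub _ _).trans (add_le_add (hC _) (hb _)))
      i1.integral_prod_left fun J => ?_
    simp only
    have mJ : Measurable fun y => φ (patch ((bM M : Finset E) : Set E)ᶜ J y) :=
      mp.comp (measurable_const.prodMk measurable_id)
    have iJ : Integrable (fun y => φ (patch ((bM M : Finset E) : Set E)ᶜ J y)) P :=
      int_bdd μ mJ fun y => hC _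
    have e1 : φ J - φ' J =
        ∫ y, (φ J - φ (patch ((bM M : Finset E) : Set E)ᶜ J y)) ∂P := by
      rw [integral_sub (integrable_const _) iJ, integral_const, probReal_univ, one_smul]
      rfl
    rw [e1]
    exact abs_integral_le_integral_abs

lemma PP_int (hμ : Integrable (fun x : ℝ => x) μ) (hat : ∀ x, μ {x} = 0) (e : E)
    {φ : (E → ℝ) → ℝ} (hφ : Integrable φ (infinitePi fun _ : E => μ)) : PP μ e φ := by
  refine PP_approx hφ fun ε hε => ?_
  obtain ⟨g, hg, hgi⟩ := hφ.exists_boundedContinuous_integral_sub_le (ε := ε) hε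
  refine ⟨g, PP_bdd hμ hat e g.continuous.measurable (C := ‖g‖) fun J => ?_, hgi, ?_⟩
  · rw [← Real.norm_eq_abs]; exact g.norm_coe_le_norm J
  · simpa [Real.norm_eq_abs] using hg

lemma PL_le {φ : (E → ℝ) → ℝ} (hφ : Integrable φ (infinitePi fun _ : E => μ))
    {σ : (E → ℝ) → V → ℝ} (hσ : Measurable σ)
    (hs : ∀ᵐ J ∂(infinitePi fun _ : E => μ), Spin (σ J)) (e : E) (a : V) :
    |PL μ φ e σ a| ≤ ∫ J, |φ J| ∂(infinitePi fun _ : E => μ) := by
  have h1 := PL_diff (φ' := fun _ => (0 : ℝ)) hφ (integrable_zero _ _ _) hσ hs e a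
  have h2 : PL μ (fun _ => (0 : ℝ)) e σ a = 0 := by
    unfold PL
    simp
  rw [h2] at h1
  simpa using h1

lemma pos_dp (L m : ℕ) {f : V → ℝ} {B : ℝ} (h0 : ∀ a, 0 ≤ f a) (hB : ∀ a, f a ≤ B) :
    ∑ a ∈ pos L, f a ≤ ∑ a ∈ dp L m, f a + B * (4 * m * L) := by
  classical
  have hB0 : 0 ≤ B := (h0 0).trans (hB 0)
  have hsub : dp L m ⊆ pos L := by
    intro a ha
    rw [mem_dp] at ha
    rw [mem_pos]
    intro i
    have := ha i
    have hm : (0 : ℤ) ≤ m := Nat.cast_nonneg m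
    constructor <;> linarith [this.1, this.2]
  rw [← Finset.sum_sdiff hsub, add_comm]
  have h1 : ∑ a ∈ pos L \ dp L m, f a ≤ B * (4 * m * L) := by
    refine (Finset.sum_le_card_nsmul _ _ B fun a _ => hB a).trans ?_
    rw [nsmul_eq_mul, mul_comm]
    refine mul_le_mul_of_nonneg_left ?_ hB0
    have h2 : (pos L \ dp L m).card + (dp L m).card = L ^ 2 := by
      rw [Finset.card_sdiff_add_card_eq_card hsub, card_pos]
    have h3 : (dp L m).card = (L - 2 * m) ^ 2 := by
      unfold dp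
      rw [Fintype.card_piFinset]
      simp only [Int.card_Ico, Finset.prod_const, Finset.card_univ, Fintype.card_fin]
      congr 1
      omega
    rw [h3] at h2
    have h4 : (pos L \ dp L m).card ≤ 4 * m * L := by
      rcases le_total (2 * m) L with h | h
      · obtain ⟨d, rfl⟩ := Nat.exists_eq_add_of_le h
        have : 2 * m + d - 2 * m = d := by omega
        rw [this] at h2
        nlinarith
      · have h5 : L - 2 * m = 0 := by omega
        rw [h5] at h2
        nlinarith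
    exact_mod_cast h4
  linarith

lemma tend_of {F : ℕ → V → ℝ} {B : ℝ} (h0 : ∀ L a, 0 ≤ F L a) (hB : ∀ L a, F L a ≤ B)
    (h : ∀ ε : ℝ, 0 < ε → ∃ m : ℕ, ∀ L : ℕ, ∑ a ∈ dp L m, F L a ≤ ε * (L : ℝ) ^ 2) :
    Tendsto (fun L : ℕ => (∑ a ∈ pos L, F L a) / (L : ℝ) ^ 2) atTop (𝓝 0) := by
  have hB0 : 0 ≤ B := (h0 0 0).trans (hB 0 0)
  rw [Metric.tendsto_atTop]
  intro ε hε
  obtain ⟨m, hm⟩ := h (ε / 4) (by linarith)
  obtain ⟨L0, hL0⟩ := exists_nat_gt (B * (4 * m) / (ε / 4))
  refine ⟨L0 + 1, fun L hL => ?_⟩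
  have hL1 : (0 : ℝ) < L := by
    have : 0 < L := by omega
    exact_mod_cast this
  have hLL : (L0 : ℝ) ≤ L := by exact_mod_cast (by omega : L0 ≤ L)
  have h1 : 0 ≤ (∑ a ∈ pos L, F L a) / (L : ℝ) ^ 2 :=
    div_nonneg (Finset.sum_nonneg fun a _ => h0 L a) (sq_nonneg _)
  rw [Real.dist_eq, sub_zero, abs_of_nonneg h1, div_lt_iff₀ (by positivity)]
  have h2 := pos_dp L m (f := F L) (h0 L) (hB L)
  have h3 := hm L
  have h4 : B * (4 * m) ≤ ε / 4 * L := by
    rw [div_lt_iff₀ (by linarith)] at hL0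
    nlinarith
  have h5 : B * (4 * m * L) ≤ ε / 4 * (L : ℝ) ^ 2 := by
    have := mul_le_mul_of_nonneg_right h4 hL1.le
    nlinarith
  have h6 : 0 < (L : ℝ) ^ 2 := by positivity
  nlinarith

/-- the averages -/
noncomputable def Av (μ : Measure ℝ) (φ : (E → ℝ) → ℝ) (e : E) (σ : ℕ → (E → ℝ) → V → ℝ)
    (L : ℕ) : ℝ := (∑ a ∈ pos L, PL μ φ e (σ L) a) / (L : ℝ) ^ 2

variable {w : ℕ → (E → ℝ) → (V → ℝ) → ℝ} {σ : ℕ → (E → ℝ) → V → ℝ}

lemma Sq.spin (hs : Sq μ w σ) (L : ℕ) : ∀ᵐ J ∂(infinitePi fun _ : E => μ), Spin (σ L J) :=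
  (hs.gs L).mono fun _ hJ => hJ.1

/-- the averages are close to the constant -/
lemma Av_close (hs : Sq μ w σ) {φ : (E → ℝ) → ℝ}
    (hφ : Integrable φ (infinitePi fun _ : E => μ)) {e : E} {ε c : ℝ} {m : ℕ} (hε : 0 < ε)
    (h : ∀ L : ℕ, ∑ a ∈ dp L m, |PL μ φ e (σ L) a - c| ≤ ε * (L : ℝ) ^ 2) :
    ∀ᶠ L in atTop, |Av μ φ e σ L - c| ≤ 2 * ε := by
  set B := ∫ J, |φ J| ∂(infinitePi fun _ : E => μ) + |c| with hB
  have hB0 : 0 ≤ B := add_nonneg (integral_nonneg fun _ => abs_nonneg _) (abs_nonneg _)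
  obtain ⟨L0, hL0⟩ := exists_nat_gt (B * (4 * m) / ε)
  filter_upwards [eventually_ge_atTop (L0 + 1)] with L hL
  have hL1 : (0 : ℝ) < L := by
    have : 0 < L := by omega
    exact_mod_cast this
  have hLL : (L0 : ℝ) ≤ L := by exact_mod_cast (by omega : L0 ≤ L)
  have hL2 : (0 : ℝ) < (L : ℝ) ^ 2 := by positivity
  have h2 := pos_dp L m (f := fun a => |PL μ φ e (σ L) a - c|) (B := B) (fun a => abs_nonneg _)
    (fun a => (abs_sub _ _).trans (add_le_add (PL_le hφ (hs.meas L) (hs.spin L) e a) le_rfl))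
  have h3 := h L
  have h4 : B * (4 * m) ≤ ε * L := by
    rw [div_lt_iff₀ hε] at hL0
    nlinarith
  have h5 : B * (4 * m * L) ≤ ε * (L : ℝ) ^ 2 := by
    have := mul_le_mul_of_nonneg_right h4 hL1.le
    nlinarith
  have e1 : Av μ φ e σ L - c = (∑ a ∈ pos L, (PL μ φ e (σ L) a - c)) / (L : ℝ) ^ 2 := by
    unfold Av
    rw [Finset.sum_sub_distrib, Finset.sum_const, card_pos, nsmul_eq_mul]
    push_cast
    field_simp
  rw [e1, abs_div, abs_of_pos hL2, div_le_iff₀ hL2]
  refine (Finset.abs_sum_le_sum_abs _ _).trans ?_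
  linarith

lemma exists_T (hμ : Integrable (fun x : ℝ => x) μ) (hat : ∀ x, μ {x} = 0) (hs : Sq μ w σ)
    (e : E) {φ : (E → ℝ) → ℝ} (hφ : Integrable φ (infinitePi fun _ : E => μ)) :
    ∃ T, Tendsto (Av μ φ e σ) atTop (𝓝 T) := by
  refine cauchySeq_tendsto_of_complete (Metric.cauchySeq_iff.2 fun ε hε => ?_)
  obtain ⟨c, m, h⟩ := PP_int hμ hat e hφ (ε / 8) (by linarith)
  obtain ⟨L0, hL0⟩ := eventually_atTop.1 (Av_close hs hφ (by linarith) (h w σ hs))
  refine ⟨L0, fun L hL L' hL' => ?_⟩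
  have h1 := hL0 L hL
  have h2 := hL0 L' hL'
  rw [Real.dist_eq]
  have h3 := abs_sub_le (Av μ φ e σ L) c (Av μ φ e σ L')
  rw [abs_sub_comm c] at h3
  linarith

/-- **The universal limit.** -/
theorem universal (hμ : Integrable (fun x : ℝ => x) μ) (hat : ∀ x, μ {x} = 0) (e : E) :
    ∃ m : (E → ℝ) → ℝ, Measurable m ∧ (∀ J, |m J| ≤ 1) ∧ ∀ w σ, Sq μ w σ →
      ∀ (F : Finset E) (φ : ℕ → V → (E → ℝ) → ℝ), (∀ L a, Lo F (φ L a)) →
      Tendsto (fun L : ℕ => (∑ a ∈ pos L, |PL μ (φ L a) e (σ L) a -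
        ∫ J, φ L a J * m J ∂(infinitePi fun _ : E => μ)|) / (L : ℝ) ^ 2) atTop (𝓝 0) := by
  set P := infinitePi fun _ : E => μ with hP
  by_cases hex : ∃ w σ, Sq μ w σ
  swap
  · exact ⟨fun _ => 0, measurable_const, fun J => by simp, fun w σ h => absurd ⟨w, σ, h⟩ hex⟩
  obtain ⟨w0, σ0, h0⟩ := hex
  choose! T hT using fun (φ : (E → ℝ) → ℝ) (hφ : Integrable φ P) => exists_T hμ hat h0 e hφ
  -- the integrals defining `PL`
  have hPi : ∀ (φ : (E → ℝ) → ℝ), Integrable φ P → ∀ L a,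
      Integrable (fun J => φ (sh a J) * bp (σ0 L J) (st a e)) P := by
    intro φ hφ L a
    refine ((sh_law μ a).integrable_comp_of_integrable hφ).mul_bdd (c := 1)
      (bpm (h0.meas L) _).aestronglyMeasurable ?_
    filter_upwards [h0.spin L] with J hJ
    rw [Real.norm_eq_abs, hJ.bp_abs]
  obtain ⟨m, hm, hm1, hmT⟩ := riesz (P := P) T
    (fun φ ψ hφ hψ => by
      have h1 := (hT φ hφ).add (hT ψ hψ)
      refine tendsto_nhds_unique (hT _ (hφ.add hψ)) (h1.congr fun L => ?_)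
      show Av μ φ e σ0 L + Av μ ψ e σ0 L = Av μ (fun J => φ J + ψ J) e σ0 L
      unfold Av
      rw [← add_div, ← Finset.sum_add_distrib]
      congr 1
      refine Finset.sum_congr rfl fun a _ => ?_
      unfold PL
      rw [← integral_add (hPi φ hφ L a) (hPi ψ hψ L a)]
      refine integral_congr_ae (Eventually.of_forall fun J => ?_)
      simp only
      ring)
    (fun c φ hφ => by
      have h1 := (hT φ hφ).const_mul c
      refine tendsto_nhds_unique (hT _ (hφ.const_mul c)) (h1.congr fun L => ?_)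
      unfold Av
      rw [← mul_div_assoc, Finset.mul_sum]
      congr 1
      refine Finset.sum_congr rfl fun a _ => ?_
      unfold PL
      rw [← integral_const_mul]
      refine integral_congr_ae (Eventually.of_forall fun J => ?_)
      simp only
      ring)
    (fun φ hφ => by
      refine le_of_tendsto (hT φ hφ).abs ?_
      filter_upwards [eventually_ge_atTop 1] with L hL
      have hL0 : (0 : ℝ) < L := by exact_mod_cast hL
      have hL2 : (0 : ℝ) < (L : ℝ) ^ 2 := by positivity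
      unfold Av
      rw [abs_div, abs_of_pos hL2, div_le_iff₀ hL2]
      refine (Finset.abs_sum_le_sum_abs _ _).trans ?_
      refine (Finset.sum_le_card_nsmul _ _ _ fun a _ =>
        PL_le hφ (h0.meas L) (h0.spin L) e a).trans (le_of_eq ?_)
      rw [card_pos, nsmul_eq_mul, mul_comm]
      push_cast
      rfl)
  refine ⟨m, hm, hm1, fun w σ hs F φ hφ => ?_⟩
  have hφi : ∀ L a, Integrable (φ L a) P := fun L a => int_bdd μ (hφ L a).meas (hφ L a).le
  have hφ1 : ∀ L a, ∫ J, |φ L a J| ∂P ≤ 1 := by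
    intro L a
    have h1 := integral_mono (hφi L a).abs (integrable_const (1 : ℝ)) (hφ L a).le
    rwa [integral_const, probReal_univ, one_smul] at h1
  have hTb : ∀ L a, |∫ J, φ L a J * m J ∂P| ≤ 1 := by
    intro L a
    have h2 : ∀ J, |φ L a J * m J| ≤ 1 := fun J => by
      rw [abs_mul]
      have := (hφ L a).le J
      have := hm1 J
      nlinarith [abs_nonneg (φ L a J), abs_nonneg (m J)]
    have := norm_integral_le_of_norm_le_const (μ := P) (f := fun J => φ L a J * m J) (C := 1)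
      (Eventually.of_forall fun x => by rw [Real.norm_eq_abs]; exact h2 _)
    rwa [probReal_univ, mul_one, Real.norm_eq_abs] at this
  refine tend_of (B := 2) (fun L a => abs_nonneg _) (fun L a => ?_) fun ε hε => ?_
  · refine (abs_sub _ _).trans ?_
    have h1 := (PL_le (hφi L a) (hs.meas L) (hs.spin L) e a).trans (hφ1 L a)
    linarith [hTb L a]
  · -- the box
    obtain ⟨M, hMF, hM1, hMe⟩ :=
      ((bM_finset F).and ((eventually_ge_atTop 1).and (bM_exhaust e))).exists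
    have hφM : ∀ L a, Lo (bM M) (φ L a) := fun L a =>
      ⟨(hφ L a).meas, (hφ L a).le, (hφ L a).dep.mono (by exact_mod_cast hMF)⟩
    obtain ⟨c, m', hc⟩ := PU_bM hM1 hμ hat (Finset.mem_coe.1 hMe) (ε / 3) (by linarith)
    -- the constants are close to the limits
    have hcl : ∀ ψ, Lo (bM M) ψ → |T ψ - c ψ| ≤ 2 * (ε / 3) := by
      intro ψ hψ
      have hψi : Integrable ψ P := int_bdd μ hψ.meas hψ.le
      have h1 := Av_close h0 hψi (by linarith)
        (fun L => hc w0 σ0 h0 L (fun _ => ψ) fun _ => hψ)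
      have h2 : Tendsto (fun L => |Av μ ψ e σ0 L - c ψ|) atTop (𝓝 |T ψ - c ψ|) :=
        ((hT ψ hψi).sub tendsto_const_nhds).abs
      exact le_of_tendsto h2 h1
    refine ⟨m', fun L => ?_⟩
    have h3 := hc w σ hs L (φ L) (hφM L)
    have h4 : ∀ a ∈ dp L m', |PL μ (φ L a) e (σ L) a - ∫ J, φ L a J * m J ∂P| ≤
        |PL μ (φ L a) e (σ L) a - c (φ L a)| + 2 * (ε / 3) := by
      intro a _
      rw [← hmT _ (hφi L a)]
      have h5 := hcl _ (hφM L a)
      have h6 := abs_sub_le (PL μ (φ L a) e (σ L) a) (c (φ L a)) (T (φ L a))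
      rw [abs_sub_comm (c (φ L a))] at h6
      linarith
    refine (Finset.sum_le_sum h4).trans ?_
    rw [Finset.sum_add_distrib, Finset.sum_const, nsmul_eq_mul]
    have h5 := dp_card_le L m'
    have h6 : 0 < 2 * (ε / 3) := by linarith
    nlinarith

end Pool.Agent.K3h93.EF
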