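import Pool.Agent.K3h93.EF.WinEst

/-!
# Sequences of boxes with boundary terms
-/

set_option autoImplicit false
set_option linter.unusedSectionVars false

open MeasureTheory Measure Filter Topology

namespace Pool.Agent.K3h93.EF

open Pool.Agent.K3h93.EA

variable {μ : Measure ℝ} [IsProbabilityMeasure μ]

/-- boundary terms and ground states in the boxes `[0, L] ^ 2` -/
structure Sq (μ : Measure ℝ) [IsProbabilityMeasure μ] (w : ℕ → (E → ℝ) → (V → ℝ) → ℝ)
    (σ : ℕ → (E → ℝ) → V → ℝ) : Prop where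
  bt : ∀ L, BT L (w L)
  meas : ∀ L, Measurable (σ L)
  gs : ∀ L, ∀ᵐ J ∂(infinitePi fun _ : E => μ), GSB L (w L) J (σ L J)

/-- the correlation of the local function `φ` at the position `a` and the spins at a bond -/
noncomputable def PL (μ : Measure ℝ) (φ : (E → ℝ) → ℝ) (e : E) (σ : (E → ℝ) → V → ℝ) (a : V) : ℝ :=
  ∫ J, φ (sh a J) * bp (σ J) (st a e) ∂(infinitePi fun _ : E => μ)

/-- positions away from the boundary -/
noncomputable def dp (L m : ℕ) : Finset V :=
  Fintype.piFinset fun _ => Finset.Ico (m : ℤ) ((L : ℤ) - m)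

lemma mem_dp {L m : ℕ} {a : V} : a ∈ dp L m ↔ ∀ i, (m : ℤ) ≤ a i ∧ a i < (L : ℤ) - m := by
  unfold dp
  rw [Fintype.mem_piFinset]
  simp only [Finset.mem_Ico]

lemma dp_card_le (L m : ℕ) : ((dp L m).card : ℝ) ≤ (L : ℝ) ^ 2 := by
  have h1 : (dp L m).card ≤ L ^ 2 := by
    unfold dp
    rw [Fintype.card_piFinset]
    simp only [Int.card_Ico, Finset.prod_const, Finset.card_univ, Fintype.card_fin]
    exact Nat.pow_le_pow_left (by omega) 2
  exact_mod_cast h1

/-- the property that the correlations are asymptotically the same for all boundary terms -/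
def PP (μ : Measure ℝ) [IsProbabilityMeasure μ] (e : E) (φ : (E → ℝ) → ℝ) : Prop :=
  ∀ ε : ℝ, 0 < ε → ∃ (c : ℝ) (m : ℕ), ∀ w σ, Sq μ w σ → ∀ L : ℕ,
    ∑ a ∈ dp L m, |PL μ φ e (σ L) a - c| ≤ ε * (L : ℝ) ^ 2

lemma sh_sh (a b : V) (J : E → ℝ) : sh a (sh b J) = sh (a + b) J := by
  funext e
  unfold sh
  simp only
  rw [add_assoc]

lemma sh_zero (J : E → ℝ) : sh 0 J = J := by
  funext e
  unfold sh
  simp only [add_zero]

lemma bp_shift (x : V) (s : V → ℝ) (e : E) : bp (fun v => s (v + x)) e = bp s (st x e) := by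
  unfold bp st
  simp only
  congr 2
  abel

/-- the ground states seen from a window -/
lemma view_gs {L : ℕ} {w : (E → ℝ) → (V → ℝ) → ℝ} {σ : (E → ℝ) → V → ℝ}
    (hσ : Measurable σ) (hg : ∀ᵐ J ∂(infinitePi fun _ : E => μ), GSB L w J (σ J)) (x : V) :
    Measurable (fun (J : E → ℝ) (v : V) => σ (sh (-x) J) (v + x)) ∧
    ∀ᵐ J ∂(infinitePi fun _ : E => μ),
      GSB L w (sh (-x) J) (fun v => (fun (v : V) => σ (sh (-x) J) (v + x)) (v - x)) := by
  constructor
  · refine measurable_pi_lambda _ fun v => ?_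
    exact (measurable_pi_apply (v + x)).comp (hσ.comp (measurable_sh _))
  · have h1 := (sh_law μ (-x)).quasiMeasurePreserving.ae hg
    filter_upwards [h1] with J hJ
    simp only [sub_add_cancel]
    exact hJ

lemma PL_view (φ : (E → ℝ) → ℝ) (hφ : Measurable φ) (e : E) {σ : (E → ℝ) → V → ℝ}
    (hσ : Measurable σ) (x a : V) :
    ∫ J, φ (sh a J) * bp (fun v => σ (sh (-x) J) (v + x)) (st a e)
      ∂(infinitePi fun _ : E => μ) = PL μ φ e σ (a + x) := by
  unfold PL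
  have hm : Measurable fun J : E → ℝ =>
      φ (sh a J) * bp (fun v => σ (sh (-x) J) (v + x)) (st a e) := by
    refine (hφ.comp (measurable_sh _)).mul ?_
    exact bpm (σ := fun (J : E → ℝ) (v : V) => σ (sh (-x) J) (v + x))
      (measurable_pi_lambda _ fun v =>
        (measurable_pi_apply (v + x)).comp (hσ.comp (measurable_sh _))) _
  rw [← mp_int (sh_law μ x) hm]
  refine integral_congr_ae (Eventually.of_forall fun J => ?_)
  simp only
  rw [sh_sh, sh_sh, neg_add_cancel, sh_zero, bp_shift, st_st, add_comm x a]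

/-- local functions -/
structure Lo (b : Finset E) (φ : (E → ℝ) → ℝ) : Prop where
  meas : Measurable φ
  le : ∀ J, |φ J| ≤ 1
  dep : Dep (b : Finset E) φ

/-- the correlations are asymptotically the same for all boundary terms, uniformly in the local
functions, which may depend on the position -/
def PU (μ : Measure ℝ) [IsProbabilityMeasure μ] (e : E) (b : Finset E) : Prop :=
  ∀ ε : ℝ, 0 < ε → ∃ (c : ((E → ℝ) → ℝ) → ℝ) (m : ℕ), ∀ w σ, Sq μ w σ → ∀ L : ℕ,
    ∀ φ : V → (E → ℝ) → ℝ, (∀ a, Lo b (φ a)) →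
    ∑ a ∈ dp L m, |PL μ (φ a) e (σ L) a - c (φ a)| ≤ ε * (L : ℝ) ^ 2

lemma PU_blk {N : ℕ} (hN : 1 ≤ N) (hμ : Integrable (fun x : ℝ => x) μ)
    (hat : ∀ x, μ {x} = 0) {e : E} (he : e ∈ blk N 0) : PU μ e (blk N 0) := by
  intro ε hε
  by_cases hex : ∃ w σ, Sq μ w σ
  swap
  · exact ⟨fun _ => 0, 0, fun w σ h => absurd ⟨w, σ, h⟩ hex⟩
  obtain ⟨w0, σ0, h0⟩ := hex
  obtain ⟨n, hn, hwin⟩ := window_est hN hμ hat hε he
  have hn0 : (0 : ℝ) < (n : ℝ) ^ 2 := by
    have : (0 : ℝ) < n := by exact_mod_cast hn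
    positivity
  set W := n * N with hW
  -- the reference
  set L0 := W + 2 with hL0
  set x0 : V := fun _ => 1 with hx0
  have hx01 : ∀ i, 0 < x0 i ∧ x0 i + W < L0 := fun i => by
    refine ⟨one_pos, ?_⟩
    show (1 : ℤ) + (W : ℤ) < ((W + 2 : ℕ) : ℤ)
    rw [Nat.cast_add]
    norm_num
    linarith
  have v0 := box_view (h0.bt L0) hx01
  have g0 := view_gs (h0.meas L0) (h0.gs L0) x0
  set p0 : V → ((E → ℝ) → ℝ) → ℝ := fun k φ => PL μ φ e (σ0 L0) (nk N k + x0) with hp0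
  set c : ((E → ℝ) → ℝ) → ℝ := fun φ => (∑ k ∈ pos n, p0 k φ) / (n : ℝ) ^ 2 with hc
  refine ⟨c, W + 1, fun w σ hs L φ hφ => ?_⟩
  -- one window
  have hone : ∀ x : V, (∀ i, 0 < x i ∧ x i + W < L) →
      ∑ k ∈ pos n, |PL μ (φ (nk N k + x)) e (σ L) (nk N k + x) - p0 k (φ (nk N k + x))| ≤
        ε * (n : ℝ) ^ 2 := by
    intro x hx
    have v1 := box_view (hs.bt L) hx
    have g1 := view_gs (hs.meas L) (hs.gs L) x
    have h1 := hwin _ _ _ _ v1 v0 _ _ g1.1 g0.1 g1.2 g0.2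
      (fun k J => φ (nk N k + x) (sh (nk N k) J))
      (fun k => (hφ _).meas.comp (measurable_sh _)) (fun k J => (hφ _).le _)
      (fun k J J' hJ => (hφ _).dep _ _ fun e he => by
        rw [sh_apply, sh_apply]
        exact hJ _ ((blk_shift N k e).1 he))
    refine le_trans (le_of_eq ?_) h1
    refine Finset.sum_congr rfl fun k _ => ?_
    rw [PL_view _ (hφ _).meas e (hs.meas L) x (nk N k),
      PL_view _ (hφ _).meas e (h0.meas L0) x0 (nk N k)]
  -- the set of the windows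
  set X : Finset V := Fintype.piFinset fun _ => Finset.Ico (1 : ℤ) ((L : ℤ) - W) with hX
  have hXm : ∀ x, x ∈ X ↔ ∀ i, 1 ≤ x i ∧ x i < (L : ℤ) - W := fun x => by
    rw [hX, Fintype.mem_piFinset]
    simp only [Finset.mem_Ico]
  have hXc : (X.card : ℝ) ≤ (L : ℝ) ^ 2 := by
    have h1 : X.card ≤ L ^ 2 := by
      rw [hX, Fintype.card_piFinset]
      simp only [Int.card_Ico, Finset.prod_const, Finset.card_univ, Fintype.card_fin]
      exact Nat.pow_le_pow_left (by omega) 2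
    exact_mod_cast h1
  have hsum : ∑ x ∈ X, ∑ k ∈ pos n,
      |PL μ (φ (nk N k + x)) e (σ L) (nk N k + x) - p0 k (φ (nk N k + x))| ≤
      (L : ℝ) ^ 2 * (ε * (n : ℝ) ^ 2) := by
    have h1 : ∑ x ∈ X, ∑ k ∈ pos n,
        |PL μ (φ (nk N k + x)) e (σ L) (nk N k + x) - p0 k (φ (nk N k + x))| ≤
        ∑ _x ∈ X, ε * (n : ℝ) ^ 2 := Finset.sum_le_sum fun x hx => hone x fun i => by
      have := (hXm x).1 hx i
      constructor <;> linarith [this.1, this.2]
    rw [Finset.sum_const, nsmul_eq_mul] at h1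
    exact h1.trans (mul_le_mul_of_nonneg_right hXc (by positivity))
  rw [Finset.sum_comm] at hsum
  -- the positions away from the boundary
  have hdeep : ∀ k ∈ pos n, ∑ a ∈ dp L (W + 1), |PL μ (φ a) e (σ L) a - p0 k (φ a)| ≤
      ∑ x ∈ X, |PL μ (φ (nk N k + x)) e (σ L) (nk N k + x) - p0 k (φ (nk N k + x))| := by
    intro k hk
    classical
    have h1 : ∑ a ∈ dp L (W + 1), |PL μ (φ a) e (σ L) a - p0 k (φ a)| =
        ∑ x ∈ (dp L (W + 1)).image (fun a => a - nk N k),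
          |PL μ (φ (nk N k + x)) e (σ L) (nk N k + x) - p0 k (φ (nk N k + x))| := by
      rw [Finset.sum_image fun a _ b _ h => sub_left_injective h]
      refine Finset.sum_congr rfl fun a _ => ?_
      rw [add_sub_cancel]
    rw [h1]
    refine Finset.sum_le_sum_of_subset_of_nonneg (fun x hx => ?_) fun _ _ _ => abs_nonneg _
    rw [Finset.mem_image] at hx
    obtain ⟨a, ha, rfl⟩ := hx
    rw [mem_dp] at ha
    rw [hXm]
    rw [mem_pos] at hk
    intro i
    have h2 := ha i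
    have h3 := hk i
    have hN0 : (0 : ℤ) ≤ N := Nat.cast_nonneg N
    have h4 : 0 ≤ (N : ℤ) * k i := mul_nonneg hN0 h3.1
    have h5 : (N : ℤ) * k i ≤ N * n := mul_le_mul_of_nonneg_left h3.2.le hN0
    have h6 : (W : ℤ) = N * n := by rw [hW]; push_cast; ring
    simp only [Pi.sub_apply, nk]
    push_cast at h2
    constructor <;> linarith [h2.1, h2.2]
  have h7 : ∑ k ∈ pos n, ∑ a ∈ dp L (W + 1), |PL μ (φ a) e (σ L) a - p0 k (φ a)| ≤
      (L : ℝ) ^ 2 * (ε * (n : ℝ) ^ 2) := (Finset.sum_le_sum hdeep).trans hsum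
  rw [Finset.sum_comm] at h7
  have h8 : ∀ a, (n : ℝ) ^ 2 * |PL μ (φ a) e (σ L) a - c (φ a)| ≤
      ∑ k ∈ pos n, |PL μ (φ a) e (σ L) a - p0 k (φ a)| := by
    intro a
    rw [← abs_of_pos hn0, ← abs_mul]
    have e1 : (n : ℝ) ^ 2 * (PL μ (φ a) e (σ L) a - c (φ a)) =
        ∑ k ∈ pos n, (PL μ (φ a) e (σ L) a - p0 k (φ a)) := by
      rw [Finset.sum_sub_distrib, Finset.sum_const, card_pos, nsmul_eq_mul, mul_sub, hc]
      push_cast
      field_simp
    rw [e1]
    exact Finset.abs_sum_le_sum_abs _ _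
  have h9 : (n : ℝ) ^ 2 * ∑ a ∈ dp L (W + 1), |PL μ (φ a) e (σ L) a - c (φ a)| ≤
      (n : ℝ) ^ 2 * (ε * (L : ℝ) ^ 2) := by
    rw [Finset.mul_sum]
    refine (Finset.sum_le_sum fun a _ => h8 a).trans (h7.trans (le_of_eq ?_))
    ring
  exact le_of_mul_le_mul_left h9 hn0

/-- the boxes around the origin -/
lemma PU_bM {M : ℕ} (hM : 1 ≤ M) (hμ : Integrable (fun x : ℝ => x) μ)
    (hat : ∀ x, μ {x} = 0) {e : E} (he : e ∈ bM M) : PU μ e (bM M) := by
  intro ε hε
  set mm : V := fun _ => (M : ℤ) with hmm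
  have he' : st mm e ∈ blk (2 * M) 0 := (bM_shift M e).1 he
  obtain ⟨c, m, hcm⟩ := PU_blk (by omega : 1 ≤ 2 * M) hμ hat he' ε hε
  refine ⟨fun φ => c (fun J => φ (sh mm J)), m + M, fun w σ hs L φ hφ => ?_⟩
  have h0 := hcm w σ hs L (fun a J => φ (a + mm) (sh mm J)) fun a =>
    ⟨(hφ _).meas.comp (measurable_sh _), fun J => (hφ _).le _, fun J J' hJ =>
      (hφ _).dep _ _ fun e he => by
        rw [sh_apply, sh_apply]
        exact hJ _ (Finset.mem_coe.2 ((bM_shift M e).1 (Finset.mem_coe.1 he)))⟩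
  refine le_trans ?_ h0
  classical
  have h1 : ∀ a, PL μ (fun J => φ (a + mm) (sh mm J)) (st mm e) (σ L) a =
      PL μ (φ (a + mm)) e (σ L) (a + mm) := by
    intro a
    unfold PL
    refine integral_congr_ae (Eventually.of_forall fun J => ?_)
    simp only
    rw [sh_sh, st_st, add_comm mm a]
  have h2 : ∑ a ∈ dp L (m + M), |PL μ (φ a) e (σ L) a - c (fun J => φ a (sh mm J))| =
      ∑ x ∈ (dp L (m + M)).image (fun a => a - mm),
        |PL μ (fun J => φ (x + mm) (sh mm J)) (st mm e) (σ L) x -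
          c (fun J => φ (x + mm) (sh mm J))| := by
    rw [Finset.sum_image fun a _ b _ h => sub_left_injective h]
    refine Finset.sum_congr rfl fun a _ => ?_
    rw [h1, sub_add_cancel]
  rw [h2]
  refine Finset.sum_le_sum_of_subset_of_nonneg (fun x hx => ?_) fun _ _ _ => abs_nonneg _
  rw [Finset.mem_image] at hx
  obtain ⟨a, ha, rfl⟩ := hx
  rw [mem_dp] at ha ⊢
  intro i
  have h3 := ha i
  simp only [Pi.sub_apply, hmm]
  push_cast at h3
  constructor <;> linarith [h3.1, h3.2]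

lemma PP_of_PU {e : E} {b : Finset E} (h : PU μ e b) {φ : (E → ℝ) → ℝ} (hφ : Lo b φ) :
    PP μ e φ := by
  intro ε hε
  obtain ⟨c, m, hcm⟩ := h ε hε
  exact ⟨c φ, m, fun w σ hs L => hcm w σ hs L (fun _ => φ) fun _ => hφ⟩

/-- scaling -/
lemma PP_smul {e : E} {φ : (E → ℝ) → ℝ} (h : PP μ e φ) (C : ℝ) : PP μ e (fun J => C * φ J) := by
  intro ε hε
  obtain ⟨c, m, hcm⟩ := h (ε / (|C| + 1)) (by positivity)
  refine ⟨C * c, m, fun w σ hs L => ?_⟩
  have h1 := hcm w σ hs L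
  have h2 : ∀ a, |PL μ (fun J => C * φ J) e (σ L) a - C * c| =
      |C| * |PL μ φ e (σ L) a - c| := by
    intro a
    rw [← abs_mul, mul_sub]
    congr 2
    unfold PL
    rw [← integral_const_mul]
    refine integral_congr_ae (Eventually.of_forall fun J => ?_)
    simp only
    ring
  simp only [h2]
  rw [← Finset.mul_sum]
  have h3 := mul_le_mul_of_nonneg_left h1 (abs_nonneg C)
  refine h3.trans ?_
  have h4 : |C| * (ε / (|C| + 1) * (L : ℝ) ^ 2) = (|C| / (|C| + 1)) * (ε * (L : ℝ) ^ 2) := by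
    field_simp
  rw [h4]
  have h5 : |C| / (|C| + 1) ≤ 1 := by
    rw [div_le_one (by positivity)]
    linarith
  have h6 : 0 ≤ ε * (L : ℝ) ^ 2 := by positivity
  nlinarith

lemma PL_diff {φ φ' : (E → ℝ) → ℝ} (hφ : Integrable φ (infinitePi fun _ : E => μ))
    (hφ' : Integrable φ' (infinitePi fun _ : E => μ)) {σ : (E → ℝ) → V → ℝ} (hσ : Measurable σ)
    (hs : ∀ᵐ J ∂(infinitePi fun _ : E => μ), Spin (σ J)) (e : E) (a : V) :
    |PL μ φ e σ a - PL μ φ' e σ a| ≤ ∫ J, |φ J - φ' J| ∂(infinitePi fun _ : E => μ) := by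
  set P := infinitePi fun _ : E => μ with hP
  have i1 : Integrable (fun J => φ (sh a J)) P := (sh_law μ a).integrable_comp_of_integrable hφ
  have i2 : Integrable (fun J => φ' (sh a J)) P := (sh_law μ a).integrable_comp_of_integrable hφ'
  have hb : ∀ᵐ J ∂P, ‖bp (σ J) (st a e)‖ ≤ 1 := by
    filter_upwards [hs] with J hJ
    rw [Real.norm_eq_abs, hJ.bp_abs]
  have j1 : Integrable (fun J => φ (sh a J) * bp (σ J) (st a e)) P :=
    i1.mul_bdd (c := 1) (bpm hσ _).aestronglyMeasurable hb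
  have j2 : Integrable (fun J => φ' (sh a J) * bp (σ J) (st a e)) P :=
    i2.mul_bdd (c := 1) (bpm hσ _).aestronglyMeasurable hb
  unfold PL
  rw [← integral_sub j1 j2]
  refine abs_integral_le_integral_abs.trans ?_
  have h1 : ∫ J, |φ (sh a J) * bp (σ J) (st a e) - φ' (sh a J) * bp (σ J) (st a e)| ∂P ≤
      ∫ J, |φ (sh a J) - φ' (sh a J)| ∂P := by
    refine integral_mono_ae (j1.sub j2).abs (i1.sub i2).abs ?_
    filter_upwards [hs] with J hJ
    rw [← sub_mul, abs_mul, hJ.bp_abs, mul_one]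
  refine h1.trans (le_of_eq ?_)
  have h2 := integral_map (sh_law μ a).measurable.aemeasurable (f := fun J => |φ J - φ' J|)
    (by rw [(sh_law μ a).map_eq]; exact (hφ.sub hφ').abs.aestronglyMeasurable)
  rw [(sh_law μ a).map_eq] at h2
  exact h2.symm

/-- approximation -/
lemma PP_approx {e : E} {φ : (E → ℝ) → ℝ} (hφ : Integrable φ (infinitePi fun _ : E => μ))
    (h : ∀ ε : ℝ, 0 < ε → ∃ φ', PP μ e φ' ∧ Integrable φ' (infinitePi fun _ : E => μ) ∧
      ∫ J, |φ J - φ' J| ∂(infinitePi fun _ : E => μ) ≤ ε) : PP μ e φ := by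
  intro ε hε
  obtain ⟨φ', h1, h2, h3⟩ := h (ε / 2) (by linarith)
  obtain ⟨c, m, hcm⟩ := h1 (ε / 2) (by linarith)
  refine ⟨c, m, fun w σ hs L => ?_⟩
  have h4 := hcm w σ hs L
  have h5 : ∀ a ∈ dp L m, |PL μ φ e (σ L) a - c| ≤ |PL μ φ' e (σ L) a - c| + ε / 2 := by
    intro a _
    have h6 := PL_diff hφ h2 (hs.meas L) ((hs.gs L).mono fun J hJ => hJ.1) e a
    have h7 := abs_sub_le (PL μ φ e (σ L) a) (PL μ φ' e (σ L) a) c
    linarith
  refine (Finset.sum_le_sum h5).trans ?_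
  rw [Finset.sum_add_distrib, Finset.sum_const, nsmul_eq_mul]
  have h6 := dp_card_le L m
  nlinarith

end Pool.Agent.K3h93.EF
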