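import Pool.Agent.K3h93.EF.Win

/-!
# The estimate for one superblock
-/

set_option autoImplicit false
set_option linter.unusedSectionVars false

open MeasureTheory Measure Filter Topology

namespace Pool.Agent.K3h93.EF

open Pool.Agent.K3h93.EA

variable {μ : Measure ℝ} [IsProbabilityMeasure μ]
  {N n : ℕ} {g : V → (E → ℝ) → ℝ} {Φ : (E → ℝ) → ℝ} {h : ℝ}

/-- the positions of the blocks of the superblock at `j` -/
noncomputable def SP (l : ℕ) (j : V) : Finset V := (pos l).image fun k => k + nk l j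

lemma mem_SP {l : ℕ} {j k : V} (hk : k ∈ SP l j) : ∀ i, (l : ℤ) * j i ≤ k i ∧ k i < l * j i + l := by
  classical
  unfold SP at hk
  rw [Finset.mem_image] at hk
  obtain ⟨k', hk', rfl⟩ := hk
  rw [mem_pos] at hk'
  intro i
  have := hk' i
  simp only [Pi.add_apply, nk]
  constructor <;> linarith [this.1, this.2]

lemma nk_nk (N l : ℕ) (j : V) : nk N (nk l j) = nk (l * N) j := by
  funext i
  unfold nk
  push_cast
  ring

lemma SP_blk {l : ℕ} {j k : V} (hk : k ∈ SP l j) :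
    ((blk N k : Finset E) : Set E) ⊆ SB (nk (l * N) j) (l * N) := by
  classical
  unfold SP at hk
  rw [Finset.mem_image] at hk
  obtain ⟨k', hk', rfl⟩ := hk
  intro e he
  refine ⟨st (-nk (l * N) j) e, ?_, st_surj _ e⟩
  refine Finset.mem_coe.2 (blk_sub_FB (mem_pos.1 hk') ?_)
  rw [blk_shift' N k' (nk l j), nk_nk, st_surj]
  exact Finset.mem_coe.1 he

lemma SP_DB {l : ℕ} {j k : V} (hk : k ∈ SP l j) {e : E} (he : e ∈ DB (l * N)) :
    st (nk (l * N) j) e ∉ blk N k := by
  classical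
  unfold SP at hk
  rw [Finset.mem_image] at hk
  obtain ⟨k', hk', rfl⟩ := hk
  rw [← nk_nk, ← blk_shift' N k' (nk l j)]
  exact DB_not_blk (mem_pos.1 hk') he

lemma SP_reg {l : ℕ} {j k k' : V} (hk : k ∈ SP l j) (hk' : k' ∈ SP l j) :
    ((blk N k' : Finset E) : Set E) ⊆ reg N l k := by
  intro e he
  unfold reg
  simp only [Set.mem_iUnion, exists_prop]
  refine ⟨k', ?_, he⟩
  rw [mem_nb]
  intro i
  have := mem_SP hk i
  have := mem_SP hk' i
  constructor <;> linarith

lemma reg_mono {r l : ℕ} (hrl : r ≤ l) (k : V) : reg N r k ⊆ reg N l k := by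
  unfold reg
  refine Set.biUnion_subset_biUnion_left fun j hj => ?_
  have hj' : j ∈ nb r k := hj
  show j ∈ nb l k
  rw [mem_nb] at hj' ⊢
  intro i
  have := hj' i
  have : (r : ℤ) ≤ l := by exact_mod_cast hrl
  constructor <;> linarith [(hj' i).1, (hj' i).2]

/-- the bound of `Psi` -/
noncomputable def RR (μ : Measure ℝ) (N : ℕ) : ℝ := 2 * ((blk N 0).card * MU μ) + 1

lemma card_blk (N : ℕ) (k : V) : (blk N k).card = (blk N 0).card := by
  symm
  refine Finset.card_bij (fun e _ => st (nk N k) e) (fun e he => (blk_shift N k e).1 he)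
    (fun e _ e' _ h => st_inj _ h) (fun e he => ⟨st (-nk N k) e, ?_, st_surj _ e⟩)
  rw [blk_shift N k, st_surj]
  exact he

lemma RR_pos : 0 < RR μ N := by
  unfold RR
  have := MU_nonneg (μ := μ)
  positivity

lemma psi_le' (hμ : Integrable (fun x : ℝ => x) μ) (hg : Tl μ N g) (hΦ : Win μ n N Φ) {k : V}
    (hk : k ∈ pos n) (J : E → ℝ) : |Psi μ N g Φ k J| ≤ RR μ N := by
  have := psi_le hμ hg hΦ hk J
  rw [card_blk] at this
  unfold RR
  linarith

/-- the error of one block -/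
noncomputable def er (μ : Measure ℝ) (N : ℕ) (g : V → (E → ℝ) → ℝ) (Φ : (E → ℝ) → ℝ)
    (h t s : ℝ) (r l : ℕ) (k : V) : ℝ :=
  t / 2 * (1 + h ^ 2) ^ (l ^ 2) +
    RR μ N / t * (s + 1 / s * (En μ (reg N l k) (Psi μ N g Φ k) -
      En μ (reg N r k) (Psi μ N g Φ k))) +
    ((1 + h) ^ ((2 * r + 1) ^ 2) - 1) * RR μ N

lemma step1 (hN : 1 ≤ N) (hμ : Integrable (fun x : ℝ => x) μ) (hg : Tl μ N g)
    (hΦ : Win μ n N Φ) (h0 : 0 ≤ h) {t s : ℝ} (ht : 0 < t) (hs : 0 < s) {r l : ℕ}
    (hrl : r ≤ l) {j : V} {K : Finset V} (hKS : K ⊆ SP l j) {k : V} (hkS : k ∈ SP l j)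
    (hkn : k ∈ pos n) (hk : k ∉ K) :
    ∫ J, g k J * Φ J ∂(infinitePi fun _ : E => μ) - er μ N g Φ h t s r l k ≤
      ∫ J, Zf h g K J * (g k J * Φ J) ∂(infinitePi fun _ : E => μ) := by
  classical
  set P := infinitePi fun _ : E => μ with hP
  have hR := psi_le' hμ hg hΦ hkn
  have hm := psi_meas hg hΦ k
  have e1 := psi_eq (h := h) hN hg hΦ h0 hk
  have e2 := psi_eq (h := h) hN hg hΦ h0 (K := ∅) (Finset.notMem_empty k)
  simp only [Zf_empty, one_mul] at e2
  rw [e1, e2]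
  have hd1 : Dep (reg N l k) (Zf h g K) := Zf_dep hg.dep fun k' hk' => SP_reg hkS (hKS hk')
  have e3 := CE_mul μ hm hR (Zmeas hg K) (Zb hg h0 K) hd1
  have e4 := CE_mul μ hm hR (u := fun _ => 1) measurable_const (D := 1)
    (fun _ => by simp) (I := reg N l k) (fun _ _ _ => rfl)
  simp only [mul_one] at e4
  have e5 : ∫ J, Zf h g K J * Psi μ N g Φ k J ∂P =
      ∫ J, Zf h g K J * CE μ (reg N l k) (Psi μ N g Φ k) J ∂P := by
    have a1 : ∀ J, Zf h g K J * Psi μ N g Φ k J = Psi μ N g Φ k J * Zf h g K J :=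
      fun J => mul_comm _ _
    have a2 : ∀ J, Zf h g K J * CE μ (reg N l k) (Psi μ N g Φ k) J =
      CE μ (reg N l k) (Psi μ N g Φ k) J * Zf h g K J := fun J => mul_comm _ _
    simp only [a1, a2]
    exact e3.symm
  rw [e5, ← e4]
  set f := CE μ (reg N l k) (Psi μ N g Φ k) with hf
  have hfm : Measurable f := CE_meas μ hm _
  have hfR : ∀ J, |f J| ≤ RR μ N := CE_le μ hR _
  set K1 := K.filter fun j => j ∈ nb r k with hK1
  set K2 := K.filter fun j => j ∉ nb r k with hK2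
  have hKK : K = K1 ∪ K2 := (Finset.filter_union_filter_not_eq _ _).symm
  have hKd : Disjoint K1 K2 := Finset.disjoint_filter_filter_not _ _ _
  have hK1c : K1.card ≤ (2 * r + 1) ^ 2 := by
    rw [← card_nb r k]
    exact Finset.card_le_card fun j hj => (Finset.mem_filter.1 hj).2
  have hKc : K.card ≤ l ^ 2 := by
    refine (Finset.card_le_card hKS).trans (Finset.card_image_le.trans (card_pos l).le)
  have e6 := decouple1 μ (blk_disj hN) hg.dep hg.meas hg.le hg.mean h0 hfm hfR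
    (I := reg N r k) hKK hKd
    (fun j' hj => by
      have h2 := (Finset.mem_filter.1 hj).2
      unfold reg
      exact Set.subset_biUnion_of_mem (u := fun j => ((blk N j : Finset E) : Set E)) h2)
    (fun j' hj => by
      have h2 := (Finset.mem_filter.1 hj).2
      unfold reg
      rw [Set.disjoint_iUnion₂_right]
      intro i hi
      exact blk_disj hN (fun hc => h2 (hc ▸ hi))) ht
  have e7 := CE_loc μ hm hR (reg_mono (N := N) hrl k) hs
  have e8 : t / 2 * (1 + h ^ 2) ^ K.card ≤ t / 2 * (1 + h ^ 2) ^ (l ^ 2) :=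
    mul_le_mul_of_nonneg_left (pow_le_pow_right₀ (by nlinarith) hKc) (by linarith)
  have hRp := RR_pos (μ := μ) (N := N)
  have e9 : ((1 + h) ^ K1.card - 1) * RR μ N ≤ ((1 + h) ^ ((2 * r + 1) ^ 2) - 1) * RR μ N := by
    refine mul_le_mul_of_nonneg_right ?_ hRp.le
    have := pow_le_pow_right₀ (by linarith : (1 : ℝ) ≤ 1 + h) hK1c
    linarith
  have e10 : RR μ N / t * ∫ p, |f p.1 - f (patch (reg N r k)ᶜ p.1 p.2)| ∂(P.prod P) ≤
      RR μ N / t * (s + 1 / s * (En μ (reg N l k) (Psi μ N g Φ k) -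
        En μ (reg N r k) (Psi μ N g Φ k))) :=
    mul_le_mul_of_nonneg_left e7 (by positivity)
  have e11 := (abs_le.1 e6).1
  unfold er
  linarith

/-- summing over the blocks of a superblock -/
lemma step2 (hN : 1 ≤ N) (hμ : Integrable (fun x : ℝ => x) μ) (hg : Tl μ N g)
    (hΦ : Win μ n N Φ) (h0 : 0 ≤ h) {t s : ℝ} (ht : 0 < t) (hs : 0 < s) {r l : ℕ}
    (hrl : r ≤ l) {j : V} (hS : SP l j ⊆ pos n) {K : Finset V} (hKS : K ⊆ SP l j) :
    h * ∑ k ∈ K, (∫ J, g k J * Φ J ∂(infinitePi fun _ : E => μ) - er μ N g Φ h t s r l k) ≤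
      ∫ J, Zf h g K J * Φ J ∂(infinitePi fun _ : E => μ) -
        ∫ J, Φ J ∂(infinitePi fun _ : E => μ) := by
  classical
  induction K using Finset.induction_on with
  | empty => simp [Zf]
  | insert k K hk ih =>
    have hK' : K ⊆ SP l j := (Finset.subset_insert k K).trans hKS
    have hkS : k ∈ SP l j := hKS (Finset.mem_insert_self k K)
    have ih' := ih hK'
    have e1 := step1 hN hμ hg hΦ h0 ht hs hrl hK' hkS (hS hkS) hk
    have hi1 : Integrable (fun J => Zf h g K J * Φ J) (infinitePi fun _ : E => μ) :=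
      bi (Zmeas hg K) (Zb hg h0 K) hΦ.int
    have hi2 : Integrable (fun J => Zf h g K J * (g k J * Φ J)) (infinitePi fun _ : E => μ) :=
      bi (Zmeas hg K) (Zb hg h0 K) (bi (hg.meas k) (hg.le k) hΦ.int)
    have e2 : ∫ J, Zf h g (insert k K) J * Φ J ∂(infinitePi fun _ : E => μ) =
        ∫ J, Zf h g K J * Φ J ∂(infinitePi fun _ : E => μ) +
          h * ∫ J, Zf h g K J * (g k J * Φ J) ∂(infinitePi fun _ : E => μ) := by
      rw [← integral_const_mul, ← integral_add hi1 (hi2.const_mul h)]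
      refine integral_congr_ae (Eventually.of_forall fun J => ?_)
      simp only
      rw [Zf_insert hk]
      ring
    rw [e2, Finset.sum_insert hk]
    have e3 := mul_le_mul_of_nonneg_left e1 h0
    rw [mul_add]
    linarith

/-- the estimate for one superblock -/
lemma step3 (hN : 1 ≤ N) (hμ : Integrable (fun x : ℝ => x) μ) (hg : Tl μ N g)
    (hΦ : Win μ n N Φ) (h0 : 0 ≤ h) (h1 : h ≤ 1) {t s : ℝ} (ht : 0 < t) (hs : 0 < s) {r l : ℕ}
    (hrl : r ≤ l) {j : V} (hj : ∀ i, 0 ≤ j i ∧ (l : ℤ) * j i + l ≤ n) :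
    h * ∑ k ∈ SP l j, (∫ J, g k J * Φ J ∂(infinitePi fun _ : E => μ) -
      er μ N g Φ h t s r l k) ≤ 16 * (l * N + 1) * MU μ := by
  have hS : SP l j ⊆ pos n := by
    intro k hk
    rw [mem_pos]
    intro i
    have h2 := mem_SP hk i
    have h3 := hj i
    have h4 : 0 ≤ (l : ℤ) * j i := mul_nonneg (Nat.cast_nonneg _) h3.1
    constructor <;> linarith [h2.1, h2.2, h3.2]
  have e1 := step2 hN hμ hg hΦ h0 ht hs hrl hS (K := SP l j) le_rfl
  have e2 := upper1 hN hμ hg hΦ h0 h1 (x := nk (l * N) j) (m := l * N) (hΦ.bdry l j hj)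
    (K := SP l j) (fun k hk => SP_blk hk) (fun k hk e he => SP_DB hk he)
  push_cast at e2
  exact e1.trans e2

lemma sum_pos_mul (q l : ℕ) (hl : 1 ≤ l) (F : V → ℝ) :
    ∑ k ∈ pos (q * l), F k = ∑ j ∈ pos q, ∑ k ∈ SP l j, F k := by
  classical
  have hl0 : (0 : ℤ) < l := by exact_mod_cast hl
  have h1 : ∀ j, ∑ k ∈ SP l j, F k = ∑ k ∈ pos l, F (k + nk l j) := by
    intro j
    unfold SP
    rw [Finset.sum_image fun a _ b _ h => add_right_cancel h]
  simp only [h1]
  rw [← Finset.sum_product']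
  symm
  refine Finset.sum_nbij' (i := fun p : V × V => p.2 + nk l p.1)
    (j := fun k : V => ((fun i => k i / (l : ℤ)), (fun i => k i % (l : ℤ)))) ?_ ?_ ?_ ?_ ?_
  · rintro ⟨a, b⟩ hab
    rw [Finset.mem_product, mem_pos, mem_pos] at hab
    rw [mem_pos]
    intro i
    have h2 := hab.1 i
    have h3 := hab.2 i
    simp only [Pi.add_apply, nk] at *
    have h4 : 0 ≤ (l : ℤ) * a i := mul_nonneg hl0.le h2.1
    have h5 : (l : ℤ) * (a i + 1) ≤ l * q := mul_le_mul_of_nonneg_left (by omega) hl0.le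
    push_cast
    constructor
    · linarith [h3.1]
    · nlinarith [h3.2]
  · intro k hk
    rw [mem_pos] at hk
    rw [Finset.mem_product, mem_pos, mem_pos]
    refine ⟨fun i => ?_, fun i => ?_⟩
    · have h2 := hk i
      push_cast at h2
      exact ⟨Int.ediv_nonneg h2.1 hl0.le, Int.ediv_lt_of_lt_mul hl0 h2.2⟩
    · exact ⟨Int.emod_nonneg _ hl0.ne', Int.emod_lt_of_pos _ hl0⟩
  · rintro ⟨a, b⟩ hab
    rw [Finset.mem_product, mem_pos, mem_pos] at hab
    refine Prod.ext ?_ ?_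
    · funext i
      have h3 := hab.2 i
      simp only [Pi.add_apply, nk] at *
      rw [Int.add_mul_ediv_left _ _ hl0.ne', Int.ediv_eq_zero_of_lt h3.1 h3.2, zero_add]
    · funext i
      have h3 := hab.2 i
      simp only [Pi.add_apply, nk] at *
      rw [Int.add_mul_emod_self_left, Int.emod_eq_of_lt h3.1 h3.2]
  · intro k hk
    funext i
    simp only [Pi.add_apply, nk]
    exact Int.emod_add_mul_ediv (k i) l
  · intro p hp
    rfl

end Pool.Agent.K3h93.EF
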