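import Pool.Agent.K3h93.EF.Main
import Pool.Agent.K3h93.EA.Det

/-!
# Ground state energies in boxes
-/

set_option autoImplicit false
set_option linter.unusedSectionVars false

open MeasureTheory Measure Filter Topology

namespace Pool.Agent.K3h93.EF

open Pool.Agent.K3h93.EA

/-- A family of (negative) energies, seen from a window of side `W`; `G J s` says that `s` is a
ground state for the couplings `J`. -/
structure View (W : ℕ) (Φ : (E → ℝ) → ℝ) (G : (E → ℝ) → (V → ℝ) → Prop) : Prop where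
  meas : Measurable Φ
  ex : ∀ J, ∃ s, G J s
  spin : ∀ J s, G J s → Spin s
  sub : ∀ (J J' : E → ℝ) (s : V → ℝ) (F : Finset E), G J s → F ⊆ FB W →
    (∀ e, e ∉ F → J' e = J e) → Φ J + ∑ e ∈ F, (J' e - J e) * bp s e ≤ Φ J'
  hyb : ∀ (x : V) (m : ℕ), (∀ i, 0 ≤ x i ∧ x i + m ≤ W) → ∀ (J J' : E → ℝ) (s u : V → ℝ),
    G J s → Spin u → (∀ e, e ∉ SB x m → J' e = J e) →
    Φ J + ∑ e ∈ FB m, (J' (st x e) * bp u (st x e) - J (st x e) * bp s (st x e)) -
      2 * ∑ e ∈ DB m, |J (st x e)| ≤ Φ J'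

lemma SB_sub {x : V} {m W : ℕ} (hx : ∀ i, 0 ≤ x i ∧ x i + m ≤ W) :
    SB x m ⊆ ((FB W : Finset E) : Set E) := by
  rintro e ⟨e', he', rfl⟩
  rw [Finset.mem_coe, mem_FB] at he' ⊢
  unfold st
  simp only [Pi.add_apply]
  refine ⟨fun i => ?_, ?_⟩
  · have h1 := he'.1 i
    have h2 := hx i
    constructor <;> linarith [h1.1, h1.2, h2.1, h2.2]
  · have h2 := hx e'.2
    linarith [he'.2, h2.2]

lemma DB_notSB {x : V} {m : ℕ} {e : E} (he : e ∈ DB m) : st x e ∉ SB x m := by
  rintro ⟨e', he', h⟩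
  have := st_inj x h
  subst this
  exact Finset.disjoint_left.1 (FB_disj m) (Finset.mem_coe.1 he') he

variable {W : ℕ} {Φ Φ1 Φ2 : (E → ℝ) → ℝ} {G G1 G2 : (E → ℝ) → (V → ℝ) → Prop}

lemma View.lip (hv : View W Φ G) {F : Finset E} (hF : F ⊆ FB W) {J J' : E → ℝ}
    (hJ : ∀ e, e ∉ F → J' e = J e) : |Φ J' - Φ J| ≤ ∑ e ∈ F, |J' e - J e| := by
  have h3 : ∀ (θ : V → ℝ) (J J' : E → ℝ), Spin θ →
      |∑ e ∈ F, (J' e - J e) * bp θ e| ≤ ∑ e ∈ F, |J' e - J e| := by
    intro θ J J' hθ
    refine (Finset.abs_sum_le_sum_abs _ _).trans (Finset.sum_le_sum fun e _ => ?_)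
    rw [abs_mul, hθ.bp_abs, mul_one]
  obtain ⟨s, hs⟩ := hv.ex J
  obtain ⟨s', hs'⟩ := hv.ex J'
  have h1 := hv.sub J J' s F hs hF hJ
  have h2 := hv.sub J' J s' F hs' hF (fun e he => (hJ e he).symm)
  have h4 := (abs_le.1 (h3 s J J' (hv.spin _ _ hs))).1
  have h5 := (abs_le.1 (h3 s' J' J (hv.spin _ _ hs'))).1
  have h6 : ∑ e ∈ F, |J e - J' e| = ∑ e ∈ F, |J' e - J e| :=
    Finset.sum_congr rfl fun e _ => abs_sub_comm _ _
  rw [h6] at h5
  rw [abs_le]
  constructor <;> linarith

lemma View.diff (h1 : View W Φ1 G1) (h2 : View W Φ2 G2) {x : V} {m : ℕ}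
    (hx : ∀ i, 0 ≤ x i ∧ x i + m ≤ W) {J J' : E → ℝ} (hJ : ∀ e, e ∉ SB x m → J' e = J e) :
    (Φ1 J - Φ2 J) - (Φ1 J' - Φ2 J') ≤ 4 * ∑ e ∈ DB m, |J (st x e)| := by
  obtain ⟨s, hs⟩ := h1.ex J
  obtain ⟨u, hu⟩ := h2.ex J'
  have a1 := h1.hyb x m hx J J' s u hs (h2.spin _ _ hu) hJ
  have a2 := h2.hyb x m hx J' J u s hu (h1.spin _ _ hs) (fun e he => (hJ e he).symm)
  have h3 : ∑ e ∈ DB m, |J' (st x e)| = ∑ e ∈ DB m, |J (st x e)| :=
    Finset.sum_congr rfl fun e he => by rw [hJ _ (DB_notSB he)]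
  rw [h3] at a2
  have h4 : ∑ e ∈ FB m, (J (st x e) * bp s (st x e) - J' (st x e) * bp u (st x e)) =
      -∑ e ∈ FB m, (J' (st x e) * bp u (st x e) - J (st x e) * bp s (st x e)) := by
    rw [← Finset.sum_neg_distrib]
    exact Finset.sum_congr rfl fun e _ => by ring
  rw [h4] at a2
  linarith

lemma patch_patch {F b : Set E} (hb : b ⊆ F) (J y z : E → ℝ) :
    patch F (patch b J y) z = patch F J z := by
  funext e
  by_cases he : e ∈ F
  · rw [patch_mem he, patch_mem he]
  · rw [patch_not he, patch_not he, patch_not fun h => he (hb h)]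

/-- the normalised difference -/
noncomputable def NF (W : ℕ) (Φ1 Φ2 : (E → ℝ) → ℝ) (J : E → ℝ) : ℝ :=
  (Φ1 J - Φ2 J) - (Φ1 (patch (FB W : Finset E) J (fun _ => 0)) -
    Φ2 (patch (FB W : Finset E) J (fun _ => 0)))

lemma View.win {μ : Measure ℝ} [IsProbabilityMeasure μ] (hμ : Integrable (fun x : ℝ => x) μ)
    {n N : ℕ} (h1 : View (n * N) Φ1 G1) (h2 : View (n * N) Φ2 G2) :
    Win μ n N (NF (n * N) Φ1 Φ2) := by
  have hm : Measurable (NF (n * N) Φ1 Φ2) := by
    unfold NF
    have hp : Measurable fun J : E → ℝ => patch ((FB (n * N) : Finset E) : Set E) J (fun _ => 0) :=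
      (measurable_patch _).comp (measurable_id.prodMk measurable_const)
    exact (h1.meas.sub h2.meas).sub ((h1.meas.comp hp).sub (h2.meas.comp hp))
  refine ⟨hm, ?_, ?_, ?_⟩
  · have iU : Integrable (fun J : E → ℝ => 2 * ∑ e ∈ FB (n * N), |J e|)
        (infinitePi fun _ : E => μ) :=
      (integrable_finsetSum _ fun e _ => (eval_int μ hμ e).abs).const_mul 2
    refine iU.mono' hm.aestronglyMeasurable (Eventually.of_forall fun J => ?_)
    rw [Real.norm_eq_abs]
    set J0 := patch ((FB (n * N) : Finset E) : Set E) J (fun _ => 0) with hJ0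
    have hJ : ∀ e, e ∉ FB (n * N) → J0 e = J e := fun e he =>
      patch_not (fun h => he (Finset.mem_coe.1 h)) _ _
    have a1 := h1.lip le_rfl hJ
    have a2 := h2.lip le_rfl hJ
    have a3 : ∑ e ∈ FB (n * N), |J0 e - J e| = ∑ e ∈ FB (n * N), |J e| :=
      Finset.sum_congr rfl fun e he => by
        rw [hJ0, patch_mem (Finset.mem_coe.2 he), zero_sub, abs_neg]
    rw [a3] at a1 a2
    have e1 : NF (n * N) Φ1 Φ2 J = (Φ2 J0 - Φ2 J) - (Φ1 J0 - Φ1 J) := by
      unfold NF; ring
    rw [e1]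
    refine (abs_sub _ _).trans ?_
    linarith
  · intro k hk J y
    have hb : blk N k ⊆ FB (n * N) := blk_sub_FB (mem_pos.1 hk)
    have hb' : ((blk N k : Finset E) : Set E) ⊆ ((FB (n * N) : Finset E) : Set E) := by
      exact_mod_cast hb
    have hJ : ∀ e, e ∉ blk N k → patch ((blk N k : Finset E) : Set E) J y e = J e := fun e he =>
      patch_not (fun h => he (Finset.mem_coe.1 h)) _ _
    have a1 := h1.lip hb hJ
    have a2 := h2.lip hb hJ
    have a3 : ∑ e ∈ blk N k, |patch ((blk N k : Finset E) : Set E) J y e - J e| =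
        ∑ e ∈ blk N k, |y e - J e| :=
      Finset.sum_congr rfl fun e he => by rw [patch_mem (Finset.mem_coe.2 he)]
    rw [a3] at a1 a2
    have e1 : NF (n * N) Φ1 Φ2 (patch ((blk N k : Finset E) : Set E) J y) - NF (n * N) Φ1 Φ2 J =
        (Φ1 (patch ((blk N k : Finset E) : Set E) J y) - Φ1 J) -
          (Φ2 (patch ((blk N k : Finset E) : Set E) J y) - Φ2 J) := by
      unfold NF
      rw [patch_patch hb']
      ring
    rw [e1]
    refine (abs_sub _ _).trans ?_
    linarith
  · intro l j hj J y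
    set x := nk (l * N) j with hx
    set m := l * N with hm
    have hxm : ∀ i, 0 ≤ x i ∧ x i + m ≤ ((n * N : ℕ) : ℤ) := by
      intro i
      have h3 := hj i
      have hN0 : (0 : ℤ) ≤ N := Nat.cast_nonneg N
      have hl0 : (0 : ℤ) ≤ l := Nat.cast_nonneg l
      have e1 : x i = l * N * j i := by rw [hx, nk, hm]; push_cast; ring
      rw [e1, hm]
      push_cast
      constructor
      · exact mul_nonneg (mul_nonneg hl0 hN0) h3.1
      · have h4 := mul_le_mul_of_nonneg_right h3.2 hN0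
        nlinarith
    have hs := SB_sub hxm
    set J' := patch (SB x m) J y with hJ'
    have hJ : ∀ e, e ∉ SB x m → J' e = J e := fun e he => patch_not he _ _
    have a1 := h1.diff h2 hxm hJ
    have a2 := h2.diff h1 hxm hJ
    have e1 : NF (n * N) Φ1 Φ2 J - NF (n * N) Φ1 Φ2 J' =
        (Φ1 J - Φ2 J) - (Φ1 J' - Φ2 J') := by
      unfold NF
      rw [hJ', patch_patch hs]
      ring
    rw [e1, abs_le]
    constructor <;> linarith

/-! ### Boxes -/

/-- A boundary term of the box: it depends neither on the couplings in the box nor on the spins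
in the interior of the box. -/
structure BT (L : ℕ) (w : (E → ℝ) → (V → ℝ) → ℝ) : Prop where
  coup : ∀ J J' s, (∀ e, e ∉ FB L → J e = J' e) → w J s = w J' s
  spins : ∀ J s s', (∀ x ∈ Bx L, (∃ i, x i = 0 ∨ x i = L) → s x = s' x) → w J s = w J s'
  meas : ∀ s, Measurable fun J => w J s

/-- the (negative) energy -/
noncomputable def HE (L : ℕ) (w : (E → ℝ) → (V → ℝ) → ℝ) (J : E → ℝ) (s : V → ℝ) : ℝ :=
  ∑ e ∈ FB L, J e * bp s e + w J s

/-- ground states in the box -/
def GSB (L : ℕ) (w : (E → ℝ) → (V → ℝ) → ℝ) (J : E → ℝ) (s : V → ℝ) : Prop :=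
  Spin s ∧ ∀ s', Spin s' → HE L w J s' ≤ HE L w J s

/-- the sites of the box -/
noncomputable def bxF (L : ℕ) : Finset V := Fintype.piFinset fun _ => Finset.Icc (0 : ℤ) L

lemma mem_bxF {L : ℕ} {x : V} : x ∈ bxF L ↔ x ∈ Bx L := by
  unfold bxF Bx
  rw [Fintype.mem_piFinset]
  simp only [Finset.mem_Icc, Set.mem_ofPred_eq]

open Classical in
/-- the configuration of a set of sites of the box -/
noncomputable def ext (L : ℕ) (T : {x // x ∈ bxF L} → Bool) : V → ℝ := fun v =>
  if h : v ∈ bxF L then (if T ⟨v, h⟩ then 1 else -1) else 1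

lemma ext_spin (L : ℕ) (T : {x // x ∈ bxF L} → Bool) : Spin (ext L T) := by
  intro v
  unfold ext
  split_ifs <;> simp

variable {L : ℕ} {w : (E → ℝ) → (V → ℝ) → ℝ}

lemma HE_congr (hw : BT L w) (J : E → ℝ) {s s' : V → ℝ} (h : ∀ x ∈ Bx L, s x = s' x) :
    HE L w J s = HE L w J s' := by
  unfold HE
  rw [hw.spins J s s' fun x hx _ => h x hx]
  congr 1
  refine Finset.sum_congr rfl fun e he => ?_
  rw [FB_iff] at he
  unfold bp
  rw [h _ he.1, h _ he.2]

lemma exists_ext {s : V → ℝ} (hs : Spin s) (L : ℕ) :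
    ∃ T, ∀ x ∈ Bx L, ext L T x = s x := by
  classical
  refine ⟨fun x => decide (s x.1 = 1), fun x hx => ?_⟩
  have hx' : x ∈ bxF L := mem_bxF.2 hx
  unfold ext
  rw [dif_pos hx']
  rcases hs x with h | h
  · simp [h]
  · have h2 : (-1 : ℝ) ≠ 1 := by norm_num
    simp [h, h2]

/-- the (negative) energy of the ground states -/
noncomputable def MX (L : ℕ) (w : (E → ℝ) → (V → ℝ) → ℝ) (J : E → ℝ) : ℝ :=
  Finset.univ.sup' ⟨fun _ => true, Finset.mem_univ _⟩ fun T : {x // x ∈ bxF L} → Bool =>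
    HE L w J (ext L T)

lemma MX_meas (hw : BT L w) : Measurable (MX L w) := by
  have h1 : MX L w = Finset.univ.sup' (⟨fun _ => true, Finset.mem_univ _⟩ :
      (Finset.univ : Finset ({x // x ∈ bxF L} → Bool)).Nonempty)
        fun (T : {x // x ∈ bxF L} → Bool) J => HE L w J (ext L T) := by
    funext J
    exact (Finset.sup'_apply (C := fun _ : E → ℝ => ℝ) (⟨fun _ => true, Finset.mem_univ _⟩ :
      (Finset.univ : Finset ({x // x ∈ bxF L} → Bool)).Nonempty)
        (fun (T : {x // x ∈ bxF L} → Bool) J => HE L w J (ext L T)) J).symm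
  rw [h1]
  refine Finset.measurable_sup' _ fun T _ => ?_
  unfold HE
  refine Measurable.add (Finset.measurable_sum _ fun e _ => ?_) (hw.meas _)
  exact (measurable_pi_apply e).mul measurable_const

lemma le_MX (hw : BT L w) (J : E → ℝ) {s : V → ℝ} (hs : Spin s) : HE L w J s ≤ MX L w J := by
  obtain ⟨T, hT⟩ := exists_ext hs L
  rw [← HE_congr hw J hT]
  unfold MX
  exact Finset.le_sup' (fun T : {x // x ∈ bxF L} → Bool => HE L w J (ext L T))
    (Finset.mem_univ T)

lemma ex_MX (L : ℕ) (w : (E → ℝ) → (V → ℝ) → ℝ) (J : E → ℝ) :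
    ∃ s, Spin s ∧ HE L w J s = MX L w J := by
  obtain ⟨T, -, hT⟩ := Finset.exists_mem_eq_sup'
    (⟨fun _ => true, Finset.mem_univ _⟩ :
      (Finset.univ : Finset ({x // x ∈ bxF L} → Bool)).Nonempty)
    (fun T : {x // x ∈ bxF L} → Bool => HE L w J (ext L T))
  exact ⟨ext L T, ext_spin L T, hT.symm⟩

lemma GSB.eq (hw : BT L w) {J : E → ℝ} {s : V → ℝ} (h : GSB L w J s) : HE L w J s = MX L w J := by
  obtain ⟨s', hs', h'⟩ := ex_MX L w J
  exact le_antisymm (le_MX hw J h.1) (h' ▸ h.2 s' hs')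

lemma ex_GSB (hw : BT L w) (J : E → ℝ) : ∃ s, GSB L w J s := by
  obtain ⟨s, hs, h⟩ := ex_MX L w J
  exact ⟨s, hs, fun s' hs' => by rw [h]; exact le_MX hw J hs'⟩

lemma sum_shift {F' : Finset E} {x : V} {f : E → ℝ} (hF : ∀ e ∈ F', st x e ∈ FB L)
    (hf : ∀ e, st (-x) e ∉ F' → f e = 0) : ∑ e ∈ FB L, f e = ∑ e ∈ F', f (st x e) := by
  classical
  rw [← Finset.sum_image (s := F') (g := st x) (f := f) fun a _ b _ h => st_inj x h]
  symm
  refine Finset.sum_subset (fun e he => ?_) fun e _ he => ?_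
  · rw [Finset.mem_image] at he
    obtain ⟨e', he', rfl⟩ := he
    exact hF e' he'
  · refine hf e fun h => he ?_
    rw [Finset.mem_image]
    exact ⟨_, h, st_surj x e⟩

lemma st_st (x y : V) (e : E) : st x (st y e) = st (x + y) e := by
  unfold st
  simp only
  rw [add_assoc, add_comm y x]

lemma st_neg (x : V) (e : E) : st (-x) (st x e) = e := by
  rw [st_st, neg_add_cancel]
  unfold st
  simp

lemma sh_st (x : V) (J : E → ℝ) (e : E) : sh (-x) J (st x e) = J e := by
  rw [sh_apply, st_neg]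

lemma bp_st (x : V) (s : V → ℝ) (e : E) : bp (fun v => s (v - x)) (st x e) = bp s e := by
  unfold bp st
  simp only
  congr 2
  · abel_nf
  · abel_nf

/-- A box, seen from a window in its interior. -/
lemma box_view (hw : BT L w) {x0 : V} (hx0 : ∀ i, 0 < x0 i ∧ x0 i + W < L) :
    View W (fun J => MX L w (sh (-x0) J))
      (fun J s => GSB L w (sh (-x0) J) (fun v => s (v - x0))) := by
  classical
  have hx0' : ∀ i, 0 ≤ x0 i ∧ x0 i + W ≤ L := fun i =>
    ⟨(hx0 i).1.le, (hx0 i).2.le⟩
  refine ⟨(MX_meas hw).comp (measurable_sh _), ?_, ?_, ?_, ?_⟩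
  · intro J
    obtain ⟨s, hs⟩ := ex_GSB hw (sh (-x0) J)
    refine ⟨fun v => s (v + x0), ?_⟩
    simp only [sub_add_cancel]
    exact hs
  · intro J s hs v
    have := hs.1 (v + x0)
    simpa using this
  · intro J J' s F hs hF hJ
    have hF' : ∀ e ∈ F, st x0 e ∈ FB L := fun e he =>
      Finset.mem_coe.1 (SB_sub hx0' ⟨e, Finset.mem_coe.2 (hF he), rfl⟩)
    have hoff : ∀ e, st (-x0) e ∉ F → sh (-x0) J' e = sh (-x0) J e := fun e he => by
      rw [sh_apply, sh_apply]; exact hJ _ he
    have e1 : w (sh (-x0) J') (fun v => s (v - x0)) = w (sh (-x0) J) (fun v => s (v - x0)) := by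
      refine hw.coup _ _ _ fun e he => hoff e fun h => he ?_
      have := hF' _ h
      rwa [st_surj] at this
    have e2 := le_MX hw (sh (-x0) J') hs.1
    rw [← hs.eq hw]
    refine le_trans (le_of_eq ?_) e2
    unfold HE
    rw [e1]
    have e3 := sum_shift (L := L) (F' := F) (x := x0)
      (f := fun e => (sh (-x0) J' e - sh (-x0) J e) * bp (fun v => s (v - x0)) e) hF'
      (fun e he => by rw [hoff e he, sub_self, zero_mul])
    have e4 : ∀ e ∈ F, (sh (-x0) J' (st x0 e) - sh (-x0) J (st x0 e)) *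
        bp (fun v => s (v - x0)) (st x0 e) = (J' e - J e) * bp s e := fun e _ => by
      rw [sh_st, sh_st, bp_st]
    rw [Finset.sum_congr rfl e4] at e3
    rw [← e3]
    have e5 : ∀ e, (sh (-x0) J' e - sh (-x0) J e) * bp (fun v => s (v - x0)) e =
        sh (-x0) J' e * bp (fun v => s (v - x0)) e -
          sh (-x0) J e * bp (fun v => s (v - x0)) e := fun e => by ring
    simp only [e5]
    rw [Finset.sum_sub_distrib]
    ring
  · intro x m hx J J' s u hs hu hJ
    set y : V := x0 + x with hy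
    have hy0 : ∀ i, 0 < y i ∧ y i + m < L := by
      intro i
      have h1 := hx0 i
      have h2 := hx i
      rw [hy, Pi.add_apply]
      constructor <;> linarith [h1.1, h1.2, h2.1, h2.2]
    have hyL : ∀ i, 0 ≤ y i ∧ y i + m ≤ L := fun i => ⟨(hy0 i).1.le, (hy0 i).2.le⟩
    -- the hybrid
    set s1 : V → ℝ := fun v => s (v - x0) with hs1
    set u1 : V → ℝ := fun v => if v - y ∈ Bx m then u (v - x0) else s (v - x0) with hu1
    have hsp : Spin u1 := by
      intro v
      simp only [hu1]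
      split_ifs
      · exact hu _
      · exact hs.1 v
    have hoff : ∀ e, st (-y) e ∉ FB m → sh (-x0) J' e = sh (-x0) J e := fun e he => by
      rw [sh_apply, sh_apply]
      refine hJ _ ?_
      rintro ⟨e', he', h⟩
      apply he
      have h3 : st x0 (st x e') = e := by rw [h, st_surj]
      rw [st_st, ← hy] at h3
      rw [← h3, st_neg]
      exact Finset.mem_coe.1 he'
    have hFBy : ∀ e ∈ FB m, st y e ∈ FB L := fun e he =>
      Finset.mem_coe.1 (SB_sub hyL ⟨e, Finset.mem_coe.2 he, rfl⟩)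
    have hends : ∀ e : E, (st (-y) e).1 = e.1 - y ∧
        (st (-y) e).1 + (Pi.single (st (-y) e).2 (1 : ℤ) : V) =
          e.1 + (Pi.single e.2 (1 : ℤ) : V) - y := by
      intro e
      unfold st
      simp only
      constructor
      · rw [sub_eq_add_neg]
      · abel
    have e1 : w (sh (-x0) J') u1 = w (sh (-x0) J) s1 := by
      rw [hw.coup _ (sh (-x0) J) _ fun e he => hoff e fun h => he ?_]
      · refine hw.spins _ _ _ fun v hv hvb => ?_
        have h3 : v - y ∉ Bx m := by
          intro h4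
          obtain ⟨i, hi⟩ := hvb
          have h5 := h4 i
          have h6 := hy0 i
          rw [Pi.sub_apply] at h5
          rcases hi with hi | hi
          · rw [hi] at h5; omega
          · rw [hi] at h5; omega
        simp only [hu1, hs1]
        rw [if_neg h3]
      · have := hFBy _ h
        rwa [st_surj] at this
    have e2 := le_MX hw (sh (-x0) J') hsp
    show MX L w (sh (-x0) J) + _ - _ ≤ MX L w (sh (-x0) J')
    rw [← hs.eq hw]
    refine le_trans ?_ e2
    unfold HE
    rw [e1]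
    set f : E → ℝ := fun e => sh (-x0) J' e * bp u1 e - sh (-x0) J e * bp s1 e with hf
    have hDBy : ∀ e ∈ DB m, st y e ∈ FB L := by
      intro e he
      have hc : ∀ i, -1 ≤ e.1 i ∧ e.1 i ≤ m := by
        classical
        unfold DB at he
        rw [Finset.mem_image] at he
        obtain ⟨⟨i0, t, z⟩, hx, rfl⟩ := he
        simp only [Finset.mem_product, Finset.mem_insert, Finset.mem_singleton,
          Finset.mem_Icc] at hx
        intro i
        simp only [pt]
        split_ifs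
        · rcases hx.2.2 with h | h <;> rw [h] <;> constructor <;> omega
        · constructor <;> omega
      rw [mem_FB]
      unfold st
      simp only [Pi.add_apply]
      refine ⟨fun i => ?_, ?_⟩
      · have h1 := hc i
        have h2 := hy0 i
        constructor <;> omega
      · have h1 := hc e.2
        have h2 := hy0 e.2
        omega
    have e3 := sum_shift (L := L) (F' := FB m ∪ DB m) (x := y) (f := f)
      (fun e he => by
        rcases Finset.mem_union.1 he with h | h
        · exact hFBy e h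
        · exact hDBy e h)
      (fun e he => by
        rw [Finset.mem_union, not_or] at he
        have h1 : ((st (-y) e).1 ∈ Bx m ↔
            ((st (-y) e).1 + (Pi.single (st (-y) e).2 (1 : ℤ) : V)) ∈ Bx m) := by
          by_contra h
          exact he.2 (DB_of h)
        have h2 : ¬ (st (-y) e).1 ∈ Bx m := fun h => he.1 (FB_iff.2 ⟨h, h1.1 h⟩)
        have h3 : ¬ ((st (-y) e).1 + (Pi.single (st (-y) e).2 (1 : ℤ) : V)) ∈ Bx m :=
          fun h => h2 (h1.2 h)
        rw [(hends e).1] at h2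
        rw [(hends e).2] at h3
        have h4 : bp u1 e = bp s1 e := by
          unfold bp
          simp only [hu1, hs1]
          rw [if_neg h2, if_neg h3]
        simp only [hf]
        rw [h4, hoff e he.1, sub_self])
    rw [Finset.sum_union (FB_disj m)] at e3
    have hyx : ∀ e, st y e = st x0 (st x e) := fun e => by rw [st_st]
    have e4 : ∑ e ∈ FB m, f (st y e) =
        ∑ e ∈ FB m, (J' (st x e) * bp u (st x e) - J (st x e) * bp s (st x e)) := by
      refine Finset.sum_congr rfl fun e he => ?_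
      rw [FB_iff] at he
      have h5 : bp u1 (st y e) = bp u (st x e) := by
        rw [← bp_st x0 u (st x e), ← hyx]
        have h6 := hends (st y e)
        rw [st_neg] at h6
        unfold bp
        simp only [hu1]
        rw [← h6.1, ← h6.2, if_pos he.1, if_pos he.2]
      have h6 : bp s1 (st y e) = bp s (st x e) := by
        rw [hyx]; exact bp_st x0 s (st x e)
      simp only [hf]
      rw [h5, h6, hyx, sh_st, sh_st]
    have e5 : -(2 * ∑ e ∈ DB m, |J (st x e)|) ≤ ∑ e ∈ DB m, f (st y e) := by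
      rw [Finset.mul_sum, ← Finset.sum_neg_distrib]
      refine Finset.sum_le_sum fun e he => ?_
      have h3 : J' (st x e) = J (st x e) := hJ _ (DB_notSB he)
      simp only [hf]
      rw [hyx, sh_st, sh_st, h3, ← mul_sub, ← hyx]
      have h4 := hsp.bp_abs (st y e)
      have h5 : |bp s1 (st y e)| = 1 := Spin.bp_abs hs.1 _
      have h6 : |J (st x e) * (bp u1 (st y e) - bp s1 (st y e))| ≤ 2 * |J (st x e)| := by
        rw [abs_mul]
        have := abs_sub (bp u1 (st y e)) (bp s1 (st y e))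
        nlinarith [abs_nonneg (J (st x e))]
      have := (abs_le.1 h6).1
      linarith
    have e6 : ∑ e ∈ FB L, f e = ∑ e ∈ FB L, sh (-x0) J' e * bp u1 e -
        ∑ e ∈ FB L, sh (-x0) J e * bp s1 e := by
      simp only [hf]
      rw [Finset.sum_sub_distrib]
    linarith

end Pool.Agent.K3h93.EF
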