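import Pool.Agent.K3h93.EF.CE
import Pool.Agent.K3h93.EA.Est

/-!
# Differences of two energies in a window: the estimate for one superblock
-/

set_option autoImplicit false
set_option linter.unusedSectionVars false

open MeasureTheory Measure Filter Topology

namespace Pool.Agent.K3h93.EF

open Pool.Agent.K3h93.EA

variable (μ : Measure ℝ) [IsProbabilityMeasure μ]

/-- the bonds in the box of side `m` at the position `x` -/
def SB (x : V) (m : ℕ) : Set E := st x '' ((FB m : Finset E) : Set E)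

/-- tilts of the blocks -/
structure Tl (N : ℕ) (g : V → (E → ℝ) → ℝ) : Prop where
  dep : ∀ k, Dep (blk N k : Finset E) (g k)
  meas : ∀ k, Measurable (g k)
  le : ∀ k J, |g k J| ≤ 1
  mean : ∀ k, ∫ x, g k x ∂(infinitePi fun _ : E => μ) = 0

/-- differences of two energies in the window `[0, n N] ^ 2` -/
structure Win (n N : ℕ) (Φ : (E → ℝ) → ℝ) : Prop where
  meas : Measurable Φ
  int : Integrable Φ (infinitePi fun _ : E => μ)
  lip : ∀ k ∈ pos n, ∀ J y : E → ℝ, |Φ (patch (blk N k : Finset E) J y) - Φ J| ≤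
    2 * ∑ e ∈ blk N k, |y e - J e|
  bdry : ∀ (l : ℕ) (j : V), (∀ i, 0 ≤ j i ∧ (l : ℤ) * j i + l ≤ n) → ∀ J y : E → ℝ,
    |Φ J - Φ (patch (SB (nk (l * N) j) (l * N)) J y)| ≤
      4 * ∑ e ∈ DB (l * N), |J (st (nk (l * N) j) e)|

variable {μ} {N n : ℕ} {g : V → (E → ℝ) → ℝ} {Φ : (E → ℝ) → ℝ} {h : ℝ}

/-- integrating out the couplings of a block -/
noncomputable def Psi (μ : Measure ℝ) (N : ℕ) (g : V → (E → ℝ) → ℝ) (Φ : (E → ℝ) → ℝ) (k : V)
    (J : E → ℝ) : ℝ :=
  ∫ y, g k y * Φ (patch (blk N k : Finset E) J y) ∂(infinitePi fun _ : E => μ)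

/-- the first moment -/
noncomputable def MU (μ : Measure ℝ) : ℝ := ∫ x, |x| ∂μ

lemma MU_nonneg : 0 ≤ MU μ := integral_nonneg fun _ => abs_nonneg _

lemma abs_eval (e : E) : ∫ J : E → ℝ, |J e| ∂(infinitePi fun _ : E => μ) = MU μ := by
  have h7 := (measurePreserving_eval_infinitePi (fun _ : E => μ) e)
  have h8 := integral_map (μ := infinitePi fun _ : E => μ) (φ := Function.eval e)
    h7.measurable.aemeasurable (f := fun x : ℝ => |x|)
    (continuous_abs.measurable.aestronglyMeasurable)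
  rw [h7.map_eq] at h8
  exact h8.symm

lemma Zmeas (hg : Tl μ N g) (K : Finset V) : Measurable (Zf h g K) := Zf_meas hg.meas

lemma Zb (hg : Tl μ N g) (h0 : 0 ≤ h) (K : Finset V) (J : E → ℝ) :
    |Zf h g K J| ≤ (1 + h) ^ K.card := Zf_le h0 hg.le J

/-- products of bounded and integrable functions -/
lemma bi {α : Type*} [MeasurableSpace α] {ν : Measure α} {u f : α → ℝ} {c : ℝ}
    (hu : Measurable u) (hc : ∀ p, |u p| ≤ c) (hf : Integrable f ν) :
    Integrable (fun p => u p * f p) ν :=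
  hf.bdd_mul hu.aestronglyMeasurable (c := c)
    (Eventually.of_forall fun p => by rw [Real.norm_eq_abs]; exact hc p)

lemma psi_eq (hN : 1 ≤ N) (hg : Tl μ N g) (hΦ : Win μ n N Φ) (h0 : 0 ≤ h) {K : Finset V} {k : V}
    (hk : k ∉ K) :
    ∫ J, Zf h g K J * (g k J * Φ J) ∂(infinitePi fun _ : E => μ) =
      ∫ J, Zf h g K J * Psi μ N g Φ k J ∂(infinitePi fun _ : E => μ) := by
  set P := infinitePi fun _ : E => μ with hP
  have hd : Dep ((blk N k : Finset E) : Set E)ᶜ (Zf h g K) := Zf_dep hg.dep fun j hj =>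
    Set.subset_compl_iff_disjoint_right.2 (blk_disj hN (fun e => hk (e ▸ hj)))
  rw [← int_fst μ (fun J => Zf h g K J * (g k J * Φ J)),
    ← sw_int μ ((blk N k : Finset E) : Set E) (fun p => Zf h g K p.1 * (g k p.1 * Φ p.1))]
  have e1 : ∀ p : (E → ℝ) × (E → ℝ), Zf h g K (sw ((blk N k : Finset E) : Set E) p).1 *
      (g k (sw ((blk N k : Finset E) : Set E) p).1 *
        Φ (sw ((blk N k : Finset E) : Set E) p).1) =
      Zf h g K p.1 * (g k p.2 * Φ (patch (blk N k : Finset E) p.1 p.2)) := by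
    intro p
    show Zf h g K (patch _ p.1 p.2) * (g k (patch _ p.1 p.2) * Φ (patch _ p.1 p.2)) = _
    rw [hd.patch_out disjoint_compl_left, (hg.dep k).patch_in le_rfl]
  simp only [e1]
  have iΦ : Integrable (fun p : (E → ℝ) × (E → ℝ) => Φ (patch (blk N k : Finset E) p.1 p.2))
      (P.prod P) :=
    (sw_law μ ((blk N k : Finset E) : Set E)).integrable_comp_of_integrable (hΦ.int.comp_fst _)
  have i1 : Integrable (fun p : (E → ℝ) × (E → ℝ) =>
      Zf h g K p.1 * (g k p.2 * Φ (patch (blk N k : Finset E) p.1 p.2))) (P.prod P) :=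
    bi ((Zmeas hg K).comp measurable_fst) (c := (1 + h) ^ K.card) (fun p => Zb hg h0 K _)
      (bi ((hg.meas k).comp measurable_snd) (c := 1) (fun p => hg.le k _) iΦ)
  rw [integral_prod _ i1]
  refine integral_congr_ae (Eventually.of_forall fun J => ?_)
  simp only
  rw [integral_const_mul]
  rfl

lemma psi_le (hμ : Integrable (fun x : ℝ => x) μ) (hg : Tl μ N g) (hΦ : Win μ n N Φ) {k : V}
    (hk : k ∈ pos n) (J : E → ℝ) :
    |Psi μ N g Φ k J| ≤ 2 * ((blk N k).card * MU μ) := by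
  set P := infinitePi fun _ : E => μ with hP
  set J0 : E → ℝ := patch (blk N k : Finset E) J (fun _ => 0) with hJ0
  have hpp : ∀ y, patch ((blk N k : Finset E) : Set E) J0 y =
      patch ((blk N k : Finset E) : Set E) J y := by
    intro y
    funext e
    by_cases he : e ∈ ((blk N k : Finset E) : Set E)
    · rw [patch_mem he, patch_mem he]
    · rw [patch_not he, patch_not he, hJ0, patch_not he]
  have hb : ∀ y, |Φ (patch (blk N k : Finset E) J y) - Φ J0| ≤ 2 * ∑ e ∈ blk N k, |y e| := by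
    intro y
    have h1 := hΦ.lip k hk J0 y
    rw [hpp] at h1
    refine h1.trans (le_of_eq ?_)
    congr 1
    refine Finset.sum_congr rfl fun e he => ?_
    rw [hJ0, patch_mem (Finset.mem_coe.2 he), sub_zero]
  have hey : ∀ e : E, Integrable (fun y : E → ℝ => |y e|) P := fun e => (eval_int μ hμ e).abs
  have iL : Integrable (fun y : E → ℝ => 2 * ∑ e ∈ blk N k, |y e|) P :=
    (integrable_finsetSum _ fun e _ => hey e).const_mul 2
  have hm : Measurable fun y => Φ (patch (blk N k : Finset E) J y) - Φ J0 :=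
    (hΦ.meas.comp ((measurable_patch _).comp
      (measurable_const.prodMk measurable_id))).sub measurable_const
  have iD : Integrable (fun y => Φ (patch (blk N k : Finset E) J y) - Φ J0) P :=
    iL.mono' hm.aestronglyMeasurable (Eventually.of_forall fun y => by
      rw [Real.norm_eq_abs]; exact hb y)
  have e1 : Psi μ N g Φ k J = ∫ y, g k y * (Φ (patch (blk N k : Finset E) J y) - Φ J0) ∂P := by
    have e2 : ∫ y, g k y * Φ J0 ∂P = 0 := by
      rw [integral_mul_const, hg.mean, zero_mul]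
    unfold Psi
    have i3 : Integrable (fun y => g k y * Φ J0) P :=
      (int_bdd μ (hg.meas k) (hg.le k)).mul_const _
    have i2 : Integrable (fun y => g k y * (Φ (patch (blk N k : Finset E) J y) - Φ J0)) P :=
      bi (hg.meas k) (hg.le k) iD
    have e3 : ∀ y, g k y * Φ (patch (blk N k : Finset E) J y) =
        g k y * (Φ (patch (blk N k : Finset E) J y) - Φ J0) + g k y * Φ J0 := fun y => by ring
    simp only [e3]
    rw [integral_add i2 i3, e2, add_zero]
  rw [e1]
  refine abs_integral_le_integral_abs.trans ?_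
  have h2 : ∫ y, |g k y * (Φ (patch (blk N k : Finset E) J y) - Φ J0)| ∂P ≤
      ∫ y, 2 * ∑ e ∈ blk N k, |y e| ∂P := by
    refine integral_mono (bi (hg.meas k) (hg.le k) iD).abs iL fun y => ?_
    simp only
    rw [abs_mul]
    have := hb y
    have := hg.le k y
    nlinarith [abs_nonneg (g k y), abs_nonneg (Φ (patch (blk N k : Finset E) J y) - Φ J0)]
  refine h2.trans (le_of_eq ?_)
  rw [integral_const_mul, integral_finsetSum _ fun e _ => hey e]
  have : ∀ e ∈ blk N k, ∫ y : E → ℝ, |y e| ∂P = MU μ := fun e _ => abs_eval e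
  rw [Finset.sum_congr rfl this, Finset.sum_const, nsmul_eq_mul]

lemma psi_meas (hg : Tl μ N g) (hΦ : Win μ n N Φ) (k : V) : Measurable (Psi μ N g Φ k) := by
  unfold Psi
  have h1 : Measurable fun p : (E → ℝ) × (E → ℝ) =>
      g k p.2 * Φ (patch (blk N k : Finset E) p.1 p.2) :=
    ((hg.meas k).comp measurable_snd).mul (hΦ.meas.comp (measurable_patch _))
  exact (h1.stronglyMeasurable.integral_prod_right).measurable

/-- the upper bound by the boundary of a box -/
lemma upper1 (hN : 1 ≤ N) (hμ : Integrable (fun x : ℝ => x) μ) (hg : Tl μ N g)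
    (hΦ : Win μ n N Φ) (h0 : 0 ≤ h) (h1 : h ≤ 1) {x : V} {m : ℕ}
    (hb : ∀ J y : E → ℝ, |Φ J - Φ (patch (SB x m) J y)| ≤ 4 * ∑ e ∈ DB m, |J (st x e)|)
    {K : Finset V} (hK : ∀ k ∈ K, ((blk N k : Finset E) : Set E) ⊆ SB x m)
    (hK' : ∀ k ∈ K, ∀ e ∈ DB m, st x e ∉ blk N k) :
    ∫ J, Zf h g K J * Φ J ∂(infinitePi fun _ : E => μ) -
      ∫ J, Φ J ∂(infinitePi fun _ : E => μ) ≤ 16 * (m + 1) * MU μ := by
  set P := infinitePi fun _ : E => μ with hP
  have hdis := blk_disj hN
  have hZ1 : ∫ J, Zf h g K J ∂P = 1 := Zf_mean μ hdis hg.dep hg.meas hg.le h0 hg.mean K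
  have hZ0 : ∀ J, 0 ≤ Zf h g K J := fun J => Zf_nonneg h0 h1 hg.le J
  have hd : Dep (SB x m) (Zf h g K) := Zf_dep hg.dep hK
  have iΦ : Integrable (fun p : (E → ℝ) × (E → ℝ) => Φ (patch (SB x m) p.1 p.2))
      (P.prod P) :=
    (sw_law μ (SB x m)).integrable_comp_of_integrable (hΦ.int.comp_fst _)
  have i1 : Integrable (fun p : (E → ℝ) × (E → ℝ) => Zf h g K p.1 * Φ (patch (SB x m) p.1 p.2))
      (P.prod P) := bi ((Zmeas hg K).comp measurable_fst) (fun p => Zb hg h0 K _) iΦ
  have i2 : Integrable (fun p : (E → ℝ) × (E → ℝ) => Zf h g K p.1 * Φ p.1)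
      (P.prod P) := bi ((Zmeas hg K).comp measurable_fst) (fun p => Zb hg h0 K _)
        (hΦ.int.comp_fst _)
  have e1 : ∫ p, Zf h g K p.1 * Φ (patch (SB x m) p.1 p.2) ∂(P.prod P) = ∫ J, Φ J ∂P := by
    have e2 : ∀ p : (E → ℝ) × (E → ℝ), Zf h g K p.1 * Φ (patch (SB x m) p.1 p.2) =
        (fun q : (E → ℝ) × (E → ℝ) => Φ q.1 * Zf h g K q.2) (sw (SB x m) p) := by
      intro p
      show _ = Φ (patch (SB x m) p.1 p.2) * Zf h g K (patch (SB x m) p.2 p.1)
      rw [hd.patch_in le_rfl, mul_comm]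
    simp only [e2]
    rw [sw_int μ (SB x m) (fun q : (E → ℝ) × (E → ℝ) => Φ q.1 * Zf h g K q.2),
      integral_prod_mul Φ (Zf h g K), hZ1, mul_one]
  have hJi : ∀ e : E, Integrable (fun J : E → ℝ => Zf h g K J * |J e|) P := fun e =>
    bi (Zmeas hg K) (Zb hg h0 K) (eval_int μ hμ e).abs
  have hval : ∀ e ∈ DB m, ∫ J, Zf h g K J * |J (st x e)| ∂P = MU μ := by
    intro e he
    have hd : Dep ({st x e} : Set E)ᶜ (Zf h g K) := Zf_dep hg.dep
      fun j hj e' he' => by
        intro hc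
        rw [Set.mem_singleton_iff] at hc
        subst hc
        exact hK' j hj e he (Finset.mem_coe.1 he')
    have hd' : Dep ({st x e} : Set E) (fun J : E → ℝ => |J (st x e)|) := fun J J' hJ => by
      simp only [hJ _ rfl]
    rw [indep_int μ hd hd', hZ1, one_mul]
    exact abs_eval _
  rw [← e1, ← int_fst μ (fun J => Zf h g K J * Φ J), ← integral_sub i2 i1]
  have iU : Integrable (fun p : (E → ℝ) × (E → ℝ) =>
      4 * ∑ e ∈ DB m, Zf h g K p.1 * |p.1 (st x e)|) (P.prod P) :=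
    (integrable_finsetSum _ fun e _ => (hJi (st x e)).comp_fst _).const_mul 4
  have h2 : ∫ p, (Zf h g K p.1 * Φ p.1 - Zf h g K p.1 * Φ (patch (SB x m) p.1 p.2)) ∂(P.prod P) ≤
      ∫ p : (E → ℝ) × (E → ℝ), 4 * ∑ e ∈ DB m, Zf h g K p.1 * |p.1 (st x e)| ∂(P.prod P) := by
    refine integral_mono (i2.sub i1) iU fun p => ?_
    simp only
    rw [← mul_sub, ← Finset.mul_sum]
    have h3 := (le_abs_self _).trans (hb p.1 p.2)
    have := mul_le_mul_of_nonneg_left h3 (hZ0 p.1)
    linarith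
  refine h2.trans ?_
  rw [int_fst μ (fun J : E → ℝ => 4 * ∑ e ∈ DB m, Zf h g K J * |J (st x e)|),
    integral_const_mul, integral_finsetSum _ fun e _ => hJi (st x e),
    Finset.sum_congr rfl hval, Finset.sum_const, nsmul_eq_mul]
  have h3 : ((DB m).card : ℝ) ≤ 4 * (m + 1) := by
    have := card_DB m
    have h4 : ((DB m).card : ℝ) ≤ ((4 * (m + 1) : ℕ) : ℝ) := by exact_mod_cast this
    push_cast at h4
    exact h4
  have h4 : 0 ≤ MU μ := MU_nonneg
  nlinarith

end Pool.Agent.K3h93.EF
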