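import Pool.Agent.K3h93.EF.Brg

/-!
# The estimate for the spins in a window
-/

set_option autoImplicit false
set_option linter.unusedSectionVars false

open MeasureTheory Measure Filter Topology

namespace Pool.Agent.K3h93.EF

open Pool.Agent.K3h93.EA

variable {μ : Measure ℝ} [IsProbabilityMeasure μ]

lemma upd_patch (e : E) (J : E → ℝ) (t : ℝ) : upd e J t = patch ({e} : Set E) J (fun _ => t) :=
  (patch_upd e J fun _ => t).symm

variable {W : ℕ} {Φ Φ1 Φ2 : (E → ℝ) → ℝ} {G G1 G2 : (E → ℝ) → (V → ℝ) → Prop} {e : E}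

lemma View.upd_sub (hv : View W Φ G) (he : e ∈ FB W) (J : E → ℝ) (c t : ℝ)
    (h : ∃ s, G J s ∧ bp s e = c) : Φ J + (t - J e) * c ≤ Φ (upd e J t) := by
  obtain ⟨s, hs, rfl⟩ := h
  have h1 := hv.sub J (upd e J t) s {e} hs (Finset.singleton_subset_iff.2 he)
    (fun e' he' => upd_ne (fun h => he' (Finset.mem_singleton.2 h)) _ _)
  rwa [Finset.sum_singleton, upd_self] at h1

lemma View.upd_lip (hv : View W Φ G) (he : e ∈ FB W) (J : E → ℝ) (t t' : ℝ) :
    |Φ (upd e J t) - Φ (upd e J t')| ≤ |t - t'| := by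
  have h1 := hv.lip (F := {e}) (Finset.singleton_subset_iff.2 he) (J := upd e J t')
    (J' := upd e J t) (fun e' he' => by
      have h : e' ≠ e := fun h => he' (Finset.mem_singleton.2 h)
      rw [upd_ne h, upd_ne h])
  rwa [Finset.sum_singleton, upd_self, upd_self] at h1

lemma bp_clp {s : V → ℝ} (hs : Spin s) (e : E) : clp 1 (bp s e) = bp s e := by
  unfold clp
  rcases hs.bp_cases e with h | h <;> rw [h] <;> norm_num

lemma bpm {σ : (E → ℝ) → V → ℝ} (hσ : Measurable σ) (e : E) :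
    Measurable fun J => bp (σ J) e := by
  unfold bp
  exact ((measurable_pi_apply _).comp hσ).mul ((measurable_pi_apply _).comp hσ)

lemma View.bridge (hv : View W Φ G) (he : e ∈ FB W) {σ : (E → ℝ) → V → ℝ}
    (hσ : Measurable σ) (hσG : ∀ᵐ J ∂(infinitePi fun _ : E => μ), G J (σ J))
    {φ : (E → ℝ) → ℝ} (hφ : Measurable φ) (hφ1 : ∀ J, |φ J| ≤ 1)
    {κ : ℝ × ℝ → ℝ} {C θ ε : ℝ} (hθ : 0 < θ) (hκm : Measurable κ)
    (hκ0 : ∀ p, 0 ≤ κ p) (hκC : ∀ p, κ p ≤ C) (hκθ : ∀ p, κ p ≠ 0 → θ ≤ |p.1 - p.2|)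
    (hin : ∀ t, ∫ t', κ (t, t') ∂μ ≤ 1) (hε : 1 - ε ≤ ∫ p, κ p ∂(μ.prod μ))
    (hbt : ∀ c, ∫ p, Set.indicator {p : ℝ × ℝ | Btw c p} κ p ∂(μ.prod μ) ≤ ε) :
    |∫ J, φ J * bp (σ J) e ∂(infinitePi fun _ : E => μ) -
      ∫ p, φ (upd e p.1 p.2.1) * (κ p.2 / (p.2.1 - p.2.2)) *
        (Φ (upd e p.1 p.2.1) - Φ (upd e p.1 p.2.2)) ∂(TT μ)| ≤ 3 * ε := by
  have h1 := EF.bridge (e := e) (B := fun J c => ∃ s, G J s ∧ bp s e = c) hv.meas
    (fun J c h => by
      obtain ⟨s, hs, rfl⟩ := h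
      exact (hv.spin _ _ hs).bp_cases e)
    (fun J => by
      obtain ⟨s, hs⟩ := hv.ex J
      exact ⟨_, s, hs, rfl⟩)
    (hv.upd_sub he) (f := fun J => clp 1 (bp (σ J) e))
    ((clp_meas 1).comp (bpm hσ e)) (fun J => clp_le zero_le_one)
    (by
      filter_upwards [hσG] with J hJ
      exact ⟨σ J, hJ, (bp_clp (hv.spin _ _ hJ) e).symm⟩)
    hφ hφ1 hθ hκm hκ0 hκC hκθ hin hε hbt
  have h2 : ∫ J, φ J * clp 1 (bp (σ J) e) ∂(infinitePi fun _ : E => μ) =
      ∫ J, φ J * bp (σ J) e ∂(infinitePi fun _ : E => μ) := by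
    refine integral_congr_ae ?_
    filter_upwards [hσG] with J hJ
    rw [bp_clp (hv.spin _ _ hJ) e]
  rwa [h2] at h1

/-- **The estimate for the spins in a window.** -/
lemma window_est {N : ℕ} (hN : 1 ≤ N) (hμ : Integrable (fun x : ℝ => x) μ)
    (hat : ∀ x, μ {x} = 0) {ε : ℝ} (hε : 0 < ε) {e0 : E} (he0 : e0 ∈ blk N 0) :
    ∃ n : ℕ, 1 ≤ n ∧ ∀ (Φ1 Φ2 : (E → ℝ) → ℝ) (G1 G2 : (E → ℝ) → (V → ℝ) → Prop),
      View (n * N) Φ1 G1 → View (n * N) Φ2 G2 → ∀ (σ1 σ2 : (E → ℝ) → V → ℝ), Measurable σ1 →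
      Measurable σ2 → (∀ᵐ J ∂(infinitePi fun _ : E => μ), G1 J (σ1 J)) →
      (∀ᵐ J ∂(infinitePi fun _ : E => μ), G2 J (σ2 J)) →
      ∀ φ : V → (E → ℝ) → ℝ, (∀ k, Measurable (φ k)) → (∀ k J, |φ k J| ≤ 1) →
      (∀ k, Dep (blk N k : Finset E) (φ k)) →
      ∑ k ∈ pos n, |∫ J, φ k J * bp (σ1 J) (st (nk N k) e0)
          ∂(infinitePi fun _ : E => μ) -
        ∫ J, φ k J * bp (σ2 J) (st (nk N k) e0)
          ∂(infinitePi fun _ : E => μ)| ≤ ε * (n : ℝ) ^ 2 := by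
  set P := infinitePi fun _ : E => μ with hP
  obtain ⟨κ, C, θ, hC, hθ, hκm, hκ0, hκC, hκθ, hin, hmass, hbt⟩ :=
    exists_kernel hat (ε := ε / 12) (by linarith)
  set D : ℝ := C / θ with hD
  have hD0 : 0 < D := by positivity
  obtain ⟨n, hn, hmain⟩ := main_abs hN hμ (ε := ε / (4 * D)) (by positivity)
  refine ⟨n, hn, fun Φ1 Φ2 G1 G2 v1 v2 σ1 σ2 hσ1 hσ2 hG1 hG2 φ hφm hφk1 hφkd => ?_⟩
  set χ : ℝ × ℝ → ℝ := fun p => κ p / (p.1 - p.2) with hχ
  have hχm : Measurable χ := hκm.div (by fun_prop)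
  have hχD : ∀ p, |χ p| ≤ D := by
    intro p
    by_cases h0 : κ p = 0
    · simp only [hχ]
      rw [h0, zero_div, abs_zero]
      exact hD0.le
    · have h1 := hκθ p h0
      simp only [hχ]
      rw [abs_div, abs_of_nonneg (hκ0 p), hD]
      exact div_le_div₀ hC.le (hκC p) hθ h1
  -- the local functions
  have hek : ∀ k, st (nk N k) e0 ∈ ((blk N k : Finset E) : Set E) := fun k =>
    Finset.mem_coe.2 ((blk_shift N k e0).1 he0)
  set g : V → (E → ℝ) → ℝ := fun k J => gt μ (st (nk N k) e0) (φ k) χ J / (2 * D) with hg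
  have hTl : Tl μ N g := by
    refine ⟨fun k J J' hJ => ?_, fun k => (gt_meas (hφm k) hχm _).div_const _, fun k J => ?_,
      fun k => ?_⟩
    · simp only [hg]
      rw [gt_dep (hφkd k) (hek k) J J' hJ]
    · simp only [hg]
      rw [abs_div, abs_of_pos (by linarith : (0 : ℝ) < 2 * D), div_le_one (by linarith)]
      exact gt_le (hφk1 k) hχD J
    · simp only [hg]
      rw [integral_div]
      have h1 := gt_repr (μ := μ) (hφm k) (hφk1 k) hχm hχD (Ψ := fun _ => 1) measurable_const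
        (integrable_const _) (st (nk N k) e0)
      simp only [sub_self, mul_zero, mul_one, integral_zero] at h1
      rw [← h1, zero_div]
  have hwin := v1.win hμ v2
  have hm := hmain _ g hwin hTl
  -- one block
  have h1 : ∀ k ∈ pos n, |∫ J, φ k J * bp (σ1 J) (st (nk N k) e0) ∂P -
        ∫ J, φ k J * bp (σ2 J) (st (nk N k) e0) ∂P| ≤
      2 * D * |∫ J, g k J * NF (n * N) Φ1 Φ2 J ∂P| + ε / 2 := by
    intro k hk
    set e := st (nk N k) e0 with he
    have heF : e ∈ FB (n * N) := blk_sub_FB (mem_pos.1 hk) (Finset.mem_coe.1 (hek k))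
    have b1 := v1.bridge heF hσ1 hG1 (hφm k) (hφk1 k) hθ hκm hκ0 hκC hκθ hin hmass hbt
    have b2 := v2.bridge heF hσ2 hG2 (hφm k) (hφk1 k) hθ hκm hκ0 hκC hκθ hin hmass hbt
    have ib : ∀ {Φ : (E → ℝ) → ℝ} {G : (E → ℝ) → (V → ℝ) → Prop}, View (n * N) Φ G →
        Integrable (fun p : (E → ℝ) × (ℝ × ℝ) => φ k (upd e p.1 p.2.1) * χ p.2 *
          (Φ (upd e p.1 p.2.1) - Φ (upd e p.1 p.2.2))) (TT μ) := by
      intro Φ G hv
      refine TT_bdd ((((hφm k).comp (up1_law (μ := μ) e).measurable).mul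
        (hχm.comp measurable_snd)).mul ((hv.meas.comp (up1_law (μ := μ) e).measurable).sub
          (hv.meas.comp (up2_law (μ := μ) e).measurable))) (C := C) fun p => ?_
      rw [abs_mul, abs_mul]
      have c1 := hφk1 k (upd e p.1 p.2.1)
      have c2 := hv.upd_lip heF p.1 p.2.1 p.2.2
      have c3 : |χ p.2| * |Φ (upd e p.1 p.2.1) - Φ (upd e p.1 p.2.2)| ≤ C := by
        by_cases h0 : κ p.2 = 0
        · simp only [hχ]
          rw [h0, zero_div, abs_zero, zero_mul]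
          exact hC.le
        · have h4 : 0 < |p.2.1 - p.2.2| := hθ.trans_le (hκθ p.2 h0)
          simp only [hχ]
          rw [abs_div, abs_of_nonneg (hκ0 p.2), div_mul_eq_mul_div, div_le_iff₀ h4]
          have h5 := hκC p.2
          have h6 := hκ0 p.2
          nlinarith [abs_nonneg (Φ (upd e p.1 p.2.1) - Φ (upd e p.1 p.2.2))]
      have c4 : 0 ≤ |χ p.2| * |Φ (upd e p.1 p.2.1) - Φ (upd e p.1 p.2.2)| := by positivity
      rw [mul_assoc]
      nlinarith [abs_nonneg (φ k (upd e p.1 p.2.1))]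
    have e1 : ∫ p, φ k (upd e p.1 p.2.1) * χ p.2 *
          (Φ1 (upd e p.1 p.2.1) - Φ1 (upd e p.1 p.2.2)) ∂(TT μ) -
        ∫ p, φ k (upd e p.1 p.2.1) * χ p.2 *
          (Φ2 (upd e p.1 p.2.1) - Φ2 (upd e p.1 p.2.2)) ∂(TT μ) =
        2 * D * ∫ J, g k J * NF (n * N) Φ1 Φ2 J ∂P := by
      rw [← integral_sub (ib v1) (ib v2)]
      have e2 := gt_repr (hφm k) (hφk1 k) hχm hχD hwin.meas hwin.int e
      have e3 : ∀ p : (E → ℝ) × (ℝ × ℝ), φ k (upd e p.1 p.2.1) * χ p.2 *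
          (Φ1 (upd e p.1 p.2.1) - Φ1 (upd e p.1 p.2.2)) -
          φ k (upd e p.1 p.2.1) * χ p.2 *
          (Φ2 (upd e p.1 p.2.1) - Φ2 (upd e p.1 p.2.2)) =
          φ k (upd e p.1 p.2.1) * χ p.2 * (NF (n * N) Φ1 Φ2 (upd e p.1 p.2.1) -
            NF (n * N) Φ1 Φ2 (upd e p.1 p.2.2)) := by
        intro p
        have hs : ({e} : Set E) ⊆ ((FB (n * N) : Finset E) : Set E) :=
          Set.singleton_subset_iff.2 (Finset.mem_coe.2 heF)
        have e4 : ∀ t, patch ((FB (n * N) : Finset E) : Set E) (upd e p.1 t) (fun _ => 0) =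
            patch ((FB (n * N) : Finset E) : Set E) p.1 (fun _ => 0) := fun t => by
          rw [upd_patch, patch_patch hs]
        unfold NF
        rw [e4, e4]
        ring
      simp only [e3]
      rw [e2, ← integral_const_mul]
      refine integral_congr_ae (Eventually.of_forall fun J => ?_)
      simp only [hg]
      field_simp
      rw [← he, mul_comm]
    have e5 : ∀ x1 x2 a1 a2 : ℝ, |x1 - a1| ≤ 3 * (ε / 12) → |x2 - a2| ≤ 3 * (ε / 12) →
        |x1 - x2| ≤ |a1 - a2| + ε / 2 := by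
      intro x1 x2 a1 a2 h1 h2
      have h3 : x1 - x2 = (x1 - a1) - (x2 - a2) + (a1 - a2) := by ring
      rw [h3]
      have h4 := abs_add_le ((x1 - a1) - (x2 - a2)) (a1 - a2)
      have h5 := abs_sub (x1 - a1) (x2 - a2)
      linarith
    have e6 := e5 _ _ _ _ b1 b2
    have e7 : |∫ p, φ k (upd e p.1 p.2.1) * (κ p.2 / (p.2.1 - p.2.2)) *
          (Φ1 (upd e p.1 p.2.1) - Φ1 (upd e p.1 p.2.2)) ∂(TT μ) -
        ∫ p, φ k (upd e p.1 p.2.1) * (κ p.2 / (p.2.1 - p.2.2)) *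
          (Φ2 (upd e p.1 p.2.1) - Φ2 (upd e p.1 p.2.2)) ∂(TT μ)| =
        2 * D * |∫ J, g k J * NF (n * N) Φ1 Φ2 J ∂P| := by
      have e8 := congrArg abs e1
      rw [abs_mul, abs_of_pos (by linarith : (0 : ℝ) < 2 * D)] at e8
      exact e8
    rw [e7] at e6
    exact e6
  refine (Finset.sum_le_sum h1).trans ?_
  rw [Finset.sum_add_distrib, ← Finset.mul_sum, Finset.sum_const, card_pos, nsmul_eq_mul]
  have h2 := mul_le_mul_of_nonneg_left hm (by linarith : (0 : ℝ) ≤ 2 * D)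
  have h3 : 2 * D * (ε / (4 * D) * (n : ℝ) ^ 2) = ε / 2 * (n : ℝ) ^ 2 := by
    field_simp
    ring
  rw [h3] at h2
  push_cast
  linarith

end Pool.Agent.K3h93.EF
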